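import Mathlib
import Pool.Agent.Work.MP_b0497c_an.Defs

set_option autoImplicit false

/-!
The Euler equations on the torus restricted to a set of Fourier modes, and the chain of modes
on which they reduce to a dyadic model.
-/

namespace Pool.Agent.Work.MP_b0497c_an.Dec

open Set MeasureTheory RealInnerProductSpace Pool.Agent.Work.MP_b0497c_an

/-- The cube `[0, 2π]³`, a fundamental domain of the torus. -/
def cube : Set (EuclideanSpace ℝ (Fin 3)) := {x | ∀ i, x i ∈ Icc 0 (2 * Real.pi)}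

/-- The phase `k · x`. -/
def phase (k : Fin 3 → ℤ) (x : EuclideanSpace ℝ (Fin 3)) : ℝ :=
  k 0 * x 0 + k 1 * x 1 + k 2 * x 2

/-- `v` is a `C¹` divergence free vector field on the torus, and all its Fourier coefficients
outside `L` vanish. -/
structure InModes (L : Set (Fin 3 → ℤ))
    (v : EuclideanSpace ℝ (Fin 3) → EuclideanSpace ℝ (Fin 3)) : Prop where
  contDiff : ContDiff ℝ 1 v
  periodic : Periodic3 v
  div_free : ∀ x, LinearMap.trace ℝ (EuclideanSpace ℝ (Fin 3)) (fderiv ℝ v x) = 0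
  cos_coeff : ∀ k ∉ L, ∫ x in cube, Real.cos (phase k x) • v x = 0
  sin_coeff : ∀ k ∉ L, ∫ x in cube, Real.sin (phase k x) • v x = 0

/-- `u` is a classical solution on `[0, T)` of the Euler equations restricted to the modes `L`:
`u` is `C¹` in `(t, x)`, `u t` is a divergence free field with modes in `L`, and
`∂ₜ u + (u · ∇) u` is orthogonal in `L²` to all such fields. -/
structure IsRestrictedSolution (L : Set (Fin 3 → ℤ)) (T : ℝ)
    (u : ℝ → EuclideanSpace ℝ (Fin 3) → EuclideanSpace ℝ (Fin 3)) : Prop where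
  contDiff_u : ContDiffOn ℝ 1 (fun z : ℝ × EuclideanSpace ℝ (Fin 3) => u z.1 z.2)
    (Ico 0 T ×ˢ univ)
  modes : ∀ t ∈ Ico 0 T, InModes L (u t)
  momentum : ∀ t ∈ Ico 0 T, ∀ φ, InModes L φ →
    ∫ x in cube, ⟪derivWithin (fun s => u s x) (Ico 0 T) t + fderiv ℝ (u t) x (u t x), φ x⟫ = 0

/-- Signed permutations of the coordinates. -/
abbrev Sgn : Type := Equiv.Perm (Fin 3) × (Fin 3 → ℤˣ)

/-- The action of a signed permutation. -/
def act (g : Sgn) (v : Fin 3 → ℤ) : Fin 3 → ℤ := fun i => (g.2 i : ℤ) * v (g.1 i)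

/-- The integer dot product. -/
def dot (v w : Fin 3 → ℤ) : ℤ := v 0 * w 0 + v 1 * w 1 + v 2 * w 2

/-- An integer vector as a real vector. -/
noncomputable def vec (k : Fin 3 → ℤ) : EuclideanSpace ℝ (Fin 3) :=
  !₂[(k 0 : ℝ), (k 1 : ℝ), (k 2 : ℝ)]

/-- The five base wave vectors. -/
def kap (n : ℕ) : Fin 3 → ℤ :=
  match n % 5 with
  | 0 => ![1, 1, 3]
  | 1 => ![0, 2, 6]
  | 2 => ![2, 2, 12]
  | 3 => ![4, 0, 24]
  | _ => ![8, 24, 24]

/-- The amplitude vectors. -/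
def ev (n : ℕ) : Fin 3 → ℤ :=
  match n % 5 with
  | 0 => ![-3, -3, 2]
  | 1 => ![0, 3, -1]
  | 2 => ![3, 3, -1]
  | 3 => ![6, 0, -1]
  | _ => ![-6, 1, 1]

/-- Squared length of the amplitude vectors. -/
def eps (n : ℕ) : ℤ :=
  match n % 5 with
  | 0 => 22
  | 1 => 10
  | 2 => 19
  | 3 => 37
  | _ => 38

/-- Base coupling constants. -/
def qq (n : ℕ) : ℤ :=
  match n % 5 with
  | 0 => 264
  | 1 => 240
  | 2 => 912
  | 3 => 3552
  | _ => 12160

/-- The wave vectors of the chain, starting at scale `16 ^ m`. -/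
def kk (m n : ℕ) : Fin 3 → ℤ := fun i => 16 ^ (m + n / 5) * kap n i

/-- The coupling constants. -/
def Q (m n : ℕ) : ℤ := 16 ^ (m + n / 5) * qq n

/-- The modes of the chain. -/
def X (m : ℕ) : Set (Fin 3 → ℤ) := {k | ∃ (n : ℕ) (g : Sgn), k = act g (kk m n)}

/-- All modes, except the nonzero sums of two modes of the chain which are not in the chain. -/
def L (m : ℕ) : Set (Fin 3 → ℤ) :=
  {k | k = 0 ∨ k ∈ X m ∨ ¬ ∃ p ∈ X m, ∃ q ∈ X m, k = p + q}

/-- The field of shell `n`. -/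
noncomputable def V (m n : ℕ) (x : EuclideanSpace ℝ (Fin 3)) : EuclideanSpace ℝ (Fin 3) :=
  ∑ g : Sgn, Real.sin (phase (act g (kk m n)) x) • vec (act g (ev n))

/-- Interaction of two shells, tested against the sine coefficients `S`. -/
noncomputable def Tt (m n n' : ℕ) (S : (Fin 3 → ℤ) → EuclideanSpace ℝ (Fin 3)) : ℝ :=
  ∑ g : Sgn, ∑ h : Sgn, (dot (act g (ev n)) (act h (kk m n')) : ℝ) *
    ⟪vec (act h (ev n')), S (act g (kk m n) + act h (kk m n'))⟫

/-- Pairing of shell `n` with the sine coefficients `S`. -/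
noncomputable def w (m n : ℕ) (S : (Fin 3 → ℤ) → EuclideanSpace ℝ (Fin 3)) : ℝ :=
  ∑ g : Sgn, ⟪vec (act g (ev n)), S (act g (kk m n))⟫

/-- The series of fields. -/
noncomputable def U (m : ℕ) (a : ℕ → ℝ → ℝ) (t : ℝ) (x : EuclideanSpace ℝ (Fin 3)) :
    EuclideanSpace ℝ (Fin 3) := ∑' n, a n t • V m n x

/-- Rapidly decaying `C¹` amplitudes. -/
structure Amp (T : ℝ) (a a' : ℕ → ℝ → ℝ) : Prop where
  deriv : ∀ n t, t < T → HasDerivAt (a n) (a' n t) t
  cont : ∀ n, ContinuousOn (a' n) (Iio T)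
  decay : ∀ T' < T, ∀ ρ : ℝ, ∃ K : ℝ, ∀ n, ∀ t ∈ Icc (-1) T',
    |a n t| * ρ ^ n ≤ K ∧ |a' n t| * ρ ^ n ≤ K

end Pool.Agent.Work.MP_b0497c_an.Dec
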