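import Mathlib
import Pool.Agent.Work.MP_b0497c_an.Algebra
import Pool.Agent.Work.MP_b0497c_an.Dec.Defs

set_option autoImplicit false

/-!
Integrals over the cube `[0, 2π]³`.
-/

namespace Pool.Agent.Work.MP_b0497c_an.Dec

open Set MeasureTheory RealInnerProductSpace Pool.Agent.Work.MP_b0497c_an Filter Topology
open scoped ContDiff

theorem cube_preimage : (WithLp.toLp 2 : (Fin 3 → ℝ) → EuclideanSpace ℝ (Fin 3)) ⁻¹' cube
    = Icc (fun _ => 0) (fun _ => 2 * Real.pi) := by
  ext y
  simp only [mem_preimage, cube, mem_Icc, Pi.le_def, mem_ofPred_eq]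
  constructor
  · intro h
    exact ⟨fun i => (h i).1, fun i => (h i).2⟩
  · intro h i
    exact ⟨h.1 i, h.2 i⟩

theorem cube_compact : IsCompact cube := by
  have h1 : cube = (WithLp.toLp 2 : (Fin 3 → ℝ) → EuclideanSpace ℝ (Fin 3)) ''
      (Icc (fun _ => 0) (fun _ => 2 * Real.pi)) := by
    rw [← cube_preimage, image_preimage_eq]
    intro x
    exact ⟨x.ofLp, rfl⟩
  rw [h1]
  apply isCompact_Icc.image
  exact (PiLp.continuous_toLp 2 (fun _ : Fin 3 => ℝ))

theorem volume_cube : volume.real cube = (2 * Real.pi) ^ 3 := by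
  have h1 := (PiLp.volume_preserving_toLp (Fin 3)).measure_preimage
    (cube_compact.measurableSet.nullMeasurableSet)
  rw [measureReal_def, ← h1, cube_preimage, Real.volume_Icc_pi]
  simp only [Fin.prod_univ_three, sub_zero]
  rw [← ENNReal.ofReal_mul (by positivity), ← ENNReal.ofReal_mul (by positivity),
    ENNReal.toReal_ofReal (by positivity)]
  ring

theorem per_div_cube {G : EuclideanSpace ℝ (Fin 3) → EuclideanSpace ℝ (Fin 3)}
    (hG : ContDiff ℝ 1 G) (hper : Periodic3 G) :
    ∫ x in cube, LinearMap.trace ℝ (EuclideanSpace ℝ (Fin 3)) (fderiv ℝ G x) = 0 := by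
  have h1 := (PiLp.volume_preserving_toLp (Fin 3)).setIntegral_preimage_emb
    (MeasurableEquiv.toLp 2 (Fin 3 → ℝ)).measurableEmbedding
    (fun x : E3 => LinearMap.trace ℝ E3 (fderiv ℝ G x)) cube
  rw [← h1, cube_preimage]
  set L : (Fin 3 → ℝ) →L[ℝ] E3 := ((PiLp.continuousLinearEquiv 2 ℝ (fun _ : Fin 3 => ℝ)).symm :
    (Fin 3 → ℝ) →L[ℝ] E3) with hL
  set L' : E3 →L[ℝ] (Fin 3 → ℝ) := ((PiLp.continuousLinearEquiv 2 ℝ (fun _ : Fin 3 => ℝ)) :
    E3 →L[ℝ] (Fin 3 → ℝ)) with hL'
  set f : (Fin 3 → ℝ) → (Fin 3 → ℝ) := fun y => L' (G (L y)) with hf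
  set f' : (Fin 3 → ℝ) → (Fin 3 → ℝ) →L[ℝ] (Fin 3 → ℝ) := fun y =>
    L'.comp ((fderiv ℝ G (L y)).comp L) with hf'
  have hfd : ∀ y, HasFDerivAt f (f' y) y := by
    intro y
    have a1 : HasFDerivAt G (fderiv ℝ G (L y)) (L y) :=
      (hG.differentiable (by norm_num) (L y)).hasFDerivAt
    exact L'.hasFDerivAt.comp y (a1.comp y L.hasFDerivAt)
  have hfc : Continuous f := continuous_iff_continuousAt.mpr fun y => (hfd y).continuousAt
  have hLe : ∀ i : Fin 3, L (Pi.single i 1) = e i := by
    intro i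
    rfl
  have htr : ∀ y, LinearMap.trace ℝ E3 (fderiv ℝ G (L y)) = ∑ i : Fin 3, f' y (Pi.single i 1) i := by
    intro y
    rw [trace_eq, Fin.sum_univ_three]
    simp only [hf', ContinuousLinearMap.comp_apply, hLe]
    rfl
  have hcG : Continuous (fun y => fderiv ℝ G (L y)) :=
    (hG.continuous_fderiv (by norm_num)).comp L.continuous
  have hI : IntegrableOn (fun y => ∑ i : Fin 3, f' y (Pi.single i 1) i)
      (Icc (fun _ => (0 : ℝ)) (fun _ => 2 * Real.pi)) := by
    apply ContinuousOn.integrableOn_compact isCompact_Icc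
    apply Continuous.continuousOn
    apply continuous_finsetSum
    intro i _
    have c1 : Continuous (fun y => f' y) := by
      simp only [hf']
      exact continuous_const.clm_comp (hcG.clm_comp continuous_const)
    have c2 : Continuous (fun y => f' y (Pi.single i 1)) := c1.clm_apply continuous_const
    exact (continuous_apply i).comp c2
  have hdiv := integral_divergence_of_hasFDerivAt_off_countable
    (fun _ : Fin 3 => (0 : ℝ)) (fun _ : Fin 3 => 2 * Real.pi)
    (by intro i; simp only; have := Real.pi_pos; linarith) f f' ∅ countable_empty hfc.continuousOn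
    (fun x _ => hfd x) hI
  have e1 : ∫ x in Icc (fun _ : Fin 3 => (0 : ℝ)) (fun _ : Fin 3 => 2 * Real.pi),
      LinearMap.trace ℝ E3 (fderiv ℝ G (WithLp.toLp 2 x))
      = ∫ x in Icc (fun _ : Fin 3 => (0 : ℝ)) (fun _ : Fin 3 => 2 * Real.pi),
        ∑ i : Fin 3, f' x (Pi.single i 1) i := by
    congr 1
    funext x
    exact htr x
  rw [e1, hdiv]
  apply Finset.sum_eq_zero
  intro i _
  rw [sub_eq_zero]
  congr 1
  funext x
  have e2 : L (Fin.insertNth i (2 * Real.pi) x)
      = L (Fin.insertNth i 0 x) + (2 * Real.pi) • e i := by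
    rw [← hLe i, ← map_smul, ← map_add]
    congr 1
    funext j
    rcases Fin.eq_self_or_eq_succAbove i j with hj | ⟨k, hk⟩
    · subst hj
      simp
    · subst hk
      simp
  simp only [hf]
  rw [e2, hper i]

/-! ### The phases -/

theorem phase_eq_inner (k : Fin 3 → ℤ) (x : EuclideanSpace ℝ (Fin 3)) :
    phase k x = ⟪vec k, x⟫ := by
  rw [inner_eq]
  simp [phase, vec]

theorem phase_zero (x : EuclideanSpace ℝ (Fin 3)) : phase 0 x = 0 := by
  simp [phase]

theorem phase_add_left (k l : Fin 3 → ℤ) (x : EuclideanSpace ℝ (Fin 3)) :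
    phase (k + l) x = phase k x + phase l x := by
  simp only [phase, Pi.add_apply, Int.cast_add]
  ring

theorem phase_neg_left (k : Fin 3 → ℤ) (x : EuclideanSpace ℝ (Fin 3)) :
    phase (-k) x = -phase k x := by
  simp only [phase, Pi.neg_apply, Int.cast_neg]
  ring

theorem phase_sub_left (k l : Fin 3 → ℤ) (x : EuclideanSpace ℝ (Fin 3)) :
    phase (k - l) x = phase k x - phase l x := by
  simp only [phase, Pi.sub_apply, Int.cast_sub]
  ring

theorem phase_shift (k : Fin 3 → ℤ) (i : Fin 3) (x : EuclideanSpace ℝ (Fin 3)) :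
    phase k (x + (2 * Real.pi) • e i) = phase k x + k i * (2 * Real.pi) := by
  fin_cases i <;> simp [phase, e] <;> ring

theorem hasFDerivAt_phase (k : Fin 3 → ℤ) (x : EuclideanSpace ℝ (Fin 3)) :
    HasFDerivAt (phase k) (innerSL ℝ (vec k)) x := by
  have h : phase k = fun x => innerSL ℝ (vec k) x := by
    funext y
    rw [phase_eq_inner, innerSL_apply_apply]
  rw [h]
  exact (innerSL ℝ (vec k)).hasFDerivAt

theorem contDiff_phase (k : Fin 3 → ℤ) : ContDiff ℝ ∞ (phase k) := by
  have h : phase k = fun x => innerSL ℝ (vec k) x := by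
    funext y
    rw [phase_eq_inner, innerSL_apply_apply]
  rw [h]
  exact (innerSL ℝ (vec k)).contDiff

theorem continuous_phase (k : Fin 3 → ℤ) : Continuous (phase k) := (contDiff_phase k).continuous

theorem cos_phase_periodic (k : Fin 3 → ℤ) : Periodic3 (fun x => Real.cos (phase k x)) := by
  intro i x
  show Real.cos (phase k (x + (2 * Real.pi) • e i)) = Real.cos (phase k x)
  rw [phase_shift]
  exact Real.cos_add_int_mul_two_pi _ _

theorem sin_phase_periodic (k : Fin 3 → ℤ) : Periodic3 (fun x => Real.sin (phase k x)) := by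
  intro i x
  show Real.sin (phase k (x + (2 * Real.pi) • e i)) = Real.sin (phase k x)
  rw [phase_shift]
  exact Real.sin_add_int_mul_two_pi _ _

theorem vec_inner_e (k : Fin 3 → ℤ) (i : Fin 3) : ⟪vec k, e i⟫ = k i := by
  rw [inner_eq]
  fin_cases i <;> simp [vec, e]

theorem trace_smulRight (a : ℝ) (k : Fin 3 → ℤ) (v : EuclideanSpace ℝ (Fin 3)) :
    LinearMap.trace ℝ (EuclideanSpace ℝ (Fin 3)) ((a • innerSL ℝ (vec k)).smulRight v :
      EuclideanSpace ℝ (Fin 3) →L[ℝ] EuclideanSpace ℝ (Fin 3)) = a * ⟪vec k, v⟫ := by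
  rw [trace_eq, inner_eq]
  simp only [ContinuousLinearMap.smulRight_apply, ContinuousLinearMap.smul_apply,
    innerSL_apply_apply, vec_inner_e, smul_eq_mul, PiLp.smul_apply]
  simp only [vec]
  simp
  ring

theorem integral_cos (k : Fin 3 → ℤ) :
    ∫ x in cube, Real.cos (phase k x) = if k = 0 then (2 * Real.pi) ^ 3 else 0 := by
  split_ifs with h
  · subst h
    simp only [phase_zero, Real.cos_zero]
    rw [setIntegral_const, volume_cube]
    simp
  · obtain ⟨i, hi⟩ : ∃ i, k i ≠ 0 := by
      by_contra hh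
      push Not at hh
      exact h (funext hh)
    have hk : (k i : ℝ) ≠ 0 := by exact_mod_cast hi
    have hd : ∀ x, HasFDerivAt (fun x => (Real.sin (phase k x)) • ((k i : ℝ)⁻¹ • e i))
        ((Real.cos (phase k x) • innerSL ℝ (vec k)).smulRight ((k i : ℝ)⁻¹ • e i)) x :=
      fun x => ((hasFDerivAt_phase k x).sin).smul_const _
    have h1 := per_div_cube (G := fun x => (Real.sin (phase k x)) • ((k i : ℝ)⁻¹ • e i))
      ((Real.contDiff_sin.comp ((contDiff_phase k).of_le (by exact_mod_cast le_top))).smul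
        contDiff_const)
      (fun j x => by
        have := sin_phase_periodic k j x
        simp only at this
        simp only [this])
    rw [← h1]
    congr 1
    funext x
    rw [(hd x).fderiv, trace_smulRight, inner_smul_right, vec_inner_e, inv_mul_cancel₀ hk, mul_one]

theorem integral_sin (k : Fin 3 → ℤ) : ∫ x in cube, Real.sin (phase k x) = 0 := by
  by_cases h : k = 0
  · subst h
    simp [phase_zero]
  · obtain ⟨i, hi⟩ : ∃ i, k i ≠ 0 := by
      by_contra hh
      push Not at hh
      exact h (funext hh)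
    have hk : (k i : ℝ) ≠ 0 := by exact_mod_cast hi
    have hd : ∀ x, HasFDerivAt (fun x => (Real.cos (phase k x)) • (-(k i : ℝ)⁻¹ • e i))
        (((-Real.sin (phase k x)) • innerSL ℝ (vec k)).smulRight (-(k i : ℝ)⁻¹ • e i)) x :=
      fun x => ((hasFDerivAt_phase k x).cos).smul_const _
    have h1 := per_div_cube (G := fun x => (Real.cos (phase k x)) • (-(k i : ℝ)⁻¹ • e i))
      ((Real.contDiff_cos.comp ((contDiff_phase k).of_le (by exact_mod_cast le_top))).smul
        contDiff_const)
      (fun j x => by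
        have := cos_phase_periodic k j x
        simp only at this
        simp only [this])
    rw [← h1]
    congr 1
    funext x
    rw [(hd x).fderiv, trace_smulRight, inner_smul_right, vec_inner_e]
    field_simp

theorem sin_coeff_orth {φ : EuclideanSpace ℝ (Fin 3) → EuclideanSpace ℝ (Fin 3)}
    (h1 : ContDiff ℝ 1 φ) (h2 : Periodic3 φ)
    (h3 : ∀ x, LinearMap.trace ℝ (EuclideanSpace ℝ (Fin 3)) (fderiv ℝ φ x) = 0)
    (k : Fin 3 → ℤ) : ⟪vec k, ∫ x in cube, Real.sin (phase k x) • φ x⟫ = 0 := by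
  have hint : IntegrableOn (fun x => Real.sin (phase k x) • φ x) cube :=
    (((Real.continuous_sin.comp (continuous_phase k)).smul h1.continuous).continuousOn).integrableOn_compact
      cube_compact
  rw [← integral_inner hint]
  have hd : ∀ x, HasFDerivAt (fun x => (Real.cos (phase k x)) • φ x)
      (Real.cos (phase k x) • fderiv ℝ φ x +
        ((-Real.sin (phase k x)) • innerSL ℝ (vec k)).smulRight (φ x)) x := fun x =>
    ((hasFDerivAt_phase k x).cos).smul (h1.differentiable (by norm_num) x).hasFDerivAt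
  have h4 := per_div_cube (G := fun x => (Real.cos (phase k x)) • φ x)
    ((Real.contDiff_cos.comp ((contDiff_phase k).of_le (by exact_mod_cast le_top))).smul h1)
    (fun j x => by
      have := cos_phase_periodic k j x
      simp only at this
      simp only [this, h2 j x])
  have h5 : ∀ x, ⟪vec k, Real.sin (phase k x) • φ x⟫ = -LinearMap.trace ℝ
      (EuclideanSpace ℝ (Fin 3)) (fderiv ℝ (fun x => (Real.cos (phase k x)) • φ x) x) := by
    intro x
    rw [(hd x).fderiv]
    have e1 : LinearMap.trace ℝ (EuclideanSpace ℝ (Fin 3))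
        (Real.cos (phase k x) • fderiv ℝ φ x +
          ((-Real.sin (phase k x)) • innerSL ℝ (vec k)).smulRight (φ x) :
          EuclideanSpace ℝ (Fin 3) →L[ℝ] EuclideanSpace ℝ (Fin 3))
        = Real.cos (phase k x) * LinearMap.trace ℝ (EuclideanSpace ℝ (Fin 3)) (fderiv ℝ φ x)
          + LinearMap.trace ℝ (EuclideanSpace ℝ (Fin 3))
            (((-Real.sin (phase k x)) • innerSL ℝ (vec k)).smulRight (φ x) :
              EuclideanSpace ℝ (Fin 3) →L[ℝ] EuclideanSpace ℝ (Fin 3)) := by
      rw [ContinuousLinearMap.coe_add, ContinuousLinearMap.coe_smul, map_add, map_smul,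
        smul_eq_mul]
    rw [e1, h3, trace_smulRight, inner_smul_right]
    ring
  simp only [h5]
  rw [integral_neg, h4, neg_zero]

end Pool.Agent.Work.MP_b0497c_an.Dec
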