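import Mathlib
import Pool.Agent.Work.MP_b0497c_an.Dec.CubeInt

set_option autoImplicit false

/-!
The fields of the chain: smoothness, periodicity, divergence, bounds for all derivatives and
Fourier coefficients.
-/

namespace Pool.Agent.Work.MP_b0497c_an.Dec

open Set MeasureTheory RealInnerProductSpace Pool.Agent.Work.MP_b0497c_an Filter Topology
open scoped ContDiff

/-- The phase as a continuous linear map. -/
noncomputable def phaseL (k : Fin 3 → ℤ) : EuclideanSpace ℝ (Fin 3) →L[ℝ] ℝ :=
  innerSL ℝ (vec k)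

theorem phaseL_apply (k : Fin 3 → ℤ) (x : EuclideanSpace ℝ (Fin 3)) :
    phaseL k x = phase k x := by
  simp [phaseL, phase, vec, PiLp.inner_apply, Fin.sum_univ_three]
  ring

theorem phase_vec (k v : Fin 3 → ℤ) : phase k (vec v) = (dot k v : ℝ) := by
  simp [phase, vec, dot]

theorem hasFDerivAt_phaseL (k : Fin 3 → ℤ) (x : EuclideanSpace ℝ (Fin 3)) :
    HasFDerivAt (phase k) (phaseL k) x := by
  have h : phase k = phaseL k := by
    funext x
    rw [phaseL_apply]
  rw [h]
  exact (phaseL k).hasFDerivAt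

/-! ### Smoothness and periodicity -/

theorem V_contDiff (m n : ℕ) : ContDiff ℝ ∞ (V m n) := by
  unfold V
  refine ContDiff.sum fun g _ => ?_
  exact (Real.contDiff_sin.comp (contDiff_phase _)).smul contDiff_const

theorem phase_add (k : Fin 3 → ℤ) (x y : EuclideanSpace ℝ (Fin 3)) :
    phase k (x + y) = phase k x + phase k y := by
  simp [phase]
  ring

theorem phase_e (k : Fin 3 → ℤ) (i : Fin 3) (c : ℝ) : phase k (c • e i) = k i * c := by
  fin_cases i <;> simp [phase, e]

theorem V_periodic (m n : ℕ) : Periodic3 (V m n) := by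
  intro i x
  unfold V
  refine Finset.sum_congr rfl fun g _ => ?_
  rw [phase_add, phase_e, Real.sin_add_int_mul_two_pi]

/-! ### Divergence -/

theorem dot_act (g : Sgn) (v w : Fin 3 → ℤ) : dot (act g v) (act g w) = dot v w := by
  have h : ∀ a b : Fin 3 → ℤ, dot a b = ∑ i, a i * b i := by
    intro a b
    rw [Fin.sum_univ_three]
    rfl
  rw [h, h, ← Equiv.sum_comp g.1 (fun i => v i * w i)]
  refine Finset.sum_congr rfl fun i _ => ?_
  have h1 : ((g.2 i : ℤˣ) : ℤ) * ((g.2 i : ℤˣ) : ℤ) = 1 := by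
    rw [← Units.val_mul, Int.units_mul_self, Units.val_one]
  simp only [act]
  linear_combination (v (g.1 i) * w (g.1 i)) * h1

theorem dot_kap_ev (n : ℕ) : dot (kap n) (ev n) = 0 := by
  unfold kap ev
  split <;> simp [dot]

theorem dot_kk_ev (m n : ℕ) : dot (kk m n) (ev n) = 0 := by
  have h : dot (kk m n) (ev n) = 16 ^ (m + n / 5) * dot (kap n) (ev n) := by
    simp only [dot, kk]
    ring
  rw [h, dot_kap_ev, mul_zero]

theorem hasFDerivAt_V (m n : ℕ) (x : EuclideanSpace ℝ (Fin 3)) :
    HasFDerivAt (V m n) (∑ g : Sgn, (Real.cos (phase (act g (kk m n)) x) •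
      phaseL (act g (kk m n))).smulRight (vec (act g (ev n)))) x := by
  unfold V
  refine HasFDerivAt.fun_sum fun g _ => ?_
  exact ((hasFDerivAt_phaseL _ x).sin).smul_const _

theorem V_div (m n : ℕ) (x : EuclideanSpace ℝ (Fin 3)) :
    LinearMap.trace ℝ (EuclideanSpace ℝ (Fin 3)) (fderiv ℝ (V m n) x) = 0 := by
  rw [(hasFDerivAt_V m n x).fderiv, ContinuousLinearMap.toLinearMap_sum, map_sum]
  refine Finset.sum_eq_zero fun g _ => ?_
  have h : ((((Real.cos (phase (act g (kk m n)) x) • phaseL (act g (kk m n))).smulRight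
      (vec (act g (ev n))) : EuclideanSpace ℝ (Fin 3) →L[ℝ] EuclideanSpace ℝ (Fin 3)))
      : EuclideanSpace ℝ (Fin 3) →ₗ[ℝ] EuclideanSpace ℝ (Fin 3))
      = LinearMap.smulRight (Real.cos (phase (act g (kk m n)) x) •
        (phaseL (act g (kk m n)) : EuclideanSpace ℝ (Fin 3) →ₗ[ℝ] ℝ)) (vec (act g (ev n))) := by
    ext y
    simp
  rw [h, LinearMap.trace_smulRight]
  simp [phaseL_apply, phase_vec, dot_act, dot_kk_ev]

/-! ### Bounds for the derivatives -/

theorem norm_iter_wave (j : ℕ) (k : Fin 3 → ℤ) (v : EuclideanSpace ℝ (Fin 3))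
    (x : EuclideanSpace ℝ (Fin 3)) :
    ‖iteratedFDeriv ℝ j (fun x => Real.sin (phase k x) • v) x‖ ≤ ‖vec k‖ ^ j * ‖v‖ := by
  have h : (fun x => Real.sin (phase k x) • v)
      = (ContinuousLinearMap.toSpanSingleton ℝ v) ∘ (Real.sin ∘ (phaseL k)) := by
    funext y
    simp [phaseL_apply]
  have hs : ContDiff ℝ ∞ (Real.sin ∘ (phaseL k)) := Real.contDiff_sin.comp (phaseL k).contDiff
  rw [h]
  refine (ContinuousLinearMap.norm_iteratedFDeriv_comp_left _ (N := ∞) hs.contDiffAt
    (by exact_mod_cast le_top)).trans ?_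
  rw [ContinuousLinearMap.norm_toSpanSingleton,
    ContinuousLinearMap.iteratedFDeriv_comp_right (phaseL k) (n := ∞) Real.contDiff_sin x
      (by exact_mod_cast le_top), mul_comm]
  refine mul_le_mul_of_nonneg_right ?_ (norm_nonneg _)
  refine (ContinuousMultilinearMap.norm_compContinuousLinearMap_le _ _).trans ?_
  rw [norm_iteratedFDeriv_eq_norm_iteratedDeriv, Real.norm_eq_abs, Finset.prod_const,
    Finset.card_univ, Fintype.card_fin]
  have h2 : ‖phaseL k‖ = ‖vec k‖ := innerSL_apply_norm ..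
  rw [h2]
  have h3 := Real.abs_iteratedDeriv_sin_le_one j (phaseL k x)
  nlinarith [pow_nonneg (norm_nonneg (vec k)) j]

theorem norm_vec_le (k : Fin 3 → ℤ) (B : ℝ) (hB : 0 ≤ B) (h : ∀ i, |(k i : ℝ)| ≤ B) :
    ‖vec k‖ ≤ 2 * B := by
  rw [EuclideanSpace.norm_eq, Real.sqrt_le_left (by positivity), Fin.sum_univ_three]
  have h1 : ∀ i, (vec k i) = k i := by
    intro i
    fin_cases i <;> simp [vec]
  simp only [h1, Real.norm_eq_abs, sq_abs]
  have h2 : ∀ i, (k i : ℝ) ^ 2 ≤ B ^ 2 := by
    intro i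
    rw [← sq_abs]
    exact pow_le_pow_left₀ (abs_nonneg _) (h i) 2
  nlinarith [h2 0, h2 1, h2 2]

theorem abs_act_apply (g : Sgn) (v : Fin 3 → ℤ) (i : Fin 3) : |act g v i| = |v (g.1 i)| := by
  rw [act, abs_mul, Int.isUnit_iff_abs_eq.mp (g.2 i).isUnit, one_mul]

theorem abs_kap_le (n : ℕ) (i : Fin 3) : |kap n i| ≤ 24 := by
  have h5 : n % 5 < 5 := Nat.mod_lt _ (by norm_num)
  unfold kap
  generalize n % 5 = r at *
  interval_cases r <;> fin_cases i <;> simp

theorem abs_ev_le (n : ℕ) (i : Fin 3) : |ev n i| ≤ 6 := by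
  have h5 : n % 5 < 5 := Nat.mod_lt _ (by norm_num)
  unfold ev
  generalize n % 5 = r at *
  interval_cases r <;> fin_cases i <;> simp

theorem norm_act_kk (m n : ℕ) (g : Sgn) : ‖vec (act g (kk m n))‖ ≤ 48 * 16 ^ m * 16 ^ n := by
  have h := norm_vec_le (act g (kk m n)) (24 * 16 ^ m * 16 ^ n) (by positivity) ?_
  · linarith
  · intro i
    rw [← Int.cast_abs, abs_act_apply, kk, abs_mul, abs_pow]
    push_cast
    have h1 : (|kap n (g.1 i)| : ℝ) ≤ 24 := by exact_mod_cast abs_kap_le n (g.1 i)
    have h2 : (16 : ℝ) ^ (m + n / 5) ≤ 16 ^ m * 16 ^ n := by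
      rw [← pow_add]
      exact pow_le_pow_right₀ (by norm_num) (by omega)
    have h3 : (0 : ℝ) ≤ 16 ^ (m + n / 5) := by positivity
    rw [abs_of_nonneg (by norm_num : (0 : ℝ) ≤ 16)]
    nlinarith [abs_nonneg (kap n (g.1 i) : ℝ), mul_le_mul h2 h1 (abs_nonneg _) (by positivity)]

theorem norm_act_ev (n : ℕ) (g : Sgn) : ‖vec (act g (ev n))‖ ≤ 12 := by
  have h := norm_vec_le (act g (ev n)) 6 (by norm_num) ?_
  · linarith
  · intro i
    rw [← Int.cast_abs, abs_act_apply]
    exact_mod_cast abs_ev_le n (g.1 i)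

theorem V_iter_bound (m j : ℕ) : ∃ C ρ : ℝ, ∀ n x, ‖iteratedFDeriv ℝ j (V m n) x‖ ≤ C * ρ ^ n := by
  refine ⟨(Finset.univ : Finset Sgn).card * ((48 * 16 ^ m) ^ j * 12), 16 ^ j, fun n x => ?_⟩
  unfold V
  rw [iteratedFDeriv_fun_sum_apply (fun g _ => ?_)]
  · refine (norm_sum_le _ _).trans ?_
    rw [mul_assoc, ← nsmul_eq_mul]
    refine Finset.sum_le_card_nsmul _ _ _ fun g _ => ?_
    refine (norm_iter_wave j _ _ x).trans ?_
    have h1 := pow_le_pow_left₀ (norm_nonneg _) (norm_act_kk m n g) j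
    have h2 := norm_act_ev n g
    have h3 : (48 * 16 ^ m * 16 ^ n : ℝ) ^ j = (48 * 16 ^ m) ^ j * (16 ^ j) ^ n := by
      rw [mul_pow, ← pow_mul, ← pow_mul, mul_comm n j]
    calc ‖vec (act g (kk m n))‖ ^ j * ‖vec (act g (ev n))‖
        ≤ (48 * 16 ^ m * 16 ^ n : ℝ) ^ j * 12 :=
          mul_le_mul h1 h2 (norm_nonneg _) (by positivity)
      _ = _ := by rw [h3]; ring
  · exact (((Real.contDiff_sin.comp (contDiff_phase _)).smul contDiff_const).of_le
      (by exact_mod_cast le_top)).contDiffAt

/-! ### Fourier coefficients -/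

theorem phase_add' (k l : Fin 3 → ℤ) (x : EuclideanSpace ℝ (Fin 3)) :
    phase (k + l) x = phase k x + phase l x := by
  simp [phase]
  ring

theorem phase_sub' (k l : Fin 3 → ℤ) (x : EuclideanSpace ℝ (Fin 3)) :
    phase (k - l) x = phase k x - phase l x := by
  simp [phase]
  ring

theorem integrable_cube {F : Type} [NormedAddCommGroup F] [NormedSpace ℝ F]
    {f : EuclideanSpace ℝ (Fin 3) → F} (hf : Continuous f) : IntegrableOn f cube :=
  hf.continuousOn.integrableOn_compact cube_compact

theorem integral_cos_sin (k l : Fin 3 → ℤ) :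
    ∫ x in cube, Real.cos (phase k x) * Real.sin (phase l x) = 0 := by
  have h : ∀ x, Real.cos (phase k x) * Real.sin (phase l x)
      = (1 / 2) * Real.sin (phase (l + k) x) + (1 / 2) * Real.sin (phase (l - k) x) := by
    intro x
    rw [phase_add', phase_sub', Real.sin_add, Real.sin_sub]
    ring
  simp_rw [h]
  rw [integral_add, integral_const_mul, integral_const_mul, integral_sin, integral_sin]
  · simp
  · exact integrable_cube (continuous_const.mul (Real.continuous_sin.comp (continuous_phase _)))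
  · exact integrable_cube (continuous_const.mul (Real.continuous_sin.comp (continuous_phase _)))

theorem integral_sin_sin (k l : Fin 3 → ℤ) :
    ∫ x in cube, Real.sin (phase k x) * Real.sin (phase l x)
      = (1 / 2) * ((if k - l = 0 then (2 * Real.pi) ^ 3 else 0)
        - (if k + l = 0 then (2 * Real.pi) ^ 3 else 0)) := by
  have h : ∀ x, Real.sin (phase k x) * Real.sin (phase l x)
      = (1 / 2) * Real.cos (phase (k - l) x) - (1 / 2) * Real.cos (phase (k + l) x) := by
    intro x
    rw [phase_add', phase_sub', Real.cos_add, Real.cos_sub]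
    ring
  simp_rw [h]
  rw [integral_sub, integral_const_mul, integral_const_mul, integral_cos, integral_cos]
  · ring
  · exact integrable_cube (continuous_const.mul (Real.continuous_cos.comp (continuous_phase _)))
  · exact integrable_cube (continuous_const.mul (Real.continuous_cos.comp (continuous_phase _)))

theorem V_cos_coeff (m n : ℕ) (k : Fin 3 → ℤ) :
    ∫ x in cube, Real.cos (phase k x) • V m n x = 0 := by
  have h : ∀ x, Real.cos (phase k x) • V m n x = ∑ g : Sgn,
      (Real.cos (phase k x) * Real.sin (phase (act g (kk m n)) x)) • vec (act g (ev n)) := by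
    intro x
    rw [V, Finset.smul_sum]
    exact Finset.sum_congr rfl fun g _ => by rw [smul_smul]
  simp_rw [h]
  rw [integral_finsetSum]
  · refine Finset.sum_eq_zero fun g _ => ?_
    rw [integral_smul_const, integral_cos_sin, zero_smul]
  · intro g _
    exact integrable_cube (((Real.continuous_cos.comp (continuous_phase _)).mul
      (Real.continuous_sin.comp (continuous_phase _))).smul continuous_const)

theorem V_sin_coeff (m n : ℕ) (k : Fin 3 → ℤ) (hk : k ∉ X m) :
    ∫ x in cube, Real.sin (phase k x) • V m n x = 0 := by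
  have h : ∀ x, Real.sin (phase k x) • V m n x = ∑ g : Sgn,
      (Real.sin (phase k x) * Real.sin (phase (act g (kk m n)) x)) • vec (act g (ev n)) := by
    intro x
    rw [V, Finset.smul_sum]
    exact Finset.sum_congr rfl fun g _ => by rw [smul_smul]
  simp_rw [h]
  rw [integral_finsetSum]
  · refine Finset.sum_eq_zero fun g _ => ?_
    have h1 : k - act g (kk m n) ≠ 0 := fun h0 => hk ⟨n, g, sub_eq_zero.mp h0⟩
    have h2 : k + act g (kk m n) ≠ 0 := by
      intro h0
      refine hk ⟨n, (g.1, fun i => - g.2 i), ?_⟩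
      rw [eq_neg_of_add_eq_zero_left h0]
      funext i
      simp [act]
    rw [integral_smul_const, integral_sin_sin, if_neg h1, if_neg h2]
    simp
  · intro g _
    exact integrable_cube (((Real.continuous_sin.comp (continuous_phase _)).mul
      (Real.continuous_sin.comp (continuous_phase _))).smul continuous_const)

end Pool.Agent.Work.MP_b0497c_an.Dec
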