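import Mathlib
import Pool.Agent.Work.MP_b0497c_an.Dec.Defs

set_option autoImplicit false

/-! Item A1: the only triads of the chain. -/

namespace Pool.Agent.Work.MP_b0497c_an.Dec

namespace TriadAux

/-- Composition of signed permutations. -/
def comp (g h : Sgn) : Sgn := (g.1.trans h.1, fun i => g.2 i * h.2 (g.1 i))

/-- Inverse of a signed permutation. -/
def inv (g : Sgn) : Sgn := (g.1.symm, fun i => g.2 (g.1.symm i))

/-- Negative of a signed permutation. -/
def neg (g : Sgn) : Sgn := (g.1, fun i => -g.2 i)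

lemma act_comp (g h : Sgn) (v : Fin 3 → ℤ) : act (comp g h) v = act g (act h v) := by
  ext i
  simp [act, comp, mul_assoc]

lemma act_neg (g : Sgn) (v : Fin 3 → ℤ) : act (neg g) v = -act g v := by
  ext i
  simp [act, neg]

lemma act_one (v : Fin 3 → ℤ) : act ((1 : Equiv.Perm (Fin 3)), fun _ => 1) v = v := by
  ext i
  simp [act]

lemma unit_sq (u : ℤˣ) : (u : ℤ) * (u : ℤ) = 1 := by
  rcases Int.units_eq_one_or u with h | h <;> simp [h]

lemma act_inv (g : Sgn) (v : Fin 3 → ℤ) : act (inv g) (act g v) = v := by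
  ext i
  have h := unit_sq (g.2 (g.1.symm i))
  simp only [act, inv, Equiv.apply_symm_apply]
  rw [← mul_assoc, h, one_mul]

lemma act_add (g : Sgn) (v w : Fin 3 → ℤ) : act g (v + w) = act g v + act g w := by
  ext i
  simp [act, mul_add]

lemma act_smul (g : Sgn) (c : ℤ) (v : Fin 3 → ℤ) : act g (fun i => c * v i) = fun i => c * act g v i := by
  ext i
  simp only [act]
  ring

/-- Invariants of the orbit: elementary symmetric functions of the squares. -/
def key (v : Fin 3 → ℤ) : ℤ × ℤ × ℤ :=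
  (v 0 ^ 2 + v 1 ^ 2 + v 2 ^ 2,
    v 0 ^ 2 * v 1 ^ 2 + v 0 ^ 2 * v 2 ^ 2 + v 1 ^ 2 * v 2 ^ 2, v 0 ^ 2 * v 1 ^ 2 * v 2 ^ 2)

lemma key_neg (v : Fin 3 → ℤ) : key (-v) = key v := by
  simp [key]

lemma act_sq (g : Sgn) (v : Fin 3 → ℤ) (i : Fin 3) : act g v i ^ 2 = v (g.1 i) ^ 2 := by
  have h := unit_sq (g.2 i)
  simp only [act]
  rw [mul_pow, pow_two (g.2 i : ℤ), h, one_mul]

lemma key_act (g : Sgn) (v : Fin 3 → ℤ) : key (act g v) = key v := by
  simp only [key, act_sq]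
  have h01 : g.1 0 ≠ g.1 1 := fun h => by simpa using g.1.injective h
  have h02 : g.1 0 ≠ g.1 2 := fun h => by simpa using g.1.injective h
  have h12 : g.1 1 ≠ g.1 2 := fun h => by simpa using g.1.injective h
  generalize g.1 0 = a at *
  generalize g.1 1 = b at *
  generalize g.1 2 = c at *
  fin_cases a <;> fin_cases b <;> fin_cases c <;>
    first
    | exact absurd rfl h01
    | exact absurd rfl h02
    | exact absurd rfl h12
    | (refine Prod.ext ?_ (Prod.ext ?_ ?_) <;> simp only [Fin.mk_one, Fin.zero_eta, Fin.reduceFinMk] <;> ring)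

lemma kap_mod (n : ℕ) : kap n = kap (n % 5) := by
  simp [kap]

lemma check0 : ∀ (h : Sgn) (i j k : Fin 5),
    key (fun t => kap i t + act h (kap j) t) = key (kap k) →
    ((j : ℕ) = i ∧ (k : ℕ) = i + 1) ∨ ((j : ℕ) = i + 1 ∧ (k : ℕ) = i) ∨
      ((i : ℕ) = j + 1 ∧ (k : ℕ) = j) := by
  decide +kernel

lemma check1 : ∀ (h : Sgn) (i j k : Fin 5),
    key (fun t => kap i t + act h (kap j) t) = key (fun t => 16 * kap k t) →
    (i : ℕ) = 4 ∧ (j : ℕ) = 4 ∧ (k : ℕ) = 0 := by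
  decide +kernel

/-- The conclusion of the triad theorem in symmetric form. -/
def Good (p q r : ℕ) : Prop := (q = p ∧ r = p + 1) ∨ (q = p + 1 ∧ r = p) ∨ (p = q + 1 ∧ r = q)

lemma kap_le (n : ℕ) (i : Fin 3) : 0 ≤ kap n i ∧ kap n i ≤ 24 := by
  rw [kap_mod]
  have h : n % 5 < 5 := Nat.mod_lt _ (by norm_num)
  generalize n % 5 = j at *
  interval_cases j <;> fin_cases i <;> simp [kap]

lemma abs_act_le (g : Sgn) (n : ℕ) (i : Fin 3) : |act g (kap n) i| ≤ 24 := by
  have h := kap_le n (g.1 i)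
  have h2 := act_sq g (kap n) i
  rw [sq_eq_sq_iff_abs_eq_abs, abs_of_nonneg h.1] at h2
  rw [h2]
  exact h.2

/-- Some coordinate is at least three and not divisible by sixteen. -/
lemma exists_big (n : ℕ) : ∃ i : Fin 3, 3 ≤ kap n i ∧ ¬ (16 : ℤ) ∣ kap n i := by
  rw [kap_mod]
  have h : n % 5 < 5 := Nat.mod_lt _ (by norm_num)
  generalize n % 5 = j at *
  interval_cases j <;> refine ⟨2, ?_⟩ <;> simp [kap]

lemma exists_big' (g : Sgn) (n : ℕ) :
    ∃ i : Fin 3, 3 ≤ |act g (kap n) i| ∧ ¬ (16 : ℤ) ∣ act g (kap n) i := by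
  obtain ⟨i, h1, h2⟩ := exists_big n
  refine ⟨g.1.symm i, ?_, ?_⟩
  · have h3 := act_sq g (kap n) (g.1.symm i)
    rw [Equiv.apply_symm_apply, sq_eq_sq_iff_abs_eq_abs, abs_of_nonneg (by linarith : 0 ≤ kap n i)]
      at h3
    rw [h3]
    exact h1
  · simp only [act, Equiv.apply_symm_apply]
    rcases Int.units_eq_one_or (g.2 (g.1.symm i)) with h | h
    · rw [h]; simpa using h2
    · rw [h]; simpa using h2

lemma act_kk (g : Sgn) (m n : ℕ) (i : Fin 3) :
    act g (kk m n) i = 16 ^ (m + n / 5) * act g (kap n) i := by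
  simp only [act, kk]
  ring

/-- Two lowest levels agree. -/
lemma level_eq {a b c : ℕ} (hab : a ≤ b) (hbc : b ≤ c) {u v w : ℤ} (hu : ¬ (16 : ℤ) ∣ u)
    (h : 16 ^ a * u + 16 ^ b * v + 16 ^ c * w = 0) : a = b := by
  by_contra hne
  obtain ⟨b', hb'⟩ : ∃ b', b = a + 1 + b' := ⟨b - a - 1, by omega⟩
  obtain ⟨c', hc'⟩ : ∃ c', c = a + 1 + c' := ⟨c - a - 1, by omega⟩
  rw [hb', hc'] at h
  apply hu
  have h1 : (16 : ℤ) ^ a * (u + 16 * (16 ^ b' * v + 16 ^ c' * w)) = 0 := by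
    rw [← h]; ring
  rcases mul_eq_zero.1 h1 with h2 | h2
  · exact absurd h2 (by positivity)
  · exact ⟨-(16 ^ b' * v + 16 ^ c' * w), by linarith⟩

/-- The highest level is at most one more. -/
lemma level_le {a c : ℕ} {u v w : ℤ} (hu : |u| ≤ 24) (hv : |v| ≤ 24)
    (hw : 3 ≤ |w|) (h : 16 ^ a * u + 16 ^ a * v + 16 ^ c * w = 0) : c ≤ a + 1 := by
  by_contra hne
  obtain ⟨c', hc'⟩ : ∃ c', c = a + 2 + c' := ⟨c - a - 2, by omega⟩
  rw [hc'] at h
  have h1 : (16 : ℤ) ^ a * (u + v + 256 * 16 ^ c' * w) = 0 := by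
    rw [← h]; ring
  rcases mul_eq_zero.1 h1 with h2 | h2
  · exact absurd h2 (by positivity)
  · have h3 : |256 * 16 ^ c' * w| = |u + v| := by
      rw [← abs_neg (u + v)]; congr 1; linarith
    have h4 : |u + v| ≤ 48 := (abs_add_le u v).trans (by linarith)
    have h5 : (1 : ℤ) ≤ 16 ^ c' := one_le_pow₀ (by norm_num)
    rw [abs_mul, abs_of_pos (by positivity : (0 : ℤ) < 256 * 16 ^ c')] at h3
    nlinarith

/-- The main step, for sorted indices. -/
lemma sorted (m n₁ n₂ n₃ : ℕ) (h12 : n₁ ≤ n₂) (h23 : n₂ ≤ n₃) (g₁ g₂ g₃ : Sgn)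
    (h : act g₁ (kk m n₁) + act g₂ (kk m n₂) + act g₃ (kk m n₃) = 0) : Good n₁ n₂ n₃ := by
  have hc : ∀ i, 16 ^ (m + n₁ / 5) * act g₁ (kap n₁) i + 16 ^ (m + n₂ / 5) * act g₂ (kap n₂) i
      + 16 ^ (m + n₃ / 5) * act g₃ (kap n₃) i = 0 := fun i => by
    have := congrFun h i
    simp only [Pi.add_apply, Pi.zero_apply, act_kk] at this
    exact this
  -- levels
  obtain ⟨i₁, _, hi₁⟩ := exists_big' g₁ n₁
  have h1 := level_eq (by omega) (by omega) hi₁ (hc i₁)
  have hc' := hc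
  rw [← h1] at hc'
  obtain ⟨i₃, hi₃, _⟩ := exists_big' g₃ n₃
  have h3 := level_le (abs_act_le g₁ n₁ i₃) (abs_act_le g₂ n₂ i₃) hi₃ (hc' i₃)
  -- apply the inverse of `g₁`
  have hinv : ∀ c : ℤ, (∀ i, act g₁ (kap n₁) i + act g₂ (kap n₂) i + c * act g₃ (kap n₃) i = 0) →
      ∃ h h' : Sgn, (fun t => kap n₁ t + act h (kap n₂) t) = act h' (fun t => c * kap n₃ t) := by
    intro c hc
    refine ⟨comp (inv g₁) g₂, neg (comp (inv g₁) g₃), ?_⟩
    have e1 : act g₁ (kap n₁) + act g₂ (kap n₂) = -act g₃ (fun t => c * kap n₃ t) := by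
      ext i
      have := hc i
      rw [act_smul]
      simp only [Pi.add_apply, Pi.neg_apply]
      linarith
    have e2 := congrArg (act (inv g₁)) e1
    rw [act_add, act_inv, ← act_comp] at e2
    have e3 : act (inv g₁) (-act g₃ (fun t => c * kap n₃ t)) =
        act (neg (comp (inv g₁) g₃)) (fun t => c * kap n₃ t) := by
      rw [act_neg, act_comp]
      ext i
      simp [act]
    rw [e3] at e2
    exact e2
  have hm1 : n₁ % 5 < 5 := Nat.mod_lt _ (by norm_num)
  have hm2 : n₂ % 5 < 5 := Nat.mod_lt _ (by norm_num)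
  have hm3 : n₃ % 5 < 5 := Nat.mod_lt _ (by norm_num)
  rcases (by omega : m + n₃ / 5 = m + n₁ / 5 ∨ m + n₃ / 5 = (m + n₁ / 5) + 1) with h4 | h4
  · obtain ⟨h, h', e⟩ := hinv 1 (fun i => by
      have := hc' i
      rw [h4, ← mul_add, ← mul_add] at this
      rcases mul_eq_zero.1 this with h2 | h2
      · exact absurd h2 (by positivity)
      · rw [one_mul]; exact h2)
    have e2 := congrArg key e
    rw [key_act, kap_mod n₁, kap_mod n₂, kap_mod n₃] at e2
    simp only [one_mul] at e2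
    have := check0 h ⟨n₁ % 5, hm1⟩ ⟨n₂ % 5, hm2⟩ ⟨n₃ % 5, hm3⟩ e2
    simp only at this
    unfold Good
    omega
  · obtain ⟨h, h', e⟩ := hinv 16 (fun i => by
      have := hc' i
      rw [h4, pow_succ, mul_assoc, ← mul_add, ← mul_add] at this
      rcases mul_eq_zero.1 this with h2 | h2
      · exact absurd h2 (by positivity)
      · exact h2)
    have e2 := congrArg key e
    rw [key_act, kap_mod n₁, kap_mod n₂, kap_mod n₃] at e2
    have := check1 h ⟨n₁ % 5, hm1⟩ ⟨n₂ % 5, hm2⟩ ⟨n₃ % 5, hm3⟩ e2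
    simp only at this
    unfold Good
    omega

/-- The symmetric form of the triad theorem. -/
lemma sym (m n₁ n₂ n₃ : ℕ) (g₁ g₂ g₃ : Sgn)
    (h : act g₁ (kk m n₁) + act g₂ (kk m n₂) + act g₃ (kk m n₃) = 0) : Good n₁ n₂ n₃ := by
  have key : ∀ (p q r : ℕ) (a b c : Sgn), p ≤ q → q ≤ r →
      act a (kk m p) + act b (kk m q) + act c (kk m r) = 0 → Good p q r :=
    fun p q r a b c h1 h2 h3 => sorted m p q r h1 h2 a b c h3
  have c1 : act g₁ (kk m n₁) + act g₃ (kk m n₃) + act g₂ (kk m n₂) = 0 := by rw [← h]; abel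
  have c2 : act g₂ (kk m n₂) + act g₁ (kk m n₁) + act g₃ (kk m n₃) = 0 := by rw [← h]; abel
  have c3 : act g₂ (kk m n₂) + act g₃ (kk m n₃) + act g₁ (kk m n₁) = 0 := by rw [← h]; abel
  have c4 : act g₃ (kk m n₃) + act g₁ (kk m n₁) + act g₂ (kk m n₂) = 0 := by rw [← h]; abel
  have c5 : act g₃ (kk m n₃) + act g₂ (kk m n₂) + act g₁ (kk m n₁) = 0 := by rw [← h]; abel
  rcases le_total n₁ n₂ with h12 | h12 <;> rcases le_total n₂ n₃ with h23 | h23 <;>
    rcases le_total n₁ n₃ with h13 | h13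
  · exact key _ _ _ _ _ _ h12 h23 h
  · exact key _ _ _ _ _ _ h12 h23 h
  · have := key _ _ _ _ _ _ h13 h23 c1; unfold Good at *; omega
  · have := key _ _ _ _ _ _ h13 h12 c4; unfold Good at *; omega
  · have := key _ _ _ _ _ _ h12 h13 c2; unfold Good at *; omega
  · have := key _ _ _ _ _ _ h23 h13 c3; unfold Good at *; omega
  · have := key _ _ _ _ _ _ h23 h12 c5; unfold Good at *; omega
  · have := key _ _ _ _ _ _ h23 h12 c5; unfold Good at *; omega

/-- The squared length of the base vectors. -/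
lemma norm_kap (n : ℕ) : (key (kap n)).1 = 11 ∨ (key (kap n)).1 = 40 ∨ (key (kap n)).1 = 152 ∨
    (key (kap n)).1 = 592 ∨ (key (kap n)).1 = 1216 := by
  rw [kap_mod]
  have h : n % 5 < 5 := Nat.mod_lt _ (by norm_num)
  generalize n % 5 = j at *
  interval_cases j <;> simp [kap, key]

lemma norm_inj : ∀ i j : Fin 5, (key (kap i)).1 = (key (kap j)).1 → i = j := by
  decide +kernel

lemma key_kk (m n : ℕ) : (key (kk m n)).1 = 256 ^ (m + n / 5) * (key (kap n)).1 := by
  have : (256 : ℤ) = 16 ^ 2 := by norm_num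
  simp only [key, kk, this, ← pow_mul]
  ring

lemma inj_le (m n n' : ℕ) (hn : n ≤ n') (h : (key (kk m n)).1 = (key (kk m n')).1) : n = n' := by
  rw [key_kk, key_kk] at h
  obtain ⟨d, hd⟩ : ∃ d, m + n' / 5 = m + n / 5 + d := ⟨n' / 5 - n / 5, by omega⟩
  rw [hd, pow_add _ (m + n / 5) d, mul_assoc] at h
  have h1 := mul_left_cancel₀ (pow_ne_zero _ (by norm_num : (256 : ℤ) ≠ 0)) h
  rcases Nat.eq_zero_or_pos d with rfl | hd0
  · rw [pow_zero, one_mul, kap_mod n, kap_mod n'] at h1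
    have := norm_inj ⟨n % 5, Nat.mod_lt _ (by norm_num)⟩ ⟨n' % 5, Nat.mod_lt _ (by norm_num)⟩ h1
    have := congrArg Fin.val this
    simp only at this
    omega
  · exfalso
    have h2 : (256 : ℤ) ≤ 256 ^ d := by
      calc (256 : ℤ) = 256 ^ 1 := by norm_num
        _ ≤ 256 ^ d := pow_le_pow_right₀ (by norm_num) hd0
    have h3 : 11 ≤ (key (kap n')).1 := by
      rcases norm_kap n' with h | h | h | h | h <;> omega
    have h4 : (key (kap n)).1 ≤ 1216 := by
      rcases norm_kap n with h | h | h | h | h <;> omega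
    nlinarith

end TriadAux

open TriadAux

/-- **Item A1**: the only triads of the chain. -/
theorem triad (m n n' l : ℕ) (g g' : Sgn)
    (h : kk m n + act g (kk m n') = act g' (kk m l)) :
    (n' = n ∧ l = n + 1) ∨ (n' = n + 1 ∧ l = n) ∨ (n = n' + 1 ∧ l = n') := by
  have h1 : act ((1 : Equiv.Perm (Fin 3)), fun _ => 1) (kk m n) + act g (kk m n') +
      act (neg g') (kk m l) = 0 := by
    rw [act_one, act_neg, h, add_neg_cancel]
  exact sym m n n' l _ _ _ h1

theorem kk_inj (m n n' : ℕ) (g g' : Sgn) (h : act g (kk m n) = act g' (kk m n')) : n = n' := by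
  have h1 := congrArg (fun v => (key v).1) h
  simp only [key_act] at h1
  rcases le_total n n' with h2 | h2
  · exact inj_le m n n' h2 h1
  · exact (inj_le m n' n h2 h1.symm).symm

end Pool.Agent.Work.MP_b0497c_an.Dec
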