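import Mathlib
import Pool.Agent.Work.MP_b0497c_an.Dec.Triad

set_option autoImplicit false

namespace Pool.Agent.Work.MP_b0497c_an.Dec

open Set MeasureTheory RealInnerProductSpace Pool.Agent.Work.MP_b0497c_an Filter Topology
open scoped ContDiff

/-! Interaction of two shells (item A2). -/

namespace Sums

theorem fa1 (j : ℕ) (hj : j < 5) : (∑ h : Sgn, ∑ g : Sgn,
    if kk 0 j + act h (kk 0 j) = act g (kk 0 (j + 1)) then
      dot (ev j) (act h (kk 0 j)) * dot (act h (ev j)) (act g (ev (j + 1))) else 0)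
      = - 2 * Q 0 j := by
  interval_cases j <;> decide +kernel

theorem fa2 (j : ℕ) (hj : j < 5) : (∑ h : Sgn, ∑ g : Sgn,
    if kk 0 j + act h (kk 0 (j + 1)) = act g (kk 0 j) then
      dot (ev j) (act h (kk 0 (j + 1))) * dot (act h (ev (j + 1))) (act g (ev j)) else 0)
      = 2 * Q 0 j := by
  interval_cases j <;> decide +kernel

theorem fa3 (j : ℕ) (hj : j < 5) : (∑ h : Sgn, ∑ g : Sgn,
    if kk 0 (j + 1) + act h (kk 0 j) = act g (kk 0 j) then
      dot (ev (j + 1)) (act h (kk 0 j)) * dot (act h (ev j)) (act g (ev j)) else 0)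
      = 0 := by
  interval_cases j <;> decide +kernel

theorem stab0 (j : ℕ) (hj : j < 5) :
    (∑ g : Sgn, if kk 0 j = act g (kk 0 j) then (1 : ℝ) else 0) = 2 := by
  have : (∑ g : Sgn, if kk 0 j = act g (kk 0 j) then (1 : ℤ) else 0) = 2 := by
    interval_cases j <;> decide +kernel
  have h2 := congrArg (fun z : ℤ => (z : ℝ)) this
  push_cast at h2
  exact h2

/-! ### The group -/

/-- Composition. -/
def cmp (g h : Sgn) : Sgn := (g.1.trans h.1, fun i => g.2 i * h.2 (g.1 i))

/-- Inverse. -/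
def inv (g : Sgn) : Sgn := (g.1.symm, fun i => g.2 (g.1.symm i))

theorem act_cmp (g h : Sgn) (v : Fin 3 → ℤ) : act (cmp g h) v = act g (act h v) := by
  funext i; simp [act, cmp, mul_assoc]

theorem act_inv (g : Sgn) (v : Fin 3 → ℤ) : act g (act (inv g) v) = v := by
  funext i
  simp only [act, inv, Equiv.symm_apply_apply, ← mul_assoc]
  rw [← Units.val_mul, Int.units_mul_self]; simp

theorem inv_act (g : Sgn) (v : Fin 3 → ℤ) : act (inv g) (act g v) = v := by
  funext i
  simp only [act, inv, Equiv.apply_symm_apply, ← mul_assoc]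
  rw [← Units.val_mul, Int.units_mul_self]; simp

theorem act_injective (g : Sgn) : Function.Injective (act g) := fun v w h => by
  rw [← inv_act g v, h, inv_act]

theorem cmp_inv_cancel (g h : Sgn) : cmp g (cmp (inv g) h) = h := by
  refine Prod.ext ?_ ?_
  · ext i; simp [cmp, inv]
  · funext i
    simp only [cmp, inv, Equiv.symm_apply_apply, ← mul_assoc, Int.units_mul_self, one_mul]

theorem inv_cmp_cancel (g h : Sgn) : cmp (inv g) (cmp g h) = h := by
  refine Prod.ext ?_ ?_
  · ext i; simp [cmp, inv]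
  · funext i
    simp only [cmp, inv, Equiv.apply_symm_apply, ← mul_assoc, Int.units_mul_self, one_mul]

theorem cmp_cmp_inv (g h : Sgn) : cmp (cmp h g) (inv g) = h := by
  refine Prod.ext ?_ ?_
  · ext i; simp [cmp, inv]
  · funext i
    simp only [cmp, inv, Equiv.symm_apply_apply, mul_assoc, Int.units_mul_self, mul_one,
      Equiv.trans_apply]

theorem cmp_inv_cmp (g h : Sgn) : cmp (cmp h (inv g)) g = h := by
  refine Prod.ext ?_ ?_
  · ext i; simp [cmp, inv]
  · funext i
    simp only [cmp, inv, mul_assoc, Int.units_mul_self, mul_one,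
      Equiv.trans_apply]

/-- Left multiplication. -/
def lmul (g : Sgn) : Sgn ≃ Sgn where
  toFun := cmp g
  invFun := cmp (inv g)
  left_inv := inv_cmp_cancel g
  right_inv := cmp_inv_cancel g

/-- Right multiplication. -/
def rmul (g : Sgn) : Sgn ≃ Sgn where
  toFun h := cmp h g
  invFun h := cmp h (inv g)
  left_inv := cmp_cmp_inv g
  right_inv := cmp_inv_cmp g

theorem sum_left {M : Type} [AddCommMonoid M] (g : Sgn) (f : Sgn → M) :
    ∑ h, f (cmp g h) = ∑ h, f h := (lmul g).sum_comp f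

theorem sum_right {M : Type} [AddCommMonoid M] (g : Sgn) (f : Sgn → M) :
    ∑ h, f (cmp h g) = ∑ h, f h := (rmul g).sum_comp f

theorem dot_act (g : Sgn) (v w : Fin 3 → ℤ) : dot (act g v) (act g w) = dot v w := by
  have h : ∀ v w : Fin 3 → ℤ, dot v w = ∑ i, v i * w i := fun v w => by
    simp [dot, Fin.sum_univ_three]
  rw [h, h, ← Equiv.sum_comp g.1 (fun i => v i * w i)]
  refine Finset.sum_congr rfl fun i _ => ?_
  simp only [act]
  calc ((g.2 i : ℤ) * v (g.1 i)) * ((g.2 i : ℤ) * w (g.1 i))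
      = ((g.2 i * g.2 i : ℤˣ) : ℤ) * (v (g.1 i) * w (g.1 i)) := by push_cast; ring
    _ = _ := by rw [Int.units_mul_self]; simp

theorem act_add (g : Sgn) (v w : Fin 3 → ℤ) : act g (v + w) = act g v + act g w := by
  funext i; simp [act, mul_add]

theorem act_zero (g : Sgn) : act g 0 = 0 := by
  funext i; simp [act]

theorem act_smul (g : Sgn) (c : ℤ) (w : Fin 3 → ℤ) : act g (c • w) = c • act g w := by
  funext i; simp [act]; ring

theorem vec_add (v w : Fin 3 → ℤ) : vec (v + w) = vec v + vec w := by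
  ext i; fin_cases i <;> simp [vec]

theorem vec_smul (c : ℤ) (w : Fin 3 → ℤ) : vec (c • w) = (c : ℝ) • vec w := by
  ext i; fin_cases i <;> simp [vec]

theorem act_mem_X (m : ℕ) (g : Sgn) (k : Fin 3 → ℤ) (hk : k ∈ X m) : act g k ∈ X m := by
  obtain ⟨n, h, rfl⟩ := hk
  exact ⟨n, cmp g h, (act_cmp _ _ _).symm⟩

theorem act_mem_X_iff (m : ℕ) (g : Sgn) (k : Fin 3 → ℤ) : act g k ∈ X m ↔ k ∈ X m := by
  refine ⟨fun h => ?_, act_mem_X m g k⟩
  have := act_mem_X m (inv g) _ h
  rwa [inv_act] at this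

/-! ### Scaling -/

theorem kap_add (q s : ℕ) : kap (5 * q + s) = kap s := by
  unfold kap; rw [Nat.mul_add_mod]

theorem ev_add (q s : ℕ) : ev (5 * q + s) = ev s := by
  unfold ev; rw [Nat.mul_add_mod]

theorem eps_add (q s : ℕ) : eps (5 * q + s) = eps s := by
  unfold eps; rw [Nat.mul_add_mod]

theorem qq_add (q s : ℕ) : qq (5 * q + s) = qq s := by
  unfold qq; rw [Nat.mul_add_mod]

theorem kk_add (m q s : ℕ) : kk m (5 * q + s) = (16 ^ (m + q) : ℤ) • kk 0 s := by
  funext i
  simp only [kk, Pi.smul_apply, smul_eq_mul, kap_add]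
  rw [Nat.mul_add_div (by norm_num), ← mul_assoc, ← pow_add]
  congr 2; ring

theorem Q_add (m q s : ℕ) : Q m (5 * q + s) = 16 ^ (m + q) * Q 0 s := by
  simp only [Q, qq_add]
  rw [Nat.mul_add_div (by norm_num), ← mul_assoc, ← pow_add]
  congr 2; ring

theorem five (n : ℕ) : ∃ q j, j < 5 ∧ n = 5 * q + j :=
  ⟨n / 5, n % 5, Nat.mod_lt _ (by norm_num), by omega⟩

/-! ### The averaged pairing -/

/-- Averaged pairing. -/
noncomputable def SH (S : (Fin 3 → ℤ) → EuclideanSpace ℝ (Fin 3)) (v r : Fin 3 → ℤ) : ℝ :=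
  ∑ g : Sgn, ⟪vec (act g v), S (act g r)⟫

variable {S : (Fin 3 → ℤ) → EuclideanSpace ℝ (Fin 3)}

theorem SH_add (v w r : Fin 3 → ℤ) : SH S (v + w) r = SH S v r + SH S w r := by
  simp only [SH, act_add, vec_add, inner_add_left, Finset.sum_add_distrib]

theorem SH_smul (c : ℤ) (w r : Fin 3 → ℤ) : SH S (c • w) r = c * SH S w r := by
  simp only [SH, act_smul, vec_smul, real_inner_smul_left, Finset.mul_sum]

theorem SH_act (g : Sgn) (v r : Fin 3 → ℤ) : SH S (act g v) (act g r) = SH S v r := by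
  simp only [SH, ← act_cmp]
  exact sum_right g (fun h => ⟪vec (act h v), S (act h r)⟫)

theorem SH_self (h1 : ∀ k, ⟪vec k, S k⟫ = 0) (r : Fin 3 → ℤ) : SH S r r = 0 := by
  simp [SH, h1]

theorem w_eq (m n : ℕ) : w m n S = SH S (ev n) (kk m n) := rfl

/-- Mirror normals. -/
def nu (n : ℕ) : Fin 3 → ℤ :=
  match n % 5 with
  | 0 => ![1, -1, 0]
  | 1 => ![1, 0, 0]
  | 2 => ![1, -1, 0]
  | 3 => ![0, 1, 0]
  | _ => ![0, 1, -1]

/-- Mirrors. -/
def mir (n : ℕ) : Sgn :=
  match n % 5 with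
  | 0 => (Equiv.swap 0 1, 1)
  | 1 => (1, ![-1, 1, 1])
  | 2 => (Equiv.swap 0 1, 1)
  | 3 => (1, ![1, -1, 1])
  | _ => (Equiv.swap 1 2, 1)

theorem nu_add (q s : ℕ) : nu (5 * q + s) = nu s := by
  unfold nu; rw [Nat.mul_add_mod]

theorem mir_add (q s : ℕ) : mir (5 * q + s) = mir s := by
  unfold mir; rw [Nat.mul_add_mod]

theorem mir_nu (n : ℕ) : act (mir n) (nu n) = (-1 : ℤ) • nu n := by
  obtain ⟨q, j, hj, rfl⟩ := five n
  rw [nu_add, mir_add]
  interval_cases j <;> decide +kernel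

theorem mir_kap (n : ℕ) : act (mir n) (kap n) = kap n := by
  obtain ⟨q, j, hj, rfl⟩ := five n
  rw [kap_add, mir_add]
  interval_cases j <;> decide +kernel

theorem kk_eq (m n : ℕ) : kk m n = (16 ^ (m + n / 5) : ℤ) • kap n := by
  funext i; simp [kk]

theorem mir_kk (m n : ℕ) : act (mir n) (kk m n) = kk m n := by
  rw [kk_eq, act_smul, mir_kap]

/-- Squared lengths of the base wave vectors. -/
def kn (n : ℕ) : ℤ := dot (kap n) (kap n)

/-- Squared lengths of the mirror normals. -/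
def nn (n : ℕ) : ℤ := dot (nu n) (nu n)

theorem frame (n : ℕ) (v : Fin 3 → ℤ) :
    (eps n * kn n * nn n) • v = (kn n * nn n * dot v (ev n)) • ev n
      + ((eps n * nn n * dot v (kap n)) • kap n + (eps n * kn n * dot v (nu n)) • nu n) := by
  obtain ⟨q, j, hj, rfl⟩ := five n
  simp only [kn, nn, eps_add, kap_add, nu_add, ev_add]
  funext i
  interval_cases j <;> fin_cases i <;> simp [eps, kap, nu, ev, dot] <;> ring

theorem pos_consts (n : ℕ) : 0 < eps n ∧ 0 < kn n ∧ 0 < nn n := by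
  obtain ⟨q, j, hj, rfl⟩ := five n
  simp only [kn, nn, eps_add, kap_add, nu_add]
  interval_cases j <;> decide

theorem SH_kk (h1 : ∀ k, ⟪vec k, S k⟫ = 0) (m n : ℕ) (v : Fin 3 → ℤ) :
    SH S v (kk m n) = (dot v (ev n) : ℝ) / eps n * w m n S := by
  obtain ⟨p1, p2, p3⟩ := pos_consts n
  have q1 : (0 : ℝ) < eps n := by exact_mod_cast p1
  have q2 : (0 : ℝ) < kn n := by exact_mod_cast p2
  have q3 : (0 : ℝ) < nn n := by exact_mod_cast p3
  have e1 : SH S (kap n) (kk m n) = 0 := by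
    have h := SH_self h1 (kk m n)
    nth_rewrite 1 [kk_eq] at h
    rw [SH_smul] at h
    push_cast at h
    exact (mul_eq_zero.mp h).resolve_left (by positivity)
  have e2 : SH S (nu n) (kk m n) = 0 := by
    have h := SH_act (S := S) (mir n) (nu n) (kk m n)
    rw [mir_nu, mir_kk, SH_smul] at h
    push_cast at h
    linarith
  have h := congrArg (fun z => SH S z (kk m n)) (frame n v)
  simp only [SH_add, SH_smul, e1, e2] at h
  push_cast at h
  rw [w_eq]
  have q4 : (kn n : ℝ) * nn n ≠ 0 := by positivity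
  have h5 : (kn n : ℝ) * nn n * (eps n * SH S v (kk m n))
      = (kn n : ℝ) * nn n * (dot v (ev n) * SH S (ev n) (kk m n)) := by linarith
  have h6 := mul_left_cancel₀ q4 h5
  field_simp
  linarith

theorem SH_act_kk (h1 : ∀ k, ⟪vec k, S k⟫ = 0) (m n : ℕ) (g : Sgn) (v : Fin 3 → ℤ) :
    SH S v (act g (kk m n)) = (dot v (act g (ev n)) : ℝ) / eps n * w m n S := by
  have h := SH_act (S := S) g (act (inv g) v) (kk m n)
  rw [act_inv, SH_kk h1] at h
  rw [h, ← dot_act g (act (inv g) v), act_inv]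

theorem SH_not_X (h0 : S 0 = 0) (m : ℕ) (h2 : ∀ k ∉ L m, S k = 0) (v p q : Fin 3 → ℤ)
    (hp : p ∈ X m) (hq : q ∈ X m) (h : p + q ∉ X m) : SH S v (p + q) = 0 := by
  refine Finset.sum_eq_zero fun g _ => ?_
  have : S (act g (p + q)) = 0 := by
    by_cases h3 : p + q = 0
    · rw [h3, act_zero, h0]
    · refine h2 _ ?_
      rintro (h4 | h4 | h4)
      · exact h3 (act_injective g (h4.trans (act_zero g).symm))
      · exact h ((act_mem_X_iff m g _).1 h4)
      · exact h4 ⟨act g p, act_mem_X m g p hp, act g q, act_mem_X m g q hq, act_add g p q⟩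
  rw [this, inner_zero_right]

theorem kk_mem_X (m n : ℕ) : kk m n ∈ X m := ⟨n, (1, 1), by funext i; simp [act]⟩

theorem stab (m n : ℕ) (g : Sgn) :
    (∑ g' : Sgn, if act g (kk m n) = act g' (kk m n) then (1 : ℝ) else 0) = 2 := by
  rw [← sum_left g]
  simp only [act_cmp, (act_injective g).eq_iff]
  obtain ⟨q, j, hj, rfl⟩ := five n
  rw [kk_add]
  simp only [act_smul]
  have : ∀ v w : Fin 3 → ℤ, (16 ^ (m + q) : ℤ) • v = (16 ^ (m + q) : ℤ) • w ↔ v = w := by
    intro v w
    exact smul_right_injective _ (by positivity : (16 ^ (m + q) : ℤ) ≠ 0) |>.eq_iff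
  simp only [this]
  exact stab0 j hj

theorem two_SH (h0 : S 0 = 0) (h1 : ∀ k, ⟪vec k, S k⟫ = 0) (m : ℕ) (h2 : ∀ k ∉ L m, S k = 0)
    (v p q : Fin 3 → ℤ) (hp : p ∈ X m) (hq : q ∈ X m) (l : ℕ)
    (hl : ∀ (l' : ℕ) (g : Sgn), p + q = act g (kk m l') → l' = l) :
    2 * SH S v (p + q) = ∑ g : Sgn, if p + q = act g (kk m l) then
      (dot v (act g (ev l)) : ℝ) / eps l * w m l S else 0 := by
  by_cases h : p + q ∈ X m
  · obtain ⟨l', g, hg⟩ := h
    obtain rfl := hl l' g hg
    rw [← stab m l' g, Finset.sum_mul, hg]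
    refine Finset.sum_congr rfl fun g' _ => ?_
    split_ifs with h3
    · rw [h3, SH_act_kk h1, one_mul]
    · rw [zero_mul]
  · rw [SH_not_X h0 m h2 v p q hp hq h, mul_zero]
    symm
    refine Finset.sum_eq_zero fun g _ => ?_
    rw [if_neg]
    intro h3
    exact h ⟨l, g, h3⟩

theorem Tt_SH (m n n' : ℕ) : Tt m n n' S = ∑ h : Sgn, (dot (ev n) (act h (kk m n')) : ℝ) *
    SH S (act h (ev n')) (kk m n + act h (kk m n')) := by
  unfold Tt
  have : ∀ g : Sgn, (∑ h : Sgn, (dot (act g (ev n)) (act h (kk m n')) : ℝ) *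
      ⟪vec (act h (ev n')), S (act g (kk m n) + act h (kk m n'))⟫)
      = ∑ h : Sgn, (dot (ev n) (act h (kk m n')) : ℝ) *
      ⟪vec (act g (act h (ev n'))), S (act g (kk m n + act h (kk m n')))⟫ := by
    intro g
    rw [← sum_left g]
    refine Finset.sum_congr rfl fun h _ => ?_
    simp only [act_cmp, dot_act, act_add]
  simp only [this]
  rw [Finset.sum_comm]
  refine Finset.sum_congr rfl fun h _ => ?_
  rw [← Finset.mul_sum]
  rfl

theorem Tt_two (h0 : S 0 = 0) (h1 : ∀ k, ⟪vec k, S k⟫ = 0) (m n n' l : ℕ)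
    (h2 : ∀ k ∉ L m, S k = 0)
    (hl : ∀ (l' : ℕ) (h g : Sgn), kk m n + act h (kk m n') = act g (kk m l') → l' = l) :
    2 * Tt m n n' S = ((∑ h : Sgn, ∑ g : Sgn, if kk m n + act h (kk m n') = act g (kk m l) then
      dot (ev n) (act h (kk m n')) * dot (act h (ev n')) (act g (ev l)) else 0 : ℤ) : ℝ)
        / eps l * w m l S := by
  rw [Tt_SH, Finset.mul_sum]
  push_cast
  rw [Finset.sum_div, Finset.sum_mul]
  refine Finset.sum_congr rfl fun h _ => ?_
  rw [Finset.sum_div, Finset.sum_mul]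
  have h3 := two_SH h0 h1 m h2 (act h (ev n')) (kk m n) (act h (kk m n')) (kk_mem_X m n)
    (act_mem_X m h _ (kk_mem_X m n')) l (fun l' g => hl l' h g)
  calc 2 * ((dot (ev n) (act h (kk m n')) : ℝ) * SH S (act h (ev n')) (kk m n + act h (kk m n')))
      = (dot (ev n) (act h (kk m n')) : ℝ) *
        (2 * SH S (act h (ev n')) (kk m n + act h (kk m n'))) := by ring
    _ = _ := by
      rw [h3, Finset.mul_sum]
      refine Finset.sum_congr rfl fun g _ => ?_
      split_ifs
      · ring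
      · simp

theorem dot_smul_right (c : ℤ) (v w : Fin 3 → ℤ) : dot v (c • w) = c * dot v w := by
  simp [dot]; ring

theorem scale_sum (m q s t l : ℕ) :
    (∑ h : Sgn, ∑ g : Sgn,
      if kk m (5 * q + s) + act h (kk m (5 * q + t)) = act g (kk m (5 * q + l)) then
      dot (ev (5 * q + s)) (act h (kk m (5 * q + t))) *
        dot (act h (ev (5 * q + t))) (act g (ev (5 * q + l))) else 0)
    = 16 ^ (m + q) * ∑ h : Sgn, ∑ g : Sgn,
      if kk 0 s + act h (kk 0 t) = act g (kk 0 l) then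
      dot (ev s) (act h (kk 0 t)) * dot (act h (ev t)) (act g (ev l)) else 0 := by
  rw [Finset.mul_sum]
  refine Finset.sum_congr rfl fun h _ => ?_
  rw [Finset.mul_sum]
  refine Finset.sum_congr rfl fun g _ => ?_
  have : ∀ v w : Fin 3 → ℤ, (16 ^ (m + q) : ℤ) • v = (16 ^ (m + q) : ℤ) • w ↔ v = w := by
    intro v w
    exact smul_right_injective _ (by positivity : (16 ^ (m + q) : ℤ) ≠ 0) |>.eq_iff
  simp only [kk_add, ev_add, act_smul, ← smul_add, this, dot_smul_right]
  split_ifs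
  · ring
  · simp

end Sums

open Sums in
theorem Tt_eq (m n n' : ℕ) (S : (Fin 3 → ℤ) → EuclideanSpace ℝ (Fin 3)) (h0 : S 0 = 0)
    (h1 : ∀ k, ⟪vec k, S k⟫ = 0) (h2 : ∀ k ∉ L m, S k = 0) :
    Tt m n n' S = if n' = n then -((Q m n : ℝ) / (eps (n + 1) : ℝ)) * w m (n + 1) S
      else if n' = n + 1 then ((Q m n : ℝ) / (eps n : ℝ)) * w m n S else 0 := by
  obtain ⟨q, j, hj, hn⟩ := five n
  by_cases c1 : n' = n
  · subst c1
    rw [if_pos rfl]
    have h3 := Tt_two h0 h1 m n' n' (n' + 1) h2 (fun l' h g hh => by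
      have := triad m n' n' l' h g hh
      omega)
    have h4 := scale_sum m q j j (j + 1)
    rw [fa1 j hj] at h4
    have h5 : 5 * q + (j + 1) = n' + 1 := by omega
    rw [h5, ← hn] at h4
    rw [h4] at h3
    have h6 := Q_add m q j
    rw [← hn] at h6
    rw [h6]
    push_cast at h3 ⊢
    linear_combination h3 / 2
  rw [if_neg c1]
  by_cases c2 : n' = n + 1
  · subst c2
    rw [if_pos rfl]
    have h3 := Tt_two h0 h1 m n (n + 1) n h2 (fun l' h g hh => by
      have := triad m n (n + 1) l' h g hh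
      omega)
    have h4 := scale_sum m q j (j + 1) j
    rw [fa2 j hj] at h4
    have h5 : 5 * q + (j + 1) = n + 1 := by omega
    rw [h5, ← hn] at h4
    rw [h4] at h3
    have h6 := Q_add m q j
    rw [← hn] at h6
    rw [h6]
    push_cast at h3 ⊢
    linear_combination h3 / 2
  rw [if_neg c2]
  by_cases c3 : n = n' + 1
  · have h3 := Tt_two h0 h1 m n n' n' h2 (fun l' h g hh => by
      have := triad m n n' l' h g hh
      omega)
    obtain ⟨q', j', hj', hn'⟩ := five n'
    have h4 := scale_sum m q' (j' + 1) j' j'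
    rw [fa3 j' hj'] at h4
    have h5 : 5 * q' + (j' + 1) = n := by omega
    rw [h5, ← hn'] at h4
    rw [h4] at h3
    simp at h3
    exact h3
  · have h3 := Tt_two h0 h1 m n n' 0 h2 (fun l' h g hh => by
      have := triad m n n' l' h g hh
      omega)
    have h4 : (∑ h : Sgn, ∑ g : Sgn, if kk m n + act h (kk m n') = act g (kk m 0) then
      dot (ev n) (act h (kk m n')) * dot (act h (ev n')) (act g (ev 0)) else 0) = 0 := by
      refine Finset.sum_eq_zero fun h _ => Finset.sum_eq_zero fun g _ => ?_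
      rw [if_neg]
      intro hh
      have := triad m n n' 0 h g hh
      omega
    rw [h4] at h3
    simp at h3
    exact h3

end Pool.Agent.Work.MP_b0497c_an.Dec
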