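import Mathlib
import Pool.Agent.Work.MP_b0497c_an.Dec.Defs

set_option autoImplicit false

/-! Coupling constants of the normalised dyadic model. -/

namespace Pool.Agent.Work.MP_b0497c_an.Dec

open Set MeasureTheory RealInnerProductSpace Pool.Agent.Work.MP_b0497c_an

/-- Coupling constants of the normalised dyadic model. -/
noncomputable def cc (m n : ℕ) : ℝ :=
  (Q m n : ℝ) / ((eps n : ℝ) * Real.sqrt (eps (n + 1) : ℝ))

theorem eps_add (q r : ℕ) : eps (5 * q + r) = eps r := by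
  simp [eps, Nat.mul_add_mod]

theorem qq_add (q r : ℕ) : qq (5 * q + r) = qq r := by
  simp [qq, Nat.mul_add_mod]

theorem eps_ge (n : ℕ) : 1 ≤ eps n := by
  unfold eps
  split <;> norm_num

theorem eps_pos (n : ℕ) : (0 : ℝ) < (eps n : ℝ) := by
  have := eps_ge n
  exact_mod_cast (by omega : 0 < eps n)

theorem one_le_sqrt_eps (n : ℕ) : 1 ≤ Real.sqrt (eps n : ℝ) := by
  rw [Real.one_le_sqrt]
  exact_mod_cast eps_ge n

theorem qq_pos (n : ℕ) : 0 < qq n := by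
  unfold qq
  split <;> norm_num

theorem qq_le (n : ℕ) : qq n ≤ 12160 := by
  unfold qq
  split <;> norm_num

theorem cc_pos (m n : ℕ) : 0 < cc m n := by
  have h1 := eps_pos n
  have h2 := one_le_sqrt_eps (n + 1)
  have h3 : (0 : ℝ) < (Q m n : ℝ) := by
    have : 0 < Q m n := by
      unfold Q
      have := qq_pos n
      positivity
    exact_mod_cast this
  unfold cc
  positivity

theorem cc_eq (m q r : ℕ) (hr : r < 5) : cc m (5 * q + r)
    = 16 ^ (m + q) * ((qq r : ℝ) / ((eps r : ℝ) * Real.sqrt (eps (r + 1) : ℝ))) := by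
  have h1 : (5 * q + r) / 5 = q := by omega
  unfold cc Q
  rw [h1, qq_add, eps_add, add_assoc, eps_add]
  push_cast
  rw [mul_div_assoc]

theorem sqrt_bds (a l u : ℝ) (h0 : 0 ≤ l) (h1 : l ^ 2 ≤ a) (hu : 0 ≤ u) (h2 : a ≤ u ^ 2) :
    l ≤ Real.sqrt a ∧ Real.sqrt a ≤ u :=
  ⟨Real.le_sqrt_of_sq_le h1, by
    rw [Real.sqrt_le_left hu]; exact h2⟩

theorem base_bds (a b s l u : ℝ) (hb : 0 < b) (hs : 0 < s) (h1 : l * (b * s) ≤ a)
    (h2 : a ≤ u * (b * s)) : l ≤ a / (b * s) ∧ a / (b * s) ≤ u := by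
  have : 0 < b * s := by positivity
  exact ⟨(le_div_iff₀ this).mpr h1, (div_le_iff₀ this).mpr h2⟩

theorem bd0 : (3.78 : ℝ) ≤ (qq 0 : ℝ) / ((eps 0 : ℝ) * Real.sqrt (eps (0 + 1) : ℝ)) ∧
    (qq 0 : ℝ) / ((eps 0 : ℝ) * Real.sqrt (eps (0 + 1) : ℝ)) ≤ 3.8 := by
  obtain ⟨h1, h2⟩ := sqrt_bds 10 3.16 3.17 (by norm_num) (by norm_num) (by norm_num) (by norm_num)
  simp only [qq, eps]
  norm_num at h1 h2 ⊢
  apply base_bds <;> nlinarith

theorem bd1 : (5.5 : ℝ) ≤ (qq 1 : ℝ) / ((eps 1 : ℝ) * Real.sqrt (eps (1 + 1) : ℝ)) ∧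
    (qq 1 : ℝ) / ((eps 1 : ℝ) * Real.sqrt (eps (1 + 1) : ℝ)) ≤ 5.52 := by
  obtain ⟨h1, h2⟩ := sqrt_bds 19 4.35 4.36 (by norm_num) (by norm_num) (by norm_num) (by norm_num)
  simp only [qq, eps]
  norm_num at h1 h2 ⊢
  apply base_bds <;> nlinarith

theorem bd2 : (7.88 : ℝ) ≤ (qq 2 : ℝ) / ((eps 2 : ℝ) * Real.sqrt (eps (2 + 1) : ℝ)) ∧
    (qq 2 : ℝ) / ((eps 2 : ℝ) * Real.sqrt (eps (2 + 1) : ℝ)) ≤ 7.9 := by
  obtain ⟨h1, h2⟩ := sqrt_bds 37 6.08 6.09 (by norm_num) (by norm_num) (by norm_num) (by norm_num)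
  simp only [qq, eps]
  norm_num at h1 h2 ⊢
  apply base_bds <;> nlinarith

theorem bd3 : (15.5 : ℝ) ≤ (qq 3 : ℝ) / ((eps 3 : ℝ) * Real.sqrt (eps (3 + 1) : ℝ)) ∧
    (qq 3 : ℝ) / ((eps 3 : ℝ) * Real.sqrt (eps (3 + 1) : ℝ)) ≤ 15.6 := by
  obtain ⟨h1, h2⟩ := sqrt_bds 38 6.16 6.17 (by norm_num) (by norm_num) (by norm_num) (by norm_num)
  simp only [qq, eps]
  norm_num at h1 h2 ⊢
  apply base_bds <;> nlinarith

theorem bd4 : (68 : ℝ) ≤ (qq 4 : ℝ) / ((eps 4 : ℝ) * Real.sqrt (eps (4 + 1) : ℝ)) ∧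
    (qq 4 : ℝ) / ((eps 4 : ℝ) * Real.sqrt (eps (4 + 1) : ℝ)) ≤ 68.3 := by
  obtain ⟨h1, h2⟩ := sqrt_bds 22 4.69 4.70 (by norm_num) (by norm_num) (by norm_num) (by norm_num)
  simp only [qq, eps]
  norm_num at h1 h2 ⊢
  apply base_bds <;> nlinarith

theorem cc_h1 (m n : ℕ) : cc m (n + 1) ≤ 5 * cc m n := by
  obtain ⟨q, r, hr, rfl⟩ : ∃ q r, r < 5 ∧ n = 5 * q + r := ⟨n / 5, n % 5, by omega, by omega⟩
  have hp : (0 : ℝ) < 16 ^ (m + q) := by positivity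
  have b0 := bd0
  have b1 := bd1
  have b2 := bd2
  have b3 := bd3
  have b4 := bd4
  interval_cases r
  · rw [cc_eq m q 0 (by norm_num), show 5 * q + 0 + 1 = 5 * q + 1 by ring,
      cc_eq m q 1 (by norm_num)]
    nlinarith [b0.1, b1.2]
  · rw [cc_eq m q 1 (by norm_num), show 5 * q + 1 + 1 = 5 * q + 2 by ring,
      cc_eq m q 2 (by norm_num)]
    nlinarith [b1.1, b2.2]
  · rw [cc_eq m q 2 (by norm_num), show 5 * q + 2 + 1 = 5 * q + 3 by ring,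
      cc_eq m q 3 (by norm_num)]
    nlinarith [b2.1, b3.2]
  · rw [cc_eq m q 3 (by norm_num), show 5 * q + 3 + 1 = 5 * q + 4 by ring,
      cc_eq m q 4 (by norm_num)]
    nlinarith [b3.1, b4.2]
  · rw [cc_eq m q 4 (by norm_num), show 5 * q + 4 + 1 = 5 * (q + 1) + 0 by ring,
      cc_eq m (q + 1) 0 (by norm_num), show m + (q + 1) = m + q + 1 by ring, pow_succ]
    nlinarith [b4.1, b0.2]

theorem cc_h2 (m n : ℕ) : cc m n ≤ (3 / 2) * cc m (n + 1) := by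
  obtain ⟨q, r, hr, rfl⟩ : ∃ q r, r < 5 ∧ n = 5 * q + r := ⟨n / 5, n % 5, by omega, by omega⟩
  have hp : (0 : ℝ) < 16 ^ (m + q) := by positivity
  have b0 := bd0
  have b1 := bd1
  have b2 := bd2
  have b3 := bd3
  have b4 := bd4
  interval_cases r
  · rw [cc_eq m q 0 (by norm_num), show 5 * q + 0 + 1 = 5 * q + 1 by ring,
      cc_eq m q 1 (by norm_num)]
    nlinarith [b1.1, b0.2]
  · rw [cc_eq m q 1 (by norm_num), show 5 * q + 1 + 1 = 5 * q + 2 by ring,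
      cc_eq m q 2 (by norm_num)]
    nlinarith [b2.1, b1.2]
  · rw [cc_eq m q 2 (by norm_num), show 5 * q + 2 + 1 = 5 * q + 3 by ring,
      cc_eq m q 3 (by norm_num)]
    nlinarith [b3.1, b2.2]
  · rw [cc_eq m q 3 (by norm_num), show 5 * q + 3 + 1 = 5 * q + 4 by ring,
      cc_eq m q 4 (by norm_num)]
    nlinarith [b4.1, b3.2]
  · rw [cc_eq m q 4 (by norm_num), show 5 * q + 4 + 1 = 5 * (q + 1) + 0 by ring,
      cc_eq m (q + 1) 0 (by norm_num), show m + (q + 1) = m + q + 1 by ring, pow_succ]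
    nlinarith [b0.1, b4.2]

theorem cc_ge (m n : ℕ) : (5 / 3 : ℝ) ^ n ≤ cc m n := by
  obtain ⟨q, r, hr, rfl⟩ : ∃ q r, r < 5 ∧ n = 5 * q + r := ⟨n / 5, n % 5, by omega, by omega⟩
  have hp : (5 / 3 : ℝ) ^ (5 * q) ≤ 16 ^ (m + q) := by
    rw [pow_mul]
    calc ((5 / 3 : ℝ) ^ 5) ^ q ≤ 16 ^ q := by
          apply pow_le_pow_left₀ <;> norm_num
      _ ≤ 16 ^ (m + q) := by
          apply pow_le_pow_right₀ (by norm_num) (by omega)
  have hq : (0 : ℝ) < (5 / 3 : ℝ) ^ (5 * q) := by positivity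
  have b0 := bd0.1
  have b1 := bd1.1
  have b2 := bd2.1
  have b3 := bd3.1
  have b4 := bd4.1
  rw [cc_eq m q r hr, pow_add]
  have key : (5 / 3 : ℝ) ^ r ≤ (qq r : ℝ) / ((eps r : ℝ) * Real.sqrt (eps (r + 1) : ℝ)) := by
    interval_cases r
    · norm_num at b0 ⊢; linarith
    · norm_num at b1 ⊢; linarith
    · norm_num at b2 ⊢; linarith
    · norm_num at b3 ⊢; linarith
    · norm_num at b4 ⊢; linarith
  have h0 : (0 : ℝ) ≤ (5 / 3 : ℝ) ^ r := by positivity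
  exact mul_le_mul hp key h0 (by positivity)

theorem cc_h3 (m : ℕ) : Summable fun n => (3 / 2 : ℝ) ^ n / cc m n := by
  have hs : Summable fun n : ℕ => (9 / 10 : ℝ) ^ n :=
    summable_geometric_of_lt_one (by norm_num) (by norm_num)
  refine Summable.of_nonneg_of_le (fun n => ?_) (fun n => ?_) hs
  · have := cc_pos m n
    positivity
  · rw [div_le_iff₀ (cc_pos m n)]
    calc (3 / 2 : ℝ) ^ n = (9 / 10) ^ n * (5 / 3) ^ n := by
          rw [← mul_pow]; norm_num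
      _ ≤ (9 / 10) ^ n * cc m n := by
          apply mul_le_mul_of_nonneg_left (cc_ge m n) (by positivity)

/-- `c_n |b_n|` is bounded by the curl of the corresponding mode. -/
theorem cc_mul_le (m n : ℕ) (b : ℝ) : cc m n * |b|
    ≤ 12160 * (16 ^ (m + n / 5) * |b / Real.sqrt (eps n : ℝ)|) := by
  have h1 := one_le_sqrt_eps n
  have h2 := one_le_sqrt_eps (n + 1)
  have h0 := eps_pos n
  have hs : (0 : ℝ) < Real.sqrt (eps n : ℝ) := by linarith
  have hs' : (0 : ℝ) < Real.sqrt (eps (n + 1) : ℝ) := by linarith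
  rw [abs_div, abs_of_pos hs]
  unfold cc Q
  push_cast
  have hq : (qq n : ℝ) ≤ 12160 := by exact_mod_cast qq_le n
  have hq0 : (0 : ℝ) < (qq n : ℝ) := by exact_mod_cast qq_pos n
  have hsq : (eps n : ℝ) = Real.sqrt (eps n : ℝ) * Real.sqrt (eps n : ℝ) :=
    (Real.mul_self_sqrt h0.le).symm
  have hp : (0 : ℝ) < 16 ^ (m + n / 5) := by positivity
  have hb := abs_nonneg b
  have e1 : (16 : ℝ) ^ (m + n / 5) * (qq n : ℝ) / ((eps n : ℝ) * Real.sqrt (eps (n + 1) : ℝ)) * |b|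
      = ((qq n : ℝ) / (Real.sqrt (eps n : ℝ) * Real.sqrt (eps (n + 1) : ℝ)))
        * (16 ^ (m + n / 5) * (|b| / Real.sqrt (eps n : ℝ))) := by
    rw [hsq]
    have := Real.sqrt_mul_self hs.le
    rw [this]
    field_simp
  rw [e1]
  apply mul_le_mul_of_nonneg_right _ (by positivity)
  rw [div_le_iff₀ (by positivity)]
  nlinarith

end Pool.Agent.Work.MP_b0497c_an.Dec
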