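import Mathlib
import Pool.Agent.Work.MP_b0497c_an.Dec.Defs

set_option autoImplicit false

/-!
Pairings of the fields `V m n`, and of their convective interactions, with a continuous field.
-/

namespace Pool.Agent.Work.MP_b0497c_an.Dec

open Set MeasureTheory RealInnerProductSpace Pool.Agent.Work.MP_b0497c_an Filter Topology
open scoped ContDiff

private theorem cube_cpt : IsCompact cube := by
  have h : cube = (EuclideanSpace.equiv (Fin 3) ℝ) ⁻¹' (Set.pi univ fun _ => Icc 0 (2 * Real.pi)) := by
    ext x
    simp [cube, Pi.le_def, forall_and]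
  rw [h]
  exact ((EuclideanSpace.equiv (Fin 3) ℝ).toHomeomorph.isCompact_preimage).2
    (isCompact_univ_pi fun _ => isCompact_Icc)

private theorem phase_eq_inner (k : Fin 3 → ℤ) (x : EuclideanSpace ℝ (Fin 3)) :
    phase k x = ⟪vec k, x⟫ := by
  simp [phase, vec, PiLp.inner_apply, Fin.sum_univ_three]
  ring

private theorem phase_add (k l : Fin 3 → ℤ) (x : EuclideanSpace ℝ (Fin 3)) :
    phase (k + l) x = phase k x + phase l x := by
  simp [phase]
  ring

private theorem phase_neg (k : Fin 3 → ℤ) (x : EuclideanSpace ℝ (Fin 3)) :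
    phase (-k) x = - phase k x := by
  simp [phase]
  ring

private theorem continuous_phase (k : Fin 3 → ℤ) : Continuous (phase k) := by
  have : phase k = fun x => ⟪vec k, x⟫ := funext (phase_eq_inner k)
  rw [this]
  fun_prop

private theorem inner_vec (k l : Fin 3 → ℤ) : ⟪vec k, vec l⟫ = (dot l k : ℝ) := by
  simp [dot, vec, PiLp.inner_apply, Fin.sum_univ_three]

private theorem vec_neg (k : Fin 3 → ℤ) : vec (-k) = - vec k := by
  ext i
  fin_cases i <;> simp [vec]

private theorem dot_neg (k l : Fin 3 → ℤ) : dot k (-l) = - dot k l := by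
  simp [dot]
  ring

/-- Negation of the signs. -/
private def neg' : Sgn ≃ Sgn where
  toFun g := (g.1, -g.2)
  invFun g := (g.1, -g.2)
  left_inv g := by simp
  right_inv g := by simp

private theorem act_neg' (g : Sgn) (v : Fin 3 → ℤ) : act (neg' g) v = - act g v := by
  ext i
  simp [act, neg']

private theorem integrableOn_cube {F : EuclideanSpace ℝ (Fin 3) → ℝ} (hF : Continuous F) :
    IntegrableOn F cube :=
  hF.continuousOn.integrableOn_compact cube_cpt

private theorem integral_inner' (c : EuclideanSpace ℝ (Fin 3)) (s : EuclideanSpace ℝ (Fin 3) → ℝ)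
    (φ : EuclideanSpace ℝ (Fin 3) → EuclideanSpace ℝ (Fin 3)) (hs : Continuous s)
    (hφ : Continuous φ) :
    ∫ x in cube, s x * ⟪c, φ x⟫ = ⟪c, ∫ x in cube, s x • φ x⟫ := by
  have h : IntegrableOn (fun x => s x • φ x) cube :=
    (hs.smul hφ).continuousOn.integrableOn_compact cube_cpt
  rw [← integral_inner h]
  refine integral_congr_ae (Eventually.of_forall fun x => ?_)
  simp [inner_smul_right]

theorem V_pair (m n : ℕ) (φ : EuclideanSpace ℝ (Fin 3) → EuclideanSpace ℝ (Fin 3))
    (hφ : Continuous φ) : ∫ x in cube, ⟪V m n x, φ x⟫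
      = w m n (fun k => ∫ x in cube, Real.sin (phase k x) • φ x) := by
  have hc : ∀ g : Sgn, Continuous fun x => Real.sin (phase (act g (kk m n)) x) :=
    fun g => Real.continuous_sin.comp (continuous_phase _)
  have h1 : ∀ x, ⟪V m n x, φ x⟫ = ∑ g : Sgn, Real.sin (phase (act g (kk m n)) x) *
      ⟪vec (act g (ev n)), φ x⟫ := by
    intro x
    simp only [V, sum_inner, real_inner_smul_left]
  simp only [h1]
  rw [integral_finsetSum]
  · unfold w
    refine Finset.sum_congr rfl fun g _ => ?_
    exact integral_inner' _ _ φ (hc g) hφ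
  · intro g _
    exact integrableOn_cube ((hc g).mul (continuous_const.inner hφ))

private theorem fderiv_V (m n : ℕ) (x y : EuclideanSpace ℝ (Fin 3)) :
    fderiv ℝ (V m n) x y = ∑ h : Sgn, (Real.cos (phase (act h (kk m n)) x) *
      ⟪vec (act h (kk m n)), y⟫) • vec (act h (ev n)) := by
  have h1 : ∀ h : Sgn, HasFDerivAt (fun x => Real.sin (phase (act h (kk m n)) x) •
      vec (act h (ev n)))
      ((Real.cos (phase (act h (kk m n)) x) • innerSL ℝ (vec (act h (kk m n)))).smulRight
        (vec (act h (ev n)))) x := by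
    intro h
    have h2 : HasFDerivAt (phase (act h (kk m n))) (innerSL ℝ (vec (act h (kk m n)))) x := by
      have : phase (act h (kk m n)) = innerSL ℝ (vec (act h (kk m n))) := by
        ext x
        rw [phase_eq_inner]
        rfl
      rw [this]
      exact (innerSL ℝ (vec (act h (kk m n)))).hasFDerivAt
    exact (h2.sin).smul_const _
  have h3 : HasFDerivAt (V m n) (∑ h : Sgn,
      ((Real.cos (phase (act h (kk m n)) x) • innerSL ℝ (vec (act h (kk m n)))).smulRight
        (vec (act h (ev n))))) x := by
    have := HasFDerivAt.fun_sum (u := Finset.univ) fun h (_ : h ∈ (Finset.univ : Finset Sgn)) => h1 h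
    exact this
  rw [h3.fderiv]
  simp

theorem V_conv (m n n' : ℕ) (φ : EuclideanSpace ℝ (Fin 3) → EuclideanSpace ℝ (Fin 3))
    (hφ : Continuous φ) : ∫ x in cube, ⟪fderiv ℝ (V m n') x (V m n x), φ x⟫
      = Tt m n n' (fun k => ∫ x in cube, Real.sin (phase k x) • φ x) := by
  have hs : ∀ k, Continuous fun x => Real.sin (phase k x) :=
    fun k => Real.continuous_sin.comp (continuous_phase _)
  have hcs : ∀ k, Continuous fun x => Real.cos (phase k x) :=
    fun k => Real.continuous_cos.comp (continuous_phase _)
  set S : (Fin 3 → ℤ) → EuclideanSpace ℝ (Fin 3) :=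
    fun k => ∫ x in cube, Real.sin (phase k x) • φ x with hS
  have h1 : ∀ x, ⟪fderiv ℝ (V m n') x (V m n x), φ x⟫ = ∑ g : Sgn, ∑ h : Sgn,
      (dot (act g (ev n)) (act h (kk m n')) : ℝ) *
      ((Real.sin (phase (act g (kk m n)) x) * Real.cos (phase (act h (kk m n')) x)) *
      ⟪vec (act h (ev n')), φ x⟫) := by
    intro x
    rw [fderiv_V, sum_inner, Finset.sum_comm]
    refine Finset.sum_congr rfl fun h _ => ?_
    rw [real_inner_smul_left]
    conv_lhs => rw [V, inner_sum]
    rw [Finset.mul_sum, Finset.sum_mul]
    refine Finset.sum_congr rfl fun g _ => ?_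
    rw [real_inner_smul_right, inner_vec]
    ring
  simp only [h1]
  have h2 : ∀ g h : Sgn, ∫ x in cube, (dot (act g (ev n)) (act h (kk m n')) : ℝ) *
      ((Real.sin (phase (act g (kk m n)) x) * Real.cos (phase (act h (kk m n')) x)) *
      ⟪vec (act h (ev n')), φ x⟫) = (dot (act g (ev n)) (act h (kk m n')) : ℝ) *
      ((⟪vec (act h (ev n')), S (act g (kk m n) + act h (kk m n'))⟫ +
      ⟪vec (act h (ev n')), S (act g (kk m n) + - act h (kk m n'))⟫) / 2) := by
    intro g h
    rw [integral_const_mul]
    congr 1
    have h3 : ∀ x, (Real.sin (phase (act g (kk m n)) x) * Real.cos (phase (act h (kk m n')) x)) *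
        ⟪vec (act h (ev n')), φ x⟫ =
        (Real.sin (phase (act g (kk m n) + act h (kk m n')) x) * ⟪vec (act h (ev n')), φ x⟫ +
        Real.sin (phase (act g (kk m n) + - act h (kk m n')) x) *
          ⟪vec (act h (ev n')), φ x⟫) / 2 := by
      intro x
      rw [phase_add, phase_add, phase_neg, Real.sin_add, Real.sin_add, Real.cos_neg, Real.sin_neg]
      ring
    simp only [h3]
    rw [integral_div, integral_add]
    · rw [integral_inner' _ _ φ (hs _) hφ, integral_inner' _ _ φ (hs _) hφ]
    · exact integrableOn_cube ((hs _).mul (continuous_const.inner hφ))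
    · exact integrableOn_cube ((hs _).mul (continuous_const.inner hφ))
  have hint : ∀ g h : Sgn, IntegrableOn (fun x => (dot (act g (ev n)) (act h (kk m n')) : ℝ) *
      ((Real.sin (phase (act g (kk m n)) x) * Real.cos (phase (act h (kk m n')) x)) *
      ⟪vec (act h (ev n')), φ x⟫)) cube := by
    intro g h
    exact integrableOn_cube (continuous_const.mul
      (((hs _).mul (hcs _)).mul (continuous_const.inner hφ)))
  rw [integral_finsetSum]
  · unfold Tt
    refine Finset.sum_congr rfl fun g _ => ?_
    rw [integral_finsetSum]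
    · simp only [h2]
      have h4 : ∑ h : Sgn, (dot (act g (ev n)) (act h (kk m n')) : ℝ) *
          ⟪vec (act h (ev n')), S (act g (kk m n) + - act h (kk m n'))⟫ =
          ∑ h : Sgn, (dot (act g (ev n)) (act h (kk m n')) : ℝ) *
          ⟪vec (act h (ev n')), S (act g (kk m n) + act h (kk m n'))⟫ := by
        rw [← Equiv.sum_comp neg']
        refine Finset.sum_congr rfl fun h _ => ?_
        rw [act_neg', act_neg', neg_neg, vec_neg, dot_neg, inner_neg_left]
        push_cast
        ring
      calc ∑ h : Sgn, (dot (act g (ev n)) (act h (kk m n')) : ℝ) *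
            ((⟪vec (act h (ev n')), S (act g (kk m n) + act h (kk m n'))⟫ +
            ⟪vec (act h (ev n')), S (act g (kk m n) + - act h (kk m n'))⟫) / 2)
          = (∑ h : Sgn, (dot (act g (ev n)) (act h (kk m n')) : ℝ) *
            ⟪vec (act h (ev n')), S (act g (kk m n) + act h (kk m n'))⟫ +
            ∑ h : Sgn, (dot (act g (ev n)) (act h (kk m n')) : ℝ) *
            ⟪vec (act h (ev n')), S (act g (kk m n) + - act h (kk m n'))⟫) / 2 := by
            rw [← Finset.sum_add_distrib, Finset.sum_div]
            refine Finset.sum_congr rfl fun h _ => ?_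
            ring
        _ = _ := by
            rw [h4]
            ring
    · intro h _
      exact hint g h
  · intro g _
    exact integrable_finsetSum _ fun h _ => hint g h

end Pool.Agent.Work.MP_b0497c_an.Dec
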