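import Mathlib
import Pool.Agent.Work.MP_b0497c_an.Dec.Defs

set_option autoImplicit false

/-! B3: Riccati blow-up for the dyadic model. -/

namespace Pool.Agent.Work.MP_b0497c_an.Dec

open Set MeasureTheory RealInnerProductSpace Pool.Agent.Work.MP_b0497c_an Filter Topology
open scoped ContDiff

/-- Lower bound for the derivative of the truncated weighted sum. -/
theorem riccati_alg (c b : ℕ → ℝ) (h0 : ∀ n, 0 < c n) (h2 : ∀ n, c n ≤ (3 / 2) * c (n + 1))
    (M : ℕ) :
    (1 / 2) * ∑ n ∈ Finset.range (M + 1), (3 / 2 : ℝ) ^ n * c n * b n ^ 2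
      - (3 / 2) * ((3 / 2 : ℝ) ^ M * c M * b M ^ 2)
      - (1 / 2) * ((3 / 2 : ℝ) ^ (M + 1) * c (M + 1) * b (M + 1) ^ 2) ≤
    ∑ n ∈ Finset.range (M + 1), (3 / 2 : ℝ) ^ n *
      ((if n = 0 then 0 else c (n - 1) * b (n - 1) ^ 2) - c n * b n * b (n + 1)) := by
  have key : ∀ n, (3 / 2 : ℝ) ^ n * (c n * b n * b (n + 1)) ≤
      (1 / 2) * ((3 / 2 : ℝ) ^ n * c n * b n ^ 2) +
      (1 / 2) * ((3 / 2 : ℝ) ^ (n + 1) * c (n + 1) * b (n + 1) ^ 2) := by
    intro n
    have hp : (0 : ℝ) < (3 / 2) ^ n := by positivity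
    have e1 : c n * b n * b (n + 1) ≤ (1 / 2) * (c n * b n ^ 2) + (1 / 2) * (c n * b (n + 1) ^ 2) := by
      nlinarith [mul_nonneg (h0 n).le (sq_nonneg (b n - b (n + 1)))]
    have e2 : c n * b (n + 1) ^ 2 ≤ (3 / 2) * c (n + 1) * b (n + 1) ^ 2 :=
      mul_le_mul_of_nonneg_right (h2 n) (sq_nonneg _)
    have e3 := mul_le_mul_of_nonneg_left (e1.trans (add_le_add_right
      (mul_le_mul_of_nonneg_left e2 (by norm_num : (0 : ℝ) ≤ 1 / 2)) _)) hp.le
    refine e3.trans (le_of_eq ?_)
    rw [pow_succ]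
    ring
  induction M with
  | zero =>
    have k0 := key 0
    have s0 : 0 ≤ c 0 * b 0 ^ 2 := mul_nonneg (h0 0).le (sq_nonneg _)
    simp only [zero_add, Finset.range_one, Finset.sum_singleton, pow_zero, one_mul, if_true,
      pow_one, zero_sub] at k0 ⊢
    linarith
  | succ M ih =>
    have kM := key (M + 1)
    rw [Finset.sum_range_succ (fun n => (3 / 2 : ℝ) ^ n * c n * b n ^ 2) (M + 1),
      Finset.sum_range_succ (fun n => (3 / 2 : ℝ) ^ n *
      ((if n = 0 then 0 else c (n - 1) * b (n - 1) ^ 2) - c n * b n * b (n + 1))) (M + 1)]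
    rw [if_neg (Nat.succ_ne_zero M), Nat.add_sub_cancel]
    have e : (3 / 2 : ℝ) ^ (M + 1) * (c M * b M ^ 2 - c (M + 1) * b (M + 1) * b (M + 1 + 1)) =
        (3 / 2) * ((3 / 2 : ℝ) ^ M * c M * b M ^ 2) -
        (3 / 2 : ℝ) ^ (M + 1) * (c (M + 1) * b (M + 1) * b (M + 1 + 1)) := by
      rw [pow_succ]; ring
    rw [e]
    linarith

theorem life_le (c : ℕ → ℝ) (h0 : ∀ n, 0 < c n) (h2 : ∀ n, c n ≤ (3 / 2) * c (n + 1))
    (h3 : Summable fun n => (3 / 2 : ℝ) ^ n / c n) :
    ∃ Tmax : ℝ, 0 < Tmax ∧ ∀ (T : ℝ) (b : ℕ → ℝ → ℝ), 0 < T →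
      (∀ n, b n 0 = if n = 0 then 1 else 0) →
      (∀ n, ∀ t ∈ Ico 0 T, 0 ≤ b n t) →
      (∀ n, ∀ t ∈ Ico 0 T, HasDerivWithinAt (b n)
        ((if n = 0 then 0 else c (n - 1) * b (n - 1) t ^ 2) - c n * b n t * b (n + 1) t)
        (Ico 0 T) t) →
      (∀ T' < T, ∃ K : ℝ, ∀ n, ∀ t ∈ Icc 0 T', c n * 2 ^ n * b n t ≤ K) →
      T ≤ Tmax := by
  set Lam : ℝ := ∑' n, (3 / 2 : ℝ) ^ n / c n with hLam
  have hnn : ∀ n, 0 ≤ (3 / 2 : ℝ) ^ n / c n := fun n => div_nonneg (by positivity) (h0 n).le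
  have hterm : ∀ n, (3 / 2 : ℝ) ^ n / c n ≤ Lam := fun n => h3.le_tsum n fun j _ => hnn j
  have hLpos : 0 < Lam := lt_of_lt_of_le (div_pos (by positivity) (h0 0)) (hterm 0)
  have hinv : ∀ n, (c n)⁻¹ ≤ Lam := by
    intro n
    refine le_trans ?_ (hterm n)
    rw [div_eq_mul_inv]
    exact le_mul_of_one_le_left (inv_nonneg.mpr (h0 n).le) (one_le_pow₀ (by norm_num))
  refine ⟨2 * Lam, by positivity, ?_⟩
  intro T b hT hb0 hpos hder hK
  -- the claim for smaller times
  have claim : ∀ T', 0 < T' → T' < T → T' ≤ 2 * Lam := by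
    intro T' hT' hT'T
    obtain ⟨K, hKb⟩ := hK T' hT'T
    have hsub : ∀ t ∈ Icc 0 T', t ∈ Ico 0 T := fun t ht => ⟨ht.1, lt_of_le_of_lt ht.2 hT'T⟩
    -- the squares are small
    have hs : ∀ n, ∀ t ∈ Icc 0 T', (3 / 2 : ℝ) ^ n * c n * b n t ^ 2 ≤ K ^ 2 * Lam * (3 / 8) ^ n := by
      intro n t ht
      have hb := hpos n t (hsub t ht)
      have hc := h0 n
      have e1 : 0 ≤ c n * 2 ^ n * b n t := by positivity
      have e2 : (c n * 2 ^ n * b n t) ^ 2 ≤ K ^ 2 := pow_le_pow_left₀ e1 (hKb n t ht) 2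
      have e3 : (3 / 2 : ℝ) ^ n * c n * b n t ^ 2 =
          (c n * 2 ^ n * b n t) ^ 2 * (c n)⁻¹ * (3 / 8) ^ n := by
        have h8 : (3 / 2 : ℝ) ^ n = (2 ^ n) ^ 2 * (3 / 8) ^ n := by
          rw [← pow_mul, mul_comm n 2, pow_mul, ← mul_pow]
          norm_num
        rw [h8]
        field_simp
      rw [e3]
      refine mul_le_mul_of_nonneg_right ?_ (by positivity)
      exact mul_le_mul e2 (hinv n) (inv_nonneg.mpr hc.le) (sq_nonneg K)
    -- main inequality for each truncation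
    have main : ∀ M : ℕ, (2 * K ^ 2 * Lam * (3 / 8) ^ M) * T' ≤ 1 / 2 →
        T' * (1 / (2 * Lam) - 4 * (2 * K ^ 2 * Lam * (3 / 8) ^ M)) ≤ 1 := by
      intro M hM
      set ε : ℝ := 2 * K ^ 2 * Lam * (3 / 8) ^ M with hε
      have hε0 : 0 ≤ ε := by positivity
      set P : ℝ → ℝ := fun t => ∑ n ∈ Finset.range (M + 1), (3 / 2 : ℝ) ^ n * b n t with hP
      set P' : ℝ → ℝ := fun t => ∑ n ∈ Finset.range (M + 1), (3 / 2 : ℝ) ^ n *
        ((if n = 0 then 0 else c (n - 1) * b (n - 1) t ^ 2) - c n * b n t * b (n + 1) t) with hP'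
      have hPd : ∀ t ∈ Ico 0 T, HasDerivWithinAt P (P' t) (Ico 0 T) t := by
        intro t ht
        exact HasDerivWithinAt.fun_sum fun n _ => (hder n t ht).const_mul _
      have hPc : ContinuousOn P (Icc 0 T') := fun t ht =>
        ((hPd t (hsub t ht)).continuousWithinAt).mono (fun s hs => hsub s hs)
      have hPd' : ∀ t ∈ Ioo 0 T', HasDerivAt P (P' t) t := by
        intro t ht
        refine (hPd t ⟨ht.1.le, ht.2.trans hT'T⟩).hasDerivAt ?_
        exact Ico_mem_nhds ht.1 (ht.2.trans hT'T)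
      have hlow : ∀ t ∈ Icc 0 T', P t ^ 2 / (2 * Lam) - ε ≤ P' t := by
        intro t ht
        have e1 := riccati_alg c (fun n => b n t) h0 h2 M
        have e2 : P t ^ 2 ≤ Lam * ∑ n ∈ Finset.range (M + 1), (3 / 2 : ℝ) ^ n * c n * b n t ^ 2 := by
          have cs := Finset.sum_sq_le_sum_mul_sum_of_sq_le_mul (Finset.range (M + 1))
            (r := fun n => (3 / 2 : ℝ) ^ n * b n t) (f := fun n => (3 / 2 : ℝ) ^ n / c n)
            (g := fun n => (3 / 2 : ℝ) ^ n * c n * b n t ^ 2) (fun n _ => hnn n)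
            (fun n _ => by have := h0 n; positivity)
            (fun n _ => le_of_eq (by have := (h0 n).ne'; field_simp))
          refine cs.trans (mul_le_mul_of_nonneg_right ?_ ?_)
          · exact h3.sum_le_tsum _ fun n _ => hnn n
          · exact Finset.sum_nonneg fun n _ => by have := h0 n; positivity
        have e3 := hs M t ht
        have e4 := hs (M + 1) t ht
        have e5 : P t ^ 2 / (2 * Lam) ≤
            (1 / 2) * ∑ n ∈ Finset.range (M + 1), (3 / 2 : ℝ) ^ n * c n * b n t ^ 2 := by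
          rw [div_le_iff₀ (by positivity)]
          nlinarith [e2]
        have e6 : (3 / 2) * (K ^ 2 * Lam * (3 / 8) ^ M) +
            (1 / 2) * (K ^ 2 * Lam * (3 / 8) ^ (M + 1)) ≤ ε := by
          have : 0 ≤ K ^ 2 * Lam * (3 / 8) ^ M := by positivity
          have h38 : (3 / 8 : ℝ) ^ (M + 1) = (3 / 8) ^ M * (3 / 8) := pow_succ _ _
          rw [hε, h38]
          nlinarith
        simp only [hP']
        linarith
      have hP0 : P 0 = 1 := by
        simp only [hP]
        rw [Finset.sum_eq_single 0]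
        · simp [hb0]
        · intro n _ hn; simp [hb0, hn]
        · intro h; simp at h
      -- a first lower bound
      have hhalf : ∀ t ∈ Icc 0 T', 1 / 2 ≤ P t := by
        have hmono : MonotoneOn (fun t => P t + ε * t) (Icc 0 T') := by
          refine monotoneOn_of_deriv_nonneg (convex_Icc 0 T') ?_ ?_ ?_
          · exact hPc.add (continuousOn_const.mul continuousOn_id)
          · rw [interior_Icc]
            intro t ht
            exact (((hPd' t ht).add ((hasDerivAt_id t).const_mul ε))).differentiableAt.differentiableWithinAt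
          · rw [interior_Icc]
            intro t ht
            have hd : HasDerivAt (fun t => P t + ε * t) (P' t + ε * 1) t :=
              (hPd' t ht).add ((hasDerivAt_id t).const_mul ε)
            rw [hd.deriv]
            have := hlow t ⟨ht.1.le, ht.2.le⟩
            have h5 : 0 ≤ P t ^ 2 / (2 * Lam) := by positivity
            linarith
        intro t ht
        have := hmono ⟨le_refl 0, hT'.le⟩ ht ht.1
        simp only [hP0, mul_zero, add_zero] at this
        have h6 : ε * t ≤ ε * T' := mul_le_mul_of_nonneg_left ht.2 hε0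
        linarith
      -- the comparison
      set κ : ℝ := 1 / (2 * Lam) - 4 * ε with hκ
      have hmono : MonotoneOn (fun t => -(P t)⁻¹ - κ * t) (Icc 0 T') := by
        have hne : ∀ t ∈ Icc 0 T', P t ≠ 0 := fun t ht => by
          have := hhalf t ht; intro h; rw [h] at this; norm_num at this
        refine monotoneOn_of_deriv_nonneg (convex_Icc 0 T') ?_ ?_ ?_
        · exact (hPc.inv₀ hne).neg.sub (continuousOn_const.mul continuousOn_id)
        · rw [interior_Icc]
          intro t ht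
          exact (((hPd' t ht).inv (hne t ⟨ht.1.le, ht.2.le⟩)).neg.sub
            ((hasDerivAt_id t).const_mul κ)).differentiableAt.differentiableWithinAt
        · rw [interior_Icc]
          intro t ht
          have ht' : t ∈ Icc 0 T' := ⟨ht.1.le, ht.2.le⟩
          have hd : HasDerivAt (fun t => -(P t)⁻¹ - κ * t) (-(-P' t / P t ^ 2) - κ * 1) t :=
            ((hPd' t ht).inv (hne t ht')).neg.sub ((hasDerivAt_id t).const_mul κ)
          rw [hd.deriv]
          have h5 := hlow t ht'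
          have h6 := hhalf t ht'
          have h7 : 0 < P t ^ 2 := by positivity
          have h8 : κ * P t ^ 2 ≤ P' t := by
            have h9' : 1 / 4 ≤ P t ^ 2 := by nlinarith
            have h9 : ε ≤ 4 * ε * P t ^ 2 := by nlinarith [mul_le_mul_of_nonneg_left h9' hε0]
            have h10 : κ * P t ^ 2 = P t ^ 2 / (2 * Lam) - 4 * ε * P t ^ 2 := by
              rw [hκ]; ring
            linarith
          have h11 : κ ≤ P' t / P t ^ 2 := by rwa [le_div_iff₀ h7]
          have h12 : -(-P' t / P t ^ 2) = P' t / P t ^ 2 := by ring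
          rw [h12]
          linarith
      have hfin := hmono ⟨le_refl 0, hT'.le⟩ ⟨hT'.le, le_refl T'⟩ hT'.le
      simp only [hP0, inv_one, mul_zero, sub_zero] at hfin
      have h13 : 0 < (P T')⁻¹ := by
        have := hhalf T' ⟨hT'.le, le_refl T'⟩
        positivity
      have h14 : T' * κ = κ * T' := mul_comm _ _
      rw [h14]
      linarith
    -- pass to the limit
    have hpow : Tendsto (fun M : ℕ => (3 / 8 : ℝ) ^ M) atTop (𝓝 0) :=
      tendsto_pow_atTop_nhds_zero_of_lt_one (by norm_num) (by norm_num)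
    have hε : Tendsto (fun M : ℕ => 2 * K ^ 2 * Lam * (3 / 8 : ℝ) ^ M) atTop (𝓝 0) := by
      simpa using hpow.const_mul (2 * K ^ 2 * Lam)
    have hεT : Tendsto (fun M : ℕ => (2 * K ^ 2 * Lam * (3 / 8 : ℝ) ^ M) * T') atTop (𝓝 0) := by
      simpa using hε.mul_const T'
    have hev : ∀ᶠ M : ℕ in atTop, (2 * K ^ 2 * Lam * (3 / 8 : ℝ) ^ M) * T' ≤ 1 / 2 :=
      hεT.eventually_le_const (by norm_num)
    have hlim : Tendsto (fun M : ℕ => T' * (1 / (2 * Lam) - 4 * (2 * K ^ 2 * Lam * (3 / 8 : ℝ) ^ M)))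
        atTop (𝓝 (T' * (1 / (2 * Lam)))) := by
      have := (hε.const_mul 4).const_sub (1 / (2 * Lam)) |>.const_mul T'
      simpa using this
    have hle := le_of_tendsto hlim (hev.mono fun M hM => main M hM)
    have h15 : T' * (1 / (2 * Lam)) = T' / (2 * Lam) := by ring
    rw [h15, div_le_one (by positivity)] at hle
    exact hle
  by_contra hcon
  push Not at hcon
  have h16 := claim ((T + 2 * Lam) / 2) (by positivity) (by linarith)
  linarith

end Pool.Agent.Work.MP_b0497c_an.Dec
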