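import Mathlib

set_option autoImplicit false

/-! The truncated dyadic system. -/

namespace Pool.Agent.Work.MP_b0497c_an.Dec

open Set Filter Topology
open scoped NNReal

namespace Gal

/-- Coordinates with an arbitrary index. -/
noncomputable def xt {N : ℕ} (x : Fin (N + 1) → ℝ) (n : ℕ) : ℝ :=
  if h : n < N + 1 then x ⟨n, h⟩ else 0

/-- Squared length. -/
noncomputable def sqn {N : ℕ} (x : Fin (N + 1) → ℝ) : ℝ := ∑ i, x i ^ 2

/-- Cut-off. -/
noncomputable def eta {N : ℕ} (x : Fin (N + 1) → ℝ) : ℝ := max 0 (min 1 (2 - sqn x))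

/-- The field without cut-off. -/
noncomputable def F0 (c : ℕ → ℝ) {N : ℕ} (x : Fin (N + 1) → ℝ) (n : ℕ) : ℝ :=
  (if n = 0 then 0 else c (n - 1) * max (xt x (n - 1)) 0 ^ 2) -
    c n * max (xt x n) 0 * xt x (n + 1)

/-- The field with cut-off. -/
noncomputable def F (c : ℕ → ℝ) {N : ℕ} (x : Fin (N + 1) → ℝ) : Fin (N + 1) → ℝ :=
  fun i => eta x * F0 c x i

lemma ll_mul {E : Type} [PseudoEMetricSpace E] {f g : E → ℝ} (hf : LocallyLipschitz f)
    (hg : LocallyLipschitz g) : LocallyLipschitz (fun x => f x * g x) := by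
  have h1 : ContDiff ℝ 1 (fun p : ℝ × ℝ => p.1 * p.2) := contDiff_fst.mul contDiff_snd
  exact (h1.locallyLipschitz).comp (hf.prodMk hg)

lemma ll_xt {N : ℕ} (n : ℕ) : LocallyLipschitz (fun x : Fin (N + 1) → ℝ => xt x n) := by
  unfold xt
  by_cases h : n < N + 1
  · simp only [h, dif_pos]
    exact (contDiff_apply ℝ ℝ (⟨n, h⟩ : Fin (N + 1)) (n := 1)).locallyLipschitz
  · simp only [h, dif_neg, not_false_eq_true]
    exact LocallyLipschitz.const 0

lemma ll_sqn {N : ℕ} : LocallyLipschitz (fun x : Fin (N + 1) → ℝ => sqn x) := by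
  have h1 : ContDiff ℝ 1 (fun x : Fin (N + 1) → ℝ => sqn x) := by
    unfold sqn
    exact ContDiff.sum (fun i _ => (contDiff_apply ℝ ℝ i (n := 1)).pow 2)
  exact h1.locallyLipschitz

lemma ll_eta {N : ℕ} : LocallyLipschitz (fun x : Fin (N + 1) → ℝ => eta x) := by
  unfold eta
  have h1 : LocallyLipschitz (fun x : Fin (N + 1) → ℝ => 2 - sqn x) := by
    have h2 : ContDiff ℝ 1 (fun s : ℝ => 2 - s) := contDiff_const.sub contDiff_id
    exact (h2.locallyLipschitz).comp ll_sqn
  exact (h1.const_min 1).const_max 0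

lemma ll_F0 (c : ℕ → ℝ) {N : ℕ} (n : ℕ) :
    LocallyLipschitz (fun x : Fin (N + 1) → ℝ => F0 c x n) := by
  unfold F0
  have h1 : LocallyLipschitz (fun x : Fin (N + 1) → ℝ =>
      c n * max (xt x n) 0 * xt x (n + 1)) :=
    ll_mul (ll_mul (LocallyLipschitz.const _) ((ll_xt n).max_const 0)) (ll_xt (n + 1))
  by_cases hn : n = 0
  · simp only [hn, if_true]
    rw [hn] at h1
    exact (LocallyLipschitz.const 0).sub h1
  · simp only [hn, if_false]
    have h2 : LocallyLipschitz (fun x : Fin (N + 1) → ℝ =>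
        c (n - 1) * max (xt x (n - 1)) 0 ^ 2) := by
      have h3 : ∀ x : Fin (N + 1) → ℝ, c (n - 1) * max (xt x (n - 1)) 0 ^ 2 =
          c (n - 1) * (max (xt x (n - 1)) 0 * max (xt x (n - 1)) 0) := fun x => by ring
      simp only [h3]
      exact ll_mul (LocallyLipschitz.const _)
        (ll_mul ((ll_xt (n - 1)).max_const 0) ((ll_xt (n - 1)).max_const 0))
    exact h2.sub h1

lemma F_lip (c : ℕ → ℝ) {N : ℕ} (s : Set (Fin (N + 1) → ℝ)) (hs : IsCompact s) :
    ∃ K : ℝ≥0, LipschitzOnWith K (F c) s := by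
  have h1 : ∀ i : Fin (N + 1), ∃ K : ℝ≥0, LipschitzOnWith K
      (fun x : Fin (N + 1) → ℝ => eta x * F0 c x i) s := fun i =>
    LocallyLipschitzOn.exists_lipschitzOnWith_of_compact hs
      (ll_mul ll_eta (ll_F0 c (i : ℕ))).locallyLipschitzOn
  choose K hK using h1
  refine ⟨∑ i, K i, LipschitzOnWith.of_dist_le_mul (fun x hx y hy => ?_)⟩
  rw [dist_pi_le_iff (by positivity)]
  intro i
  refine ((hK i).dist_le_mul x hx y hy).trans ?_
  refine mul_le_mul_of_nonneg_right ?_ dist_nonneg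
  exact_mod_cast Finset.single_le_sum (f := K) (fun _ _ => by positivity) (Finset.mem_univ i)

lemma eta_nonneg {N : ℕ} (x : Fin (N + 1) → ℝ) : 0 ≤ eta x := le_max_left _ _

lemma eta_le {N : ℕ} (x : Fin (N + 1) → ℝ) : eta x ≤ 1 :=
  max_le zero_le_one (min_le_left _ _)

lemma eta_of_ge {N : ℕ} (x : Fin (N + 1) → ℝ) (h : 2 ≤ sqn x) : eta x = 0 := by
  unfold eta
  exact max_eq_left ((min_le_right _ _).trans (by linarith))

lemma sq_le_sqn {N : ℕ} (x : Fin (N + 1) → ℝ) (i : Fin (N + 1)) : x i ^ 2 ≤ sqn x :=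
  Finset.single_le_sum (f := fun i => x i ^ 2) (fun _ _ => sq_nonneg _) (Finset.mem_univ i)

lemma xt_sq_le {N : ℕ} (x : Fin (N + 1) → ℝ) (n : ℕ) : xt x n ^ 2 ≤ sqn x := by
  unfold xt
  by_cases h : n < N + 1
  · simp only [h, dif_pos]
    exact sq_le_sqn x _
  · simp only [h, dif_neg, not_false_eq_true]
    have : 0 ≤ sqn x := Finset.sum_nonneg (fun _ _ => sq_nonneg _)
    simpa using this

lemma F_bound (c : ℕ → ℝ) (h0 : ∀ n, 0 ≤ c n) {N : ℕ} (x : Fin (N + 1) → ℝ) :
    ‖F c x‖ ≤ 8 * ∑ j ∈ Finset.range (N + 1), c j := by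
  set C := ∑ j ∈ Finset.range (N + 1), c j with hC
  have hC0 : 0 ≤ C := Finset.sum_nonneg (fun j _ => h0 j)
  have hcC : ∀ j < N + 1, c j ≤ C := fun j hj =>
    Finset.single_le_sum (f := c) (fun j _ => h0 j) (Finset.mem_range.mpr hj)
  rw [pi_norm_le_iff_of_nonneg (by positivity)]
  intro i
  show ‖eta x * F0 c x i‖ ≤ 8 * C
  rcases le_or_gt 2 (sqn x) with h | h
  · rw [eta_of_ge x h, zero_mul, norm_zero]
    positivity
  · have hb : ∀ n, |xt x n| ≤ 2 := by
      intro n
      have h1 := xt_sq_le x n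
      exact abs_le_of_sq_le_sq (by nlinarith) (by norm_num)
    have hm : ∀ n, 0 ≤ max (xt x n) 0 ∧ max (xt x n) 0 ≤ 2 := fun n =>
      ⟨le_max_right _ _, max_le ((le_abs_self _).trans (hb n)) (by norm_num)⟩
    rw [norm_mul, Real.norm_eq_abs, Real.norm_eq_abs, abs_of_nonneg (eta_nonneg x)]
    have h2 : |F0 c x i| ≤ 8 * C := by
      unfold F0
      have h3 : |(if (i : ℕ) = 0 then 0 else c ((i : ℕ) - 1) *
          max (xt x ((i : ℕ) - 1)) 0 ^ 2)| ≤ 4 * C := by
        by_cases hi : (i : ℕ) = 0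
        · simp only [hi, if_true, abs_zero]
          positivity
        · simp only [hi, if_false]
          have h4 := h0 ((i : ℕ) - 1)
          have h5 := hcC ((i : ℕ) - 1) (by omega)
          have h6 := hm ((i : ℕ) - 1)
          rw [abs_of_nonneg (by positivity)]
          have h7 : max (xt x ((i : ℕ) - 1)) 0 ^ 2 ≤ 4 := by nlinarith
          have h8 : 0 ≤ max (xt x ((i : ℕ) - 1)) 0 ^ 2 := by positivity
          nlinarith
      have h4 : |c i * max (xt x i) 0 * xt x ((i : ℕ) + 1)| ≤ 4 * C := by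
        have h5 := h0 (i : ℕ)
        have h6 := hcC (i : ℕ) i.2
        have h7 := hm (i : ℕ)
        have h8 := hb ((i : ℕ) + 1)
        rw [abs_mul, abs_mul, abs_of_nonneg h5, abs_of_nonneg h7.1]
        have h9 : max (xt x i) 0 * |xt x ((i : ℕ) + 1)| ≤ 4 := by
          have := abs_nonneg (xt x ((i : ℕ) + 1))
          nlinarith [h7.1, h7.2]
        have h10 : 0 ≤ max (xt x i) 0 * |xt x ((i : ℕ) + 1)| :=
          mul_nonneg h7.1 (abs_nonneg _)
        rw [mul_assoc]
        nlinarith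
      refine (abs_sub _ _).trans ?_
      linarith
    have h3 : 0 ≤ |F0 c x i| := abs_nonneg _
    nlinarith [eta_nonneg x, eta_le x]

/-- Conservation of energy. -/
lemma energy (c : ℕ → ℝ) {N : ℕ} (hN : ∀ n, N ≤ n → c n = 0) (x : Fin (N + 1) → ℝ) :
    ∑ i, x i * F c x i = 0 := by
  set g : ℕ → ℝ := fun n => if n = 0 then 0 else
    c (n - 1) * max (xt x (n - 1)) 0 ^ 2 * xt x n with hg
  have h1 : ∀ i : Fin (N + 1), x i * F c x i = eta x * (g i - g (i + 1)) := by
    intro i
    have hx : x i = xt x (i : ℕ) := by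
      unfold xt
      rw [dif_pos i.2]
    have hmax : xt x (i : ℕ) * max (xt x (i : ℕ)) 0 = max (xt x (i : ℕ)) 0 ^ 2 := by
      rcases le_total (xt x (i : ℕ)) 0 with h | h
      · rw [max_eq_right h]
        ring
      · rw [max_eq_left h]
        ring
    show x i * (eta x * F0 c x i) = _
    rw [hx]
    unfold F0
    simp only [hg, Nat.add_sub_cancel, Nat.add_eq_zero_iff, one_ne_zero, and_false, if_false]
    by_cases hi : (i : ℕ) = 0
    · simp only [hi, if_true, zero_add]
      rw [hi] at hmax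
      linear_combination -(eta x * c 0 * xt x 1) * hmax
    · simp only [hi, if_false]
      linear_combination -(eta x * c (i : ℕ) * xt x ((i : ℕ) + 1)) * hmax
  rw [Finset.sum_congr rfl (fun i _ => h1 i), ← Finset.mul_sum,
    Fin.sum_univ_eq_sum_range (fun n => g n - g (n + 1)) (N + 1), Finset.sum_range_sub']
  have h2 : g (N + 1) = 0 := by
    simp only [hg, Nat.add_sub_cancel, hN N le_rfl, zero_mul, ite_self]
  have h3 : g 0 = 0 := by simp [hg]
  rw [h2, h3]
  ring

lemma toIci {f : ℝ → ℝ} {f' T t : ℝ} (h : HasDerivWithinAt f f' (Icc 0 T) t)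
    (ht : t ∈ Ico 0 T) : HasDerivWithinAt f f' (Ici t) t := by
  refine h.mono_of_mem_nhdsWithin ?_
  rw [mem_nhdsWithin]
  exact ⟨Iio T, isOpen_Iio, ht.2, fun y hy => ⟨ht.1.trans hy.2, hy.1.le⟩⟩

end Gal

open Gal

theorem galerkin (c : ℕ → ℝ) (h0 : ∀ n, 0 ≤ c n) (N : ℕ) (hN : ∀ n, N ≤ n → c n = 0)
    (T : ℝ) (hT : 0 < T) :
    ∃ b : ℕ → ℝ → ℝ, (∀ n, b n 0 = if n = 0 then 1 else 0) ∧
      (∀ n, ∀ t ∈ Icc 0 T, 0 ≤ b n t ∧ b n t ≤ 1) ∧
      ∀ n, ∀ t ∈ Icc 0 T, HasDerivWithinAt (b n)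
        ((if n = 0 then 0 else c (n - 1) * b (n - 1) t ^ 2) - c n * b n t * b (n + 1) t)
        (Icc 0 T) t := by
  -- Picard-Lindelof
  set x0 : Fin (N + 1) → ℝ := fun i => if (i : ℕ) = 0 then 1 else 0 with hx0
  set C : ℝ := 8 * ∑ j ∈ Finset.range (N + 1), c j with hC
  have hC0 : 0 ≤ C := by
    have : 0 ≤ ∑ j ∈ Finset.range (N + 1), c j := Finset.sum_nonneg (fun j _ => h0 j)
    rw [hC]; positivity
  set L : ℝ≥0 := ⟨C, hC0⟩ with hL
  set a : ℝ≥0 := ⟨C * T, mul_nonneg hC0 hT.le⟩ with ha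
  obtain ⟨K, hK⟩ := F_lip c (Metric.closedBall x0 a) (isCompact_closedBall x0 a)
  have hPL : IsPicardLindelof (fun _ : ℝ => F c) (tmin := 0) (tmax := T)
      (⟨0, left_mem_Icc.mpr hT.le⟩ : Icc (0 : ℝ) T) x0 a 0 L K :=
    { lipschitzOnWith := fun _ _ => hK
      continuousOn := fun _ _ => continuousOn_const
      norm_le := fun _ _ x _ => F_bound c h0 x
      mul_max_le := by
        show C * max (T - 0) (0 - 0) ≤ C * T - ((0 : ℝ≥0) : ℝ)
        rw [sub_zero, sub_zero, max_eq_left hT.le]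
        simp }
  obtain ⟨α, hα0, hα⟩ := hPL.exists_eq_forall_mem_Icc_hasDerivWithinAt₀
  replace hα0 : α 0 = x0 := hα0
  have hαi : ∀ i : Fin (N + 1), ∀ t ∈ Icc (0 : ℝ) T,
      HasDerivWithinAt (fun s => α s i) (F c (α t) i) (Icc 0 T) t := fun i t ht =>
    (hasDerivWithinAt_pi.mp (hα t ht)) i
  -- energy
  have hE : ∀ t ∈ Icc (0 : ℝ) T, sqn (α t) = 1 := by
    have hd : ∀ t ∈ Icc (0 : ℝ) T, HasDerivWithinAt (fun s => sqn (α s)) 0 (Icc 0 T) t := by
      intro t ht
      have h1 : HasDerivWithinAt (fun s => ∑ i, α s i ^ 2)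
          (∑ i, (2 : ℕ) * α t i ^ (2 - 1) * F c (α t) i) (Icc 0 T) t :=
        HasDerivWithinAt.fun_sum (fun i _ => (hαi i t ht).pow 2)
      have h2 : ∑ i, ((2 : ℕ) : ℝ) * α t i ^ (2 - 1) * F c (α t) i = 0 := by
        have h3 : ∀ i, ((2 : ℕ) : ℝ) * α t i ^ (2 - 1) * F c (α t) i =
            2 * (α t i * F c (α t) i) := fun i => by push_cast; ring
        rw [Finset.sum_congr rfl (fun i _ => h3 i), ← Finset.mul_sum, energy c hN, mul_zero]
      rw [h2] at h1
      exact h1
    intro t ht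
    have h1 := constant_of_has_deriv_right_zero (f := fun s => sqn (α s))
      (fun s hs => (hd s hs).continuousWithinAt)
      (fun s hs => toIci (hd s ⟨hs.1, hs.2.le⟩) hs) t ht
    rw [h1, hα0]
    unfold sqn
    rw [Finset.sum_eq_single (0 : Fin (N + 1))]
    · simp [hx0]
    · intro i _ hi
      have hi0 : (i : ℕ) ≠ 0 := fun h => hi (Fin.ext h)
      show (if (i : ℕ) = 0 then (1 : ℝ) else 0) ^ 2 = 0
      rw [if_neg hi0]
      norm_num
    · intro h
      exact absurd (Finset.mem_univ _) h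
  have heta : ∀ t ∈ Icc (0 : ℝ) T, eta (α t) = 1 := by
    intro t ht
    unfold eta
    rw [hE t ht]
    norm_num
  have hder : ∀ n, ∀ t ∈ Icc (0 : ℝ) T, HasDerivWithinAt (fun s => xt (α s) n)
      (F0 c (α t) n) (Icc 0 T) t := by
    intro n t ht
    by_cases h : n < N + 1
    · have h1 := hαi ⟨n, h⟩ t ht
      have h2 : F c (α t) ⟨n, h⟩ = F0 c (α t) n := by
        show eta (α t) * F0 c (α t) n = _
        rw [heta t ht, one_mul]
      rw [h2] at h1
      have h3 : (fun s => xt (α s) n) = fun s => α s ⟨n, h⟩ := by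
        funext s
        unfold xt
        simp [h]
      rw [h3]
      exact h1
    · have h3 : (fun s => xt (α s) n) = fun _ => (0 : ℝ) := by
        funext s
        unfold xt
        simp [h]
      have h4 : F0 c (α t) n = 0 := by
        unfold F0
        rw [hN n (by omega), hN (n - 1) (by omega)]
        simp
      rw [h3, h4]
      exact hasDerivWithinAt_const t _ 0
  have hinit : ∀ n, xt (α 0) n = if n = 0 then 1 else 0 := by
    intro n
    rw [hα0]
    unfold xt
    by_cases h : n < N + 1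
    · simp [h, hx0]
    · have : n ≠ 0 := by omega
      simp [h, this]
  -- nonnegativity
  have hnn : ∀ n, ∀ t ∈ Icc (0 : ℝ) T, 0 ≤ xt (α t) n := by
    intro n t ht
    have key : ∀ ε > 0, - xt (α t) n ≤ ε * (1 + t) := by
      intro ε hε
      refine image_le_of_deriv_right_lt_deriv_boundary (f := fun s => - xt (α s) n)
        (f' := fun s => - F0 c (α s) n) (B := fun s => ε * (1 + s)) (B' := fun _ => ε)
        (fun s hs => (hder n s hs).neg.continuousWithinAt)
        (fun s hs => toIci (hder n s ⟨hs.1, hs.2.le⟩).neg hs) ?_ ?_ ?_ ht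
      · show - xt (α 0) n ≤ ε * (1 + 0)
        rw [hinit n]
        split_ifs
        · linarith
        · linarith
      · intro s
        have h1 : HasDerivAt (fun s : ℝ => 1 + s) 1 s := (hasDerivAt_id s).const_add 1
        simpa using h1.const_mul ε
      · intro s hs hse
        have hse' : - xt (α s) n = ε * (1 + s) := hse
        have hs0 : (0 : ℝ) ≤ s := hs.1
        have h1 : xt (α s) n ≤ 0 := by nlinarith
        have h2 : 0 ≤ F0 c (α s) n := by
          unfold F0
          rw [max_eq_right h1, mul_zero, zero_mul, sub_zero]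
          split_ifs
          · exact le_rfl
          · exact mul_nonneg (h0 _) (sq_nonneg _)
        show - F0 c (α s) n < ε
        linarith
    have ht0 : 0 ≤ t := ht.1
    by_contra hcon
    push Not at hcon
    have h1 := key (- xt (α t) n / (2 * (1 + t))) (by
      apply div_pos (by linarith)
      positivity)
    have h2 : - xt (α t) n / (2 * (1 + t)) * (1 + t) = - xt (α t) n / 2 := by
      field_simp
    rw [h2] at h1
    linarith
  refine ⟨fun n t => xt (α t) n, hinit, ?_, ?_⟩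
  · intro n t ht
    refine ⟨hnn n t ht, ?_⟩
    have h1 := xt_sq_le (α t) n
    rw [hE t ht] at h1
    have h2 := hnn n t ht
    show xt (α t) n ≤ 1
    nlinarith
  · intro n t ht
    have h1 := hder n t ht
    have h2 : F0 c (α t) n = (if n = 0 then 0 else c (n - 1) * xt (α t) (n - 1) ^ 2) -
        c n * xt (α t) n * xt (α t) (n + 1) := by
      unfold F0
      rw [max_eq_left (hnn n t ht), max_eq_left (hnn (n - 1) t ht)]
    rw [h2] at h1
    exact h1

end Pool.Agent.Work.MP_b0497c_an.Dec
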