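import Mathlib
import Pool.Agent.Work.MP_b0497c_an.Dec.Galerkin

set_option autoImplicit false

/-!
The full dyadic system on `[0, T]` as a limit of the truncated systems.
-/

namespace Pool.Agent.Work.MP_b0497c_an.Dec

open Set MeasureTheory Filter Topology

namespace Weak

/-- The bound for the time derivative of `b k`. -/
noncomputable def M (c : ℕ → ℝ) (k : ℕ) : ℝ := (if k = 0 then 0 else c (k - 1)) + c k

theorem M_nonneg {c : ℕ → ℝ} (h0 : ∀ n, 0 ≤ c n) (k : ℕ) : 0 ≤ M c k := by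
  unfold M
  split_ifs
  · have := h0 k; linarith
  · have := h0 k; have := h0 (k - 1); linarith

/-- The right-hand side. -/
noncomputable def F (c : ℕ → ℝ) (b : ℕ → ℝ) (n : ℕ) : ℝ :=
  (if n = 0 then 0 else c (n - 1) * b (n - 1) ^ 2) - c n * b n * b (n + 1)

theorem abs_F_le {c d : ℕ → ℝ} (h0 : ∀ n, 0 ≤ d n) (hd : ∀ n, d n ≤ c n) {b : ℕ → ℝ}
    (hb : ∀ n, 0 ≤ b n ∧ b n ≤ 1) (n : ℕ) : |F d b n| ≤ M c n := by
  have h1 : 0 ≤ d n * b n * b (n + 1) :=
    mul_nonneg (mul_nonneg (h0 n) (hb n).1) (hb (n + 1)).1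
  have h2 : d n * b n * b (n + 1) ≤ c n := by
    have h3 : d n * b n ≤ c n * 1 :=
      mul_le_mul (hd n) (hb n).2 (hb n).1 ((h0 n).trans (hd n))
    have h4 : d n * b n * b (n + 1) ≤ (c n * 1) * 1 :=
      mul_le_mul h3 (hb (n + 1)).2 (hb (n + 1)).1 (by have := (h0 n).trans (hd n); linarith)
    linarith
  have h5 : 0 ≤ (if n = 0 then 0 else d (n - 1) * b (n - 1) ^ 2) := by
    split_ifs
    · exact le_rfl
    · exact mul_nonneg (h0 _) (sq_nonneg _)
  have h6 : (if n = 0 then 0 else d (n - 1) * b (n - 1) ^ 2)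
      ≤ (if n = 0 then 0 else c (n - 1)) := by
    split_ifs
    · exact le_rfl
    · have h7 : b (n - 1) ^ 2 ≤ 1 := pow_le_one₀ (hb _).1 (hb _).2
      have h8 : d (n - 1) * b (n - 1) ^ 2 ≤ c (n - 1) * 1 :=
        mul_le_mul (hd _) h7 (sq_nonneg _) ((h0 _).trans (hd _))
      linarith
  have h9 : 0 ≤ c n := (h0 n).trans (hd n)
  unfold F M
  rw [abs_le]
  constructor <;> linarith

/-- The Lipschitz constant of the right-hand side. -/
noncomputable def C (c : ℕ → ℝ) (n : ℕ) : ℝ :=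
  (if n = 0 then 0 else c (n - 1) * (2 * M c (n - 1))) + c n * (M c n + M c (n + 1))

theorem F_lip {c d : ℕ → ℝ} (h0 : ∀ n, 0 ≤ d n) (hd : ∀ n, d n ≤ c n) {b b' : ℕ → ℝ}
    (hb : ∀ n, 0 ≤ b n ∧ b n ≤ 1) (hb' : ∀ n, 0 ≤ b' n ∧ b' n ≤ 1) {r : ℝ} (hr : 0 ≤ r)
    (h : ∀ n, |b n - b' n| ≤ M c n * r) (n : ℕ) : |F d b n - F d b' n| ≤ C c n * r := by
  have hc : ∀ n, 0 ≤ c n := fun n => (h0 n).trans (hd n)
  have h1 : |(if n = 0 then 0 else d (n - 1) * b (n - 1) ^ 2)
      - (if n = 0 then 0 else d (n - 1) * b' (n - 1) ^ 2)|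
      ≤ (if n = 0 then 0 else c (n - 1) * (2 * M c (n - 1))) * r := by
    split_ifs
    · simp
    · have e : d (n - 1) * b (n - 1) ^ 2 - d (n - 1) * b' (n - 1) ^ 2
          = d (n - 1) * ((b (n - 1) + b' (n - 1)) * (b (n - 1) - b' (n - 1))) := by ring
      rw [e, abs_mul, abs_mul, abs_of_nonneg (h0 _)]
      have h2 : |b (n - 1) + b' (n - 1)| ≤ 2 := by
        rw [abs_of_nonneg (add_nonneg (hb _).1 (hb' _).1)]
        have := (hb (n - 1)).2
        have := (hb' (n - 1)).2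
        linarith
      have h3 : |b (n - 1) + b' (n - 1)| * |b (n - 1) - b' (n - 1)| ≤ 2 * (M c (n - 1) * r) :=
        mul_le_mul h2 (h _) (abs_nonneg _) (by norm_num)
      have h4 : d (n - 1) * (|b (n - 1) + b' (n - 1)| * |b (n - 1) - b' (n - 1)|)
          ≤ c (n - 1) * (2 * (M c (n - 1) * r)) :=
        mul_le_mul (hd _) h3 (by positivity) (hc _)
      calc _ ≤ c (n - 1) * (2 * (M c (n - 1) * r)) := h4
        _ = _ := by ring
  have h5 : |d n * b n * b (n + 1) - d n * b' n * b' (n + 1)| ≤ c n * (M c n + M c (n + 1)) * r := by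
    have e : d n * b n * b (n + 1) - d n * b' n * b' (n + 1)
        = d n * ((b n - b' n) * b (n + 1) + b' n * (b (n + 1) - b' (n + 1))) := by ring
    rw [e, abs_mul, abs_of_nonneg (h0 _)]
    have h6 : |(b n - b' n) * b (n + 1) + b' n * (b (n + 1) - b' (n + 1))|
        ≤ (M c n + M c (n + 1)) * r := by
      refine (abs_add_le _ _).trans ?_
      rw [abs_mul, abs_mul, abs_of_nonneg (hb (n + 1)).1, abs_of_nonneg (hb' n).1]
      have h7 : |b n - b' n| * b (n + 1) ≤ (M c n * r) * 1 :=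
        mul_le_mul (h n) (hb _).2 (hb _).1 (mul_nonneg (M_nonneg hc n) hr)
      have h8 : b' n * |b (n + 1) - b' (n + 1)| ≤ 1 * (M c (n + 1) * r) :=
        mul_le_mul (hb' _).2 (h _) (abs_nonneg _) (by norm_num)
      calc _ ≤ (M c n * r) * 1 + 1 * (M c (n + 1) * r) := add_le_add h7 h8
        _ = _ := by ring
    calc _ ≤ c n * ((M c n + M c (n + 1)) * r) := mul_le_mul (hd _) h6 (abs_nonneg _) (hc _)
      _ = _ := by ring
  have e : F d b n - F d b' n = ((if n = 0 then 0 else d (n - 1) * b (n - 1) ^ 2)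
      - (if n = 0 then 0 else d (n - 1) * b' (n - 1) ^ 2))
      - (d n * b n * b (n + 1) - d n * b' n * b' (n + 1)) := by unfold F; ring
  rw [e]
  refine (abs_sub _ _).trans ?_
  unfold C
  calc _ ≤ _ := add_le_add h1 h5
    _ = _ := by ring

/-- A second order estimate. -/
theorem second_order {T : ℝ} {f g : ℝ → ℝ} {K : ℝ} (hK : 0 ≤ K)
    (hf : ∀ t ∈ Icc 0 T, HasDerivWithinAt f (g t) (Icc 0 T) t)
    (hg : ∀ s ∈ Icc 0 T, ∀ t ∈ Icc 0 T, |g s - g t| ≤ K * |s - t|) {s t : ℝ} (hs : s ∈ Icc 0 T)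
    (ht : t ∈ Icc 0 T) : |f s - f t - (s - t) * g t| ≤ K * |s - t| ^ 2 := by
  have hsub : uIcc t s ⊆ Icc 0 T := ordConnected_Icc.uIcc_subset ht hs
  have h1 : ∀ x ∈ uIcc t s,
      HasDerivWithinAt (fun x => f x - x * g t) (g x - 1 * g t) (uIcc t s) x := by
    intro x hx
    exact ((hf x (hsub hx)).mono hsub).sub ((hasDerivWithinAt_id x _).mul_const (g t))
  have h2 : ∀ x ∈ uIcc t s, ‖g x - 1 * g t‖ ≤ K * |s - t| := by
    intro x hx
    rw [one_mul, Real.norm_eq_abs]
    refine (hg x (hsub hx) t ht).trans ?_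
    exact mul_le_mul_of_nonneg_left (abs_sub_left_of_mem_uIcc hx) hK
  have h3 := (convex_uIcc t s).norm_image_sub_le_of_norm_hasDerivWithin_le h1 h2
    left_mem_uIcc right_mem_uIcc
  rw [Real.norm_eq_abs, Real.norm_eq_abs] at h3
  calc |f s - f t - (s - t) * g t| = |f s - s * g t - (f t - t * g t)| := by congr 1; ring
    _ ≤ K * |s - t| * |s - t| := h3
    _ = _ := by ring

end Weak

open Weak

theorem weak_limit (c : ℕ → ℝ) (h0 : ∀ n, 0 ≤ c n) (T : ℝ) (hT : 0 < T) :
    ∃ b : ℕ → ℝ → ℝ, (∀ n, b n 0 = if n = 0 then 1 else 0) ∧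
      (∀ n, ∀ t ∈ Icc 0 T, 0 ≤ b n t ∧ b n t ≤ 1) ∧
      ∀ n, ∀ t ∈ Icc 0 T, HasDerivWithinAt (b n)
        ((if n = 0 then 0 else c (n - 1) * b (n - 1) t ^ 2) - c n * b n t * b (n + 1) t)
        (Icc 0 T) t := by
  -- the truncated systems
  set cN : ℕ → ℕ → ℝ := fun N n => if n < N then c n else 0 with hcN
  have hcN0 : ∀ N n, 0 ≤ cN N n := by
    intro N n
    simp only [hcN]
    split_ifs
    · exact h0 n
    · exact le_rfl
  have hcN1 : ∀ N n, cN N n ≤ c n := by
    intro N n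
    simp only [hcN]
    split_ifs
    · exact le_rfl
    · exact h0 n
  have hgal := fun N => galerkin (cN N) (hcN0 N) N (fun n hn => if_neg (not_lt.2 hn)) T hT
  choose B hB0 hB1 hB2 using hgal
  -- Lipschitz bounds
  have hlip : ∀ N n, ∀ s ∈ Icc 0 T, ∀ t ∈ Icc 0 T, |B N n s - B N n t| ≤ M c n * |s - t| := by
    intro N n s hs t ht
    have h1 := (convex_Icc (0 : ℝ) T).norm_image_sub_le_of_norm_hasDerivWithin_le
      (f := B N n) (C := M c n) (fun x hx => hB2 N n x hx)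
      (fun x hx => abs_F_le (hcN0 N) (hcN1 N) (b := fun k => B N k x)
        (fun k => hB1 N k x hx) n) ht hs
    simpa [Real.norm_eq_abs] using h1
  have hC : ∀ n, 0 ≤ C c n := by
    intro n
    unfold C
    have h1 := h0 n
    have h2 := M_nonneg h0 n
    have h3 := M_nonneg h0 (n + 1)
    split_ifs
    · positivity
    · have h4 := h0 (n - 1)
      have h5 := M_nonneg h0 (n - 1)
      positivity
  have hsecond : ∀ N n, ∀ s ∈ Icc 0 T, ∀ t ∈ Icc 0 T,
      |B N n s - B N n t - (s - t) * F (cN N) (fun k => B N k t) n| ≤ C c n * |s - t| ^ 2 := by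
    intro N n s hs t ht
    refine second_order (T := T) (g := fun t => F (cN N) (fun k => B N k t) n) (hC n)
      (fun x hx => hB2 N n x hx) ?_ hs ht
    intro x hx y hy
    exact F_lip (hcN0 N) (hcN1 N) (fun k => hB1 N k x hx) (fun k => hB1 N k y hy)
      (abs_nonneg _) (fun k => hlip N k x hx y hy) n
  -- ultrafilter limit
  set U : Ultrafilter ℕ := hyperfilter ℕ with hU
  have hUtop : (U : Filter ℕ) ≤ atTop := Nat.hyperfilter_le_atTop
  have hlim : ∀ n, ∀ t ∈ Icc 0 T, ∃ y ∈ Icc (0 : ℝ) 1, Tendsto (fun N => B N n t) U (𝓝 y) := by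
    intro n t ht
    have h1 := isCompact_Icc.ultrafilter_le_nhds (U.map (fun N => B N n t)) (by
      rw [le_principal_iff]
      exact Filter.mem_map.2 (univ_mem' (fun N => hB1 N n t ht)))
    obtain ⟨y, hy, hle⟩ := h1
    exact ⟨y, hy, hle⟩
  choose! b hb1 hb2 using hlim
  have hcT : ∀ n, Tendsto (fun N => cN N n) U (𝓝 (c n)) := by
    intro n
    refine Tendsto.mono_left ?_ hUtop
    refine tendsto_const_nhds.congr' ?_
    filter_upwards [eventually_gt_atTop n] with N hN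
    simp only [hcN, if_pos hN]
  have hFT : ∀ n, ∀ t ∈ Icc 0 T, Tendsto (fun N => F (cN N) (fun k => B N k t) n) U
      (𝓝 (F c (fun k => b k t) n)) := by
    intro n t ht
    unfold F
    refine Tendsto.sub ?_ (((hcT n).mul (hb2 n t ht)).mul (hb2 (n + 1) t ht))
    split_ifs
    · exact tendsto_const_nhds
    · exact (hcT (n - 1)).mul ((hb2 (n - 1) t ht).pow 2)
  have h0T : (0 : ℝ) ∈ Icc 0 T := ⟨le_rfl, hT.le⟩
  refine ⟨b, ?_, fun n t ht => hb1 n t ht, ?_⟩
  · intro n
    refine tendsto_nhds_unique (hb2 n 0 h0T) ?_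
    simp only [hB0]
    exact tendsto_const_nhds
  · intro n t ht
    have key : ∀ s ∈ Icc 0 T, |b n s - b n t - (s - t) * F c (fun k => b k t) n|
        ≤ C c n * |s - t| ^ 2 := by
      intro s hs
      have h1 : Tendsto (fun N => |B N n s - B N n t - (s - t) * F (cN N) (fun k => B N k t) n|) U
          (𝓝 |b n s - b n t - (s - t) * F c (fun k => b k t) n|) :=
        (((hb2 n s hs).sub (hb2 n t ht)).sub ((hFT n t ht).const_mul (s - t))).abs
      exact le_of_tendsto h1 (Filter.Eventually.of_forall (fun N => hsecond N n s hs t ht))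
    change HasDerivWithinAt (b n) (F c (fun k => b k t) n) (Icc 0 T) t
    rw [hasDerivWithinAt_iff_isLittleO]
    have h2 : (fun x => b n x - b n t - (x - t) • F c (fun k => b k t) n)
        =O[𝓝[Icc 0 T] t] (fun x => (x - t) ^ 2) := by
      refine Asymptotics.IsBigO.of_bound (C c n) ?_
      filter_upwards [self_mem_nhdsWithin] with x hx
      have h3 := key x hx
      rw [smul_eq_mul, Real.norm_eq_abs, Real.norm_eq_abs, abs_pow]
      exact h3
    refine h2.trans_isLittleO ?_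
    have h4 : (fun x : ℝ => (x - t) ^ 2) =o[𝓝 t] (fun x => x - t) := by
      have h5 : Tendsto (fun x : ℝ => x - t) (𝓝 t) (𝓝 0) := by
        have : Tendsto (fun x : ℝ => x - t) (𝓝 t) (𝓝 (t - t)) :=
          (continuous_id.sub continuous_const).tendsto t
        rwa [sub_self] at this
      have h6 := (Asymptotics.isLittleO_pow_id (𝕜 := ℝ) (n := 2) one_lt_two).comp_tendsto h5
      exact h6
    exact h4.mono nhdsWithin_le_nhds

end Pool.Agent.Work.MP_b0497c_an.Dec
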