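import Pool.Agent.Work.MP_b0497c_an.Dec.DyadicCore
import Pool.Agent.Work.MP_b0497c_an.Dec.WeakLimit
import Pool.Agent.Work.MP_b0497c_an.Dec.Riccati

set_option autoImplicit false

/-!
Item B4: the maximal regular interval of the dyadic model.
-/

namespace Pool.Agent.Work.MP_b0497c_an.Dec

open Set MeasureTheory RealInnerProductSpace Pool.Agent.Work.MP_b0497c_an Filter Topology
open scoped ContDiff

theorem dyadic (c : ℕ → ℝ) (R : ℝ) (h0 : ∀ n, 0 < c n) (h1 : ∀ n, c (n + 1) ≤ R * c n)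
    (h2 : ∀ n, c n ≤ (3 / 2) * c (n + 1)) (h3 : Summable fun n => (3 / 2 : ℝ) ^ n / c n) :
    ∃ (T : ℝ) (b b' : ℕ → ℝ → ℝ), 0 < T ∧
      (∀ n t, t < T → HasDerivAt (b n) (b' n t) t) ∧
      (∀ n, ContinuousOn (b' n) (Iio T)) ∧
      (∀ n, b n 0 = if n = 0 then 1 else 0) ∧
      (∀ n, ∀ t ∈ Ico 0 T, b' n t =
        (if n = 0 then 0 else c (n - 1) * b (n - 1) t ^ 2) - c n * b n t * b (n + 1) t) ∧
      (∀ T' < T, ∀ ρ : ℝ, ∃ K : ℝ, ∀ n, ∀ t ∈ Icc (-1) T',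
        |b n t| * ρ ^ n ≤ K ∧ |b' n t| * ρ ^ n ≤ K) ∧
      (∀ μ : ℝ → ℝ, (∀ n, ∀ t ∈ Ioo 0 T, c n * |b n t| ≤ μ t) → ¬ IntegrableOn μ (Ioo 0 T)) := by
  obtain ⟨Tmax, hTm0, hTm⟩ := life_le c h0 h2 h3
  obtain ⟨β, hβ0, hβ1, hβ2⟩ := weak_limit c (fun n => (h0 n).le) (Tmax + 1) (by linarith)
  have h : Sol c (Tmax + 1) β := ⟨hβ0, hβ1, hβ2⟩
  refine dyadic_core h (by linarith) h0 (R := max R 1) ?_ h2 (le_max_right _ _)
    (by linarith : Tmax < Tmax + 1) ?_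
  · intro n
    exact (h1 n).trans (mul_le_mul_of_nonneg_right (le_max_left _ _) (h0 n).le)
  · intro T hT hTT hK
    have hsub : Ico 0 T ⊆ Icc 0 (Tmax + 1) := fun t ht => ⟨ht.1, ht.2.le.trans hTT⟩
    exact hTm T β hT hβ0 (fun n t ht => (hβ1 n t (hsub ht)).1)
      (fun n t ht => (hβ2 n t (hsub ht)).mono hsub) hK

end Pool.Agent.Work.MP_b0497c_an.Dec
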