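import Pool.Agent.Work.MP_b0497c_an.Dec.Defs

set_option autoImplicit false

/-!
The dyadic model: maximal regular interval, core argument.
-/

namespace Pool.Agent.Work.MP_b0497c_an.Dec

open Set MeasureTheory RealInnerProductSpace Pool.Agent.Work.MP_b0497c_an Filter Topology
open scoped ContDiff

/-- The right hand side of the dyadic model. -/
def Fd (c : ℕ → ℝ) (β : ℕ → ℝ → ℝ) (n : ℕ) (t : ℝ) : ℝ :=
  (if n = 0 then 0 else c (n - 1) * β (n - 1) t ^ 2) - c n * β n t * β (n + 1) t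

/-- Solutions on a closed interval. -/
structure Sol (c : ℕ → ℝ) (T0 : ℝ) (β : ℕ → ℝ → ℝ) : Prop where
  init : ∀ n, β n 0 = if n = 0 then 1 else 0
  bd : ∀ n, ∀ t ∈ Icc 0 T0, 0 ≤ β n t ∧ β n t ≤ 1
  der : ∀ n, ∀ t ∈ Icc 0 T0, HasDerivWithinAt (β n) (Fd c β n t) (Icc 0 T0) t

/-- The regularity criterion. -/
def Good (c : ℕ → ℝ) (R : ℝ) (β : ℕ → ℝ → ℝ) (t : ℝ) : Prop :=
  ∃ (n : ℕ) (z : ℝ), 0 ≤ z ∧ z < 1 ∧ ∀ s ∈ Icc 0 t, R * t * c n * β n s ≤ z

variable {c : ℕ → ℝ} {R T0 : ℝ} {β : ℕ → ℝ → ℝ}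

lemma Sol.cont (h : Sol c T0 β) (n : ℕ) : ContinuousOn (β n) (Icc 0 T0) :=
  fun t ht => (h.der n t ht).continuousWithinAt

lemma Sol.contF (h : Sol c T0 β) (n : ℕ) : ContinuousOn (Fd c β n) (Icc 0 T0) := by
  unfold Fd
  by_cases hn : n = 0
  · simp only [hn, if_true]
    exact continuousOn_const.sub ((continuousOn_const.mul (h.cont 0)).mul (h.cont _))
  · simp only [hn, if_false]
    exact (continuousOn_const.mul ((h.cont _).pow 2)).sub
      ((continuousOn_const.mul (h.cont _)).mul (h.cont _))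

lemma Fd_succ_le (h : Sol c T0 β) (h0 : ∀ n, 0 < c n) (n : ℕ) {s : ℝ} (hs : s ∈ Icc 0 T0) :
    Fd c β (n + 1) s ≤ c n * β n s ^ 2 := by
  have h1 := h.bd (n + 1) s hs
  have h2 := h.bd (n + 2) s hs
  have h3 : 0 ≤ c (n + 1) * β (n + 1) s * β (n + 1 + 1) s :=
    mul_nonneg (mul_nonneg (h0 _).le h1.1) h2.1
  simp only [Fd, Nat.add_eq_zero_iff, one_ne_zero, and_false, if_false, Nat.add_sub_cancel]
  linarith

lemma Sol.step_bound (h : Sol c T0 β) (h0 : ∀ n, 0 < c n) {t A : ℝ} (ht : t ∈ Icc 0 T0) (n : ℕ)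
    (hA : ∀ s ∈ Icc 0 t, β n s ≤ A) : ∀ s ∈ Icc 0 t, β (n + 1) s ≤ c n * A ^ 2 * s := by
  have hsub : Icc 0 t ⊆ Icc 0 T0 := Icc_subset_Icc_right ht.2
  have hmono : MonotoneOn (fun s => c n * A ^ 2 * s - β (n + 1) s) (Icc 0 t) := by
    refine monotoneOn_of_hasDerivWithinAt_nonneg (convex_Icc 0 t)
      (f' := fun s => c n * A ^ 2 * 1 - Fd c β (n + 1) s) ?_ ?_ ?_
    · exact (continuousOn_const.mul continuousOn_id).sub ((h.cont _).mono hsub)
    · intro s hs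
      exact ((hasDerivWithinAt_id s _).const_mul _).sub
        ((h.der _ s (hsub (interior_subset hs))).mono (interior_subset.trans hsub))
    · intro s hs
      have hs' := interior_subset hs
      have h1 := h.bd n s (hsub hs')
      have h2 := Fd_succ_le h h0 n (hsub hs')
      have h3 : β n s ^ 2 ≤ A ^ 2 := pow_le_pow_left₀ h1.1 (hA s hs') 2
      have h4 : c n * β n s ^ 2 ≤ c n * A ^ 2 := mul_le_mul_of_nonneg_left h3 (h0 n).le
      show 0 ≤ c n * A ^ 2 * 1 - Fd c β (n + 1) s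
      linarith
  intro s hs
  have := hmono (left_mem_Icc.2 ht.1) hs hs.1
  simp [h.init] at this
  linarith

lemma c_le (hR : 1 ≤ R) (h1 : ∀ n, c (n + 1) ≤ R * c n) (n : ℕ) : c n ≤ c 0 * R ^ n := by
  induction n with
  | zero => simp
  | succ n ih =>
    calc c (n + 1) ≤ R * c n := h1 n
      _ ≤ R * (c 0 * R ^ n) := by gcongr
      _ = c 0 * R ^ (n + 1) := by ring

lemma le_c (h2 : ∀ n, c n ≤ (3 / 2) * c (n + 1)) (n : ℕ) : c 0 ≤ (3 / 2) ^ n * c n := by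
  induction n with
  | zero => simp
  | succ n ih =>
    calc c 0 ≤ (3 / 2) ^ n * c n := ih
      _ ≤ (3 / 2) ^ n * ((3 / 2) * c (n + 1)) := by gcongr; exact h2 n
      _ = (3 / 2) ^ (n + 1) * c (n + 1) := by ring

lemma Sol.iter (h : Sol c T0 β) (h0 : ∀ n, 0 < c n) (h1 : ∀ n, c (n + 1) ≤ R * c n)
    (hR : 1 ≤ R) {t : ℝ} (ht : 0 < t) (ht' : t ≤ T0) {m : ℕ} {z : ℝ} (hz0 : 0 ≤ z)
    (hz : ∀ s ∈ Icc 0 t, R * t * c m * β m s ≤ z) (j : ℕ) :
    ∀ s ∈ Icc 0 t, R * t * c (m + j) * β (m + j) s ≤ z ^ (2 ^ j) := by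
  induction j with
  | zero => simpa using hz
  | succ j ih =>
    intro s hs
    have hc := h0 (m + j)
    have hpos : 0 < R * t * c (m + j) := by positivity
    set A : ℝ := z ^ (2 ^ j) / (R * t * c (m + j)) with hA
    have hAle : ∀ s ∈ Icc 0 t, β (m + j) s ≤ A := by
      intro s hs
      rw [hA, le_div_iff₀ hpos]
      have := ih s hs
      linarith
    have hb := h.step_bound h0 ⟨ht.le, ht'⟩ (m + j) hAle s hs
    have hRA : R * t * c (m + j) * A = z ^ (2 ^ j) := by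
      rw [hA]; field_simp
    have h3 : β (m + j + 1) s ≤ c (m + j) * A ^ 2 * t :=
      hb.trans (mul_le_mul_of_nonneg_left hs.2 (by positivity))
    have hc1 := h0 (m + j + 1)
    have h4 : 0 ≤ c (m + j) * A ^ 2 * t := by positivity
    calc R * t * c (m + (j + 1)) * β (m + (j + 1)) s
        = R * t * c (m + j + 1) * β (m + j + 1) s := by rw [add_assoc]
      _ ≤ R * t * c (m + j + 1) * (c (m + j) * A ^ 2 * t) := by gcongr
      _ ≤ R * t * (R * c (m + j)) * (c (m + j) * A ^ 2 * t) := by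
          gcongr
          exact h1 _
      _ = (R * t * c (m + j) * A) ^ 2 := by ring
      _ = z ^ (2 ^ (j + 1)) := by rw [hRA, ← pow_mul, pow_succ]

lemma pow_pow_bounded {z : ℝ} (hz0 : 0 ≤ z) (hz1 : z < 1) (a : ℝ) (ha : 1 ≤ a) :
    ∃ K : ℝ, 0 ≤ K ∧ ∀ j : ℕ, z ^ (2 ^ j) * a ^ j ≤ K := by
  obtain ⟨k, hk⟩ := pow_unbounded_of_one_lt a (one_lt_two : (1 : ℝ) < 2)
  have h := tendsto_pow_const_mul_const_pow_of_abs_lt_one k
    (show |z| < 1 by rwa [abs_of_nonneg hz0])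
  obtain ⟨K, hK⟩ := h.bddAbove_range
  refine ⟨max K 0, le_max_right _ _, fun j => ?_⟩
  have h1 := hK ⟨2 ^ j, rfl⟩
  simp only [Nat.cast_pow, Nat.cast_ofNat] at h1
  calc z ^ (2 ^ j) * a ^ j ≤ z ^ (2 ^ j) * ((2 : ℝ) ^ k) ^ j := by gcongr
    _ = ((2 : ℝ) ^ j) ^ k * z ^ (2 ^ j) := by rw [← pow_mul, ← pow_mul, mul_comm k j]; ring
    _ ≤ K := h1
    _ ≤ max K 0 := le_max_left _ _

lemma Sol.decay (h : Sol c T0 β) (h0 : ∀ n, 0 < c n) (h1 : ∀ n, c (n + 1) ≤ R * c n)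
    (h2 : ∀ n, c n ≤ (3 / 2) * c (n + 1))
    (hR : 1 ≤ R) {t : ℝ} (ht : 0 < t) (ht' : t ≤ T0) (hg : Good c R β t) (ρ : ℝ) (hρ : 1 ≤ ρ) :
    ∃ K : ℝ, 0 ≤ K ∧ ∀ n, ∀ s ∈ Icc 0 t, β n s * ρ ^ n ≤ K := by
  obtain ⟨m, z, hz0, hz1, hz⟩ := hg
  obtain ⟨K0, hK0, hK⟩ := pow_pow_bounded hz0 hz1 (3 / 2 * ρ) (by linarith)
  have hc0 := h0 0
  refine ⟨ρ ^ m + (3 / 2 * ρ) ^ m * K0 / (R * t * c 0), by positivity, fun n s hs => ?_⟩
  have hsT : s ∈ Icc 0 T0 := ⟨hs.1, hs.2.trans ht'⟩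
  rcases lt_or_ge n m with hn | hn
  · have hb := (h.bd n s hsT)
    calc β n s * ρ ^ n ≤ 1 * ρ ^ m := by
          apply mul_le_mul hb.2 (pow_le_pow_right₀ hρ hn.le) (by positivity) zero_le_one
      _ ≤ ρ ^ m + (3 / 2 * ρ) ^ m * K0 / (R * t * c 0) := by
          have : 0 ≤ (3 / 2 * ρ) ^ m * K0 / (R * t * c 0) := by positivity
          linarith
  · obtain ⟨j, rfl⟩ := Nat.exists_eq_add_of_le hn
    have hi := h.iter h0 h1 hR ht ht' hz0 hz j s hs
    have hb := (h.bd (m + j) s hsT)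
    have hcl := le_c h2 (m + j)
    have hkey : β (m + j) s * (R * t * c 0) ≤ z ^ (2 ^ j) * (3 / 2) ^ (m + j) := by
      calc β (m + j) s * (R * t * c 0) ≤ β (m + j) s * (R * t * ((3 / 2) ^ (m + j) * c (m + j))) := by
            have := hb.1
            gcongr
        _ = (R * t * c (m + j) * β (m + j) s) * (3 / 2) ^ (m + j) := by ring
        _ ≤ z ^ (2 ^ j) * (3 / 2) ^ (m + j) := by gcongr
    have hkey2 : β (m + j) s * ρ ^ (m + j) ≤ (3 / 2 * ρ) ^ m * K0 / (R * t * c 0) := by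
      rw [le_div_iff₀ (by positivity)]
      calc β (m + j) s * ρ ^ (m + j) * (R * t * c 0)
          = (β (m + j) s * (R * t * c 0)) * ρ ^ (m + j) := by ring
        _ ≤ (z ^ (2 ^ j) * (3 / 2) ^ (m + j)) * ρ ^ (m + j) := by gcongr
        _ = (3 / 2 * ρ) ^ m * (z ^ (2 ^ j) * (3 / 2 * ρ) ^ j) := by
            rw [mul_pow, mul_pow, pow_add, pow_add]; ring
        _ ≤ (3 / 2 * ρ) ^ m * K0 := by
            apply mul_le_mul_of_nonneg_left (hK j) (by positivity)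
    have : 0 ≤ ρ ^ m := by positivity
    linarith

lemma Sol.decayF (h : Sol c T0 β) (h0 : ∀ n, 0 < c n) (h1 : ∀ n, c (n + 1) ≤ R * c n)
    (h2 : ∀ n, c n ≤ (3 / 2) * c (n + 1))
    (hR : 1 ≤ R) {t : ℝ} (ht : 0 < t) (ht' : t ≤ T0) (hg : Good c R β t) (ρ : ℝ) (hρ : 1 ≤ ρ) :
    ∃ K : ℝ, 0 ≤ K ∧ ∀ n, ∀ s ∈ Icc 0 t, |Fd c β n s| * ρ ^ n ≤ K := by
  obtain ⟨K, hK0, hK⟩ := h.decay h0 h1 h2 hR ht ht' hg (R * ρ)
    (by nlinarith)
  have hc0 := h0 0
  have hcn := fun n => c_le hR h1 n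
  refine ⟨c 0 * ρ * K + c 0 * K, by positivity, fun n s hs => ?_⟩
  have hsT : s ∈ Icc 0 T0 := ⟨hs.1, hs.2.trans ht'⟩
  have hb := fun n => h.bd n s hsT
  have hrest : c n * β n s * β (n + 1) s * ρ ^ n ≤ c 0 * K := by
    have e1 := hb n
    have e2 := hb (n + 1)
    have e3 := h0 n
    calc c n * β n s * β (n + 1) s * ρ ^ n ≤ (c 0 * R ^ n) * β n s * 1 * ρ ^ n := by
          have := e1.1
          have := e2.1
          gcongr
          · exact hcn n
          · exact e2.2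
      _ = c 0 * (β n s * (R * ρ) ^ n) := by rw [mul_pow]; ring
      _ ≤ c 0 * K := mul_le_mul_of_nonneg_left (hK n s hs) hc0.le
  have hrest0 : 0 ≤ c n * β n s * β (n + 1) s :=
    mul_nonneg (mul_nonneg (h0 n).le (hb n).1) (hb (n + 1)).1
  rcases n with _ | n
  · simp only [Fd, if_true, zero_sub, abs_neg]
    rw [abs_of_nonneg hrest0]
    have : 0 ≤ c 0 * ρ * K := by positivity
    linarith
  · have hfirst : c n * β n s ^ 2 * ρ ^ (n + 1) ≤ c 0 * ρ * K := by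
      have e1 := hb n
      calc c n * β n s ^ 2 * ρ ^ (n + 1) = c n * (β n s * β n s) * ρ ^ (n + 1) := by ring
        _ ≤ (c 0 * R ^ n) * (β n s * 1) * ρ ^ (n + 1) := by
          have := e1.1
          gcongr
          · exact hcn n
          · exact e1.2
        _ = c 0 * ρ * (β n s * (R * ρ) ^ n) := by rw [mul_pow]; ring
        _ ≤ c 0 * ρ * K := mul_le_mul_of_nonneg_left (hK n s hs) (by positivity)
    have hfirst0 : 0 ≤ c n * β n s ^ 2 := mul_nonneg (h0 n).le (sq_nonneg _)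
    simp only [Fd, Nat.add_eq_zero_iff, one_ne_zero, and_false, if_false, Nat.add_sub_cancel]
    calc |c n * β n s ^ 2 - c (n + 1) * β (n + 1) s * β (n + 1 + 1) s| * ρ ^ (n + 1)
        ≤ (c n * β n s ^ 2 + c (n + 1) * β (n + 1) s * β (n + 1 + 1) s) * ρ ^ (n + 1) := by
          apply mul_le_mul_of_nonneg_right _ (by positivity)
          rw [abs_le]
          constructor <;> linarith
      _ = c n * β n s ^ 2 * ρ ^ (n + 1) +
          c (n + 1) * β (n + 1) s * β (n + 1 + 1) s * ρ ^ (n + 1) := by ring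
      _ ≤ c 0 * ρ * K + c 0 * K := add_le_add hfirst hrest

lemma Good.mono {t t' : ℝ} (h : Sol c T0 β) (h0 : ∀ n, 0 < c n) (hR : 1 ≤ R)
    (hg : Good c R β t) (ht' : 0 ≤ t') (htt : t' ≤ t) (htT : t ≤ T0) : Good c R β t' := by
  obtain ⟨n, z, hz0, hz1, hz⟩ := hg
  refine ⟨n, z, hz0, hz1, fun s hs => ?_⟩
  have hb := (h.bd n s ⟨hs.1, (hs.2.trans htt).trans htT⟩).1
  have hc := h0 n
  calc R * t' * c n * β n s ≤ R * t * c n * β n s := by gcongr
    _ ≤ z := hz s ⟨hs.1, hs.2.trans htt⟩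

lemma Good.extend {t : ℝ} (h : Sol c T0 β) (h0 : ∀ n, 0 < c n) (hR : 1 ≤ R) (ht : 0 < t)
    (htT : t < T0) (hg : Good c R β t) : ∃ t', t < t' ∧ t' ≤ T0 ∧ Good c R β t' := by
  obtain ⟨n, z, hz0, hz1, hz⟩ := hg
  have hc := h0 n
  have hpos : 0 < R * t * c n := by positivity
  obtain ⟨A, hA⟩ : ∃ A : ℝ, A = ((1 + z) / 2) / (R * t * c n) := ⟨_, rfl⟩
  have hA0 : 0 ≤ A := by rw [hA]; positivity
  have hRA : R * t * c n * A = (1 + z) / 2 := by rw [hA]; field_simp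
  have hlt : β n t < A := by
    rw [hA, lt_div_iff₀ hpos]
    have := hz t ⟨ht.le, le_rfl⟩
    linarith
  have hev : ∀ᶠ s in 𝓝[Icc 0 T0] t, β n s < A :=
    (h.cont n t ⟨ht.le, htT.le⟩).eventually (gt_mem_nhds hlt)
  obtain ⟨δ, hδ, hball⟩ := Metric.mem_nhdsWithin_iff.1 hev
  have hd1 : 0 < min (δ / 2) (t * ((1 - z) / 4)) := by
    have : 0 < (1 - z) / 4 := by linarith
    positivity
  refine ⟨min T0 (t + min (δ / 2) (t * ((1 - z) / 4))), ?_, min_le_left _ _, n,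
    (1 + (1 - z) / 4) * ((1 + z) / 2), ?_, ?_, ?_⟩
  · exact lt_min htT (by linarith)
  · have : 0 ≤ 1 - z := by linarith
    positivity
  · nlinarith
  · intro s hs
    have hs2 : s ≤ t + min (δ / 2) (t * ((1 - z) / 4)) := hs.2.trans (min_le_right _ _)
    have hsT : s ∈ Icc 0 T0 := ⟨hs.1, hs.2.trans (min_le_left _ _)⟩
    have hβ : β n s ≤ A := by
      rcases le_or_gt s t with hst | hst
      · rw [hA, le_div_iff₀ hpos]
        have := hz s ⟨hs.1, hst⟩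
        linarith
      · have : s ∈ Metric.ball t δ ∩ Icc 0 T0 := by
          refine ⟨?_, hsT⟩
          rw [Metric.mem_ball, Real.dist_eq, abs_of_pos (by linarith)]
          have := min_le_left (δ / 2) (t * ((1 - z) / 4))
          linarith
        exact (hball this).le
    have ht' : min T0 (t + min (δ / 2) (t * ((1 - z) / 4))) ≤ t * (1 + (1 - z) / 4) := by
      have h1 := min_le_right T0 (t + min (δ / 2) (t * ((1 - z) / 4)))
      have h2 := min_le_right (δ / 2) (t * ((1 - z) / 4))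
      linarith
    have ht'0 : 0 ≤ min T0 (t + min (δ / 2) (t * ((1 - z) / 4))) := hs.1.trans hs.2
    have hb0 := (h.bd n s hsT).1
    have hz4 : 0 ≤ 1 - z := by linarith
    calc R * min T0 (t + min (δ / 2) (t * ((1 - z) / 4))) * c n * β n s
        ≤ R * (t * (1 + (1 - z) / 4)) * c n * A := by gcongr
      _ = (1 + (1 - z) / 4) * (R * t * c n * A) := by ring
      _ = (1 + (1 - z) / 4) * ((1 + z) / 2) := by rw [hRA]

lemma Sol.ftc (h : Sol c T0 β) (n : ℕ) {s t : ℝ} (hs : 0 ≤ s) (hst : s ≤ t) (ht : t ≤ T0) :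
    IntervalIntegrable (Fd c β n) volume s t ∧
    ∫ τ in s..t, Fd c β n τ = β n t - β n s := by
  have hsub : Icc s t ⊆ Icc 0 T0 := Icc_subset_Icc hs ht
  have hint : IntervalIntegrable (Fd c β n) volume s t := by
    apply ContinuousOn.intervalIntegrable
    rw [uIcc_of_le hst]
    exact (h.contF n).mono hsub
  refine ⟨hint, ?_⟩
  refine intervalIntegral.integral_eq_sub_of_hasDerivAt_of_le hst ((h.cont n).mono hsub) ?_ hint
  intro x hx
  exact (h.der n x ⟨hs.trans hx.1.le, hx.2.le.trans ht⟩).hasDerivAt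
    (Icc_mem_nhds (hs.trans_lt hx.1) (hx.2.trans_le ht))

lemma Sol.good_of_integrable (h : Sol c T0 β) (h0 : ∀ n, 0 < c n)
    (h1 : ∀ n, c (n + 1) ≤ R * c n) (h2 : ∀ n, c n ≤ (3 / 2) * c (n + 1)) (hR : 1 ≤ R)
    {T : ℝ} (hT : 0 < T) (hTT : T ≤ T0)
    (hgood : ∀ T', 0 < T' → T' < T → Good c R β T') (μ : ℝ → ℝ) (hμ0 : ∀ t, 0 ≤ μ t)
    (hμ : ∀ n, ∀ t ∈ Ioo 0 T, c n * β n t ≤ μ t)
    (hint : IntegrableOn μ (Ioo 0 T)) : Good c R β T := by
  have hii : IntervalIntegrable μ volume 0 T :=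
    (intervalIntegrable_iff_integrableOn_Ioo_of_le hT.le).2 hint
  have hintI : IntegrableOn μ (uIcc 0 T) := by
    rw [uIcc_of_le hT.le]
    exact (integrableOn_Icc_iff_integrableOn_Ioo).2 hint
  have hcF := intervalIntegral.continuousOn_primitive_interval_left hintI
  rw [uIcc_of_le hT.le] at hcF
  have hd0 : 0 < 1 / (4 * R) := by positivity
  have hev : ∀ᶠ s in 𝓝[Icc 0 T] T, ∫ x in s..T, μ x < 1 / (4 * R) := by
    refine (hcF T ⟨hT.le, le_rfl⟩).eventually (gt_mem_nhds ?_)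
    show ∫ x in T..T, μ x < 1 / (4 * R)
    rw [intervalIntegral.integral_same]
    exact hd0
  have hev2 : ∀ᶠ s in 𝓝[<] T, ∫ x in s..T, μ x < 1 / (4 * R) := by
    have hle : 𝓝[<] T ≤ 𝓝[Icc 0 T] T := by
      rw [← nhdsWithin_Ioo_eq_nhdsLT hT]
      exact nhdsWithin_mono _ Ioo_subset_Icc_self
    exact hev.filter_mono hle
  obtain ⟨s, hs1, hs2⟩ := (hev2.and (Ioo_mem_nhdsLT hT)).exists
  obtain ⟨d, hd⟩ : ∃ d : ℝ, d = 1 / (4 * R) := ⟨_, rfl⟩
  rw [← hd] at hs1 hd0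
  have hRd : R * d = 1 / 4 := by rw [hd]; field_simp
  have h4Rd : (4 * R) * d = 1 := by linarith
  obtain ⟨K, hK0, hK⟩ := h.decay h0 h1 h2 hR hs2.1 (hs2.2.le.trans hTT) (hgood s hs2.1 hs2.2)
    (4 * R) (by linarith)
  have hKd : ∀ n, ∀ τ ∈ Icc 0 s, β n τ ≤ K * d ^ n := by
    intro n τ hτ
    have := hK n τ hτ
    calc β n τ = β n τ * ((4 * R) * d) ^ n := by rw [h4Rd, one_pow, mul_one]
      _ = β n τ * (4 * R) ^ n * d ^ n := by rw [mul_pow]; ring
      _ ≤ K * d ^ n := mul_le_mul_of_nonneg_right this (by positivity)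
  have hmain : ∀ n : ℕ, ∀ t ∈ Icc s T, β n t ≤ (n + 1) * (K + 1) * d ^ n := by
    intro n
    induction n with
    | zero =>
      intro t ht
      have := (h.bd 0 t ⟨hs2.1.le.trans ht.1, ht.2.trans hTT⟩).2
      simp only [Nat.cast_zero, zero_add, one_mul, pow_zero, mul_one]
      linarith
    | succ n ih =>
      intro t ht
      obtain ⟨hi, hf⟩ := h.ftc (n + 1) hs2.1.le ht.1 (ht.2.trans hTT)
      have hiμ : IntervalIntegrable μ volume s t := hii.mono_set (by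
        rw [uIcc_of_le ht.1, uIcc_of_le hT.le]
        exact Icc_subset_Icc hs2.1.le ht.2)
      have hiμ2 : IntervalIntegrable μ volume t T := hii.mono_set (by
        rw [uIcc_of_le ht.2, uIcc_of_le hT.le]
        exact Icc_subset_Icc (hs2.1.le.trans ht.1) le_rfl)
      obtain ⟨B, hB⟩ : ∃ B : ℝ, B = (n + 1) * (K + 1) * d ^ n := ⟨_, rfl⟩
      have hB0 : 0 ≤ B := by rw [hB]; positivity
      have hle : ∫ τ in s..t, Fd c β (n + 1) τ ≤ ∫ τ in s..t, μ τ * B := by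
        refine intervalIntegral.integral_mono_on_of_le_Ioo ht.1 hi (hiμ.mul_const B) ?_
        intro x hx
        have hx0 : x ∈ Ioo 0 T := ⟨hs2.1.trans hx.1, hx.2.trans_le ht.2⟩
        have hxT : x ∈ Icc 0 T0 := ⟨hx0.1.le, hx0.2.le.trans hTT⟩
        have e1 := Fd_succ_le h h0 n hxT
        have e2 := hμ n x hx0
        have e3 := ih x ⟨hx.1.le, hx0.2.le⟩
        rw [← hB] at e3
        have e4 := (h.bd n x hxT).1
        calc Fd c β (n + 1) x ≤ c n * β n x ^ 2 := e1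
          _ = (c n * β n x) * β n x := by ring
          _ ≤ μ x * B := mul_le_mul e2 e3 e4 (hμ0 x)
      have hle2 : ∫ τ in s..t, μ τ ≤ d := by
        have := intervalIntegral.integral_add_adjacent_intervals hiμ hiμ2
        have h3 : 0 ≤ ∫ τ in t..T, μ τ := intervalIntegral.integral_nonneg ht.2 fun u _ => hμ0 u
        linarith
      rw [intervalIntegral.integral_mul_const] at hle
      have hKs := hKd (n + 1) s ⟨hs2.1.le, le_rfl⟩
      calc β (n + 1) t = β (n + 1) s + ∫ τ in s..t, Fd c β (n + 1) τ := by rw [hf]; ring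
        _ ≤ K * d ^ (n + 1) + (∫ τ in s..t, μ τ) * B := add_le_add hKs hle
        _ ≤ K * d ^ (n + 1) + d * B := by
            have := mul_le_mul_of_nonneg_right hle2 hB0
            linarith
        _ = (K + (n + 1) * (K + 1)) * d ^ (n + 1) := by rw [hB]; ring
        _ ≤ ((n + 1 : ℕ) + 1) * (K + 1) * d ^ (n + 1) := by
            apply mul_le_mul_of_nonneg_right _ (by positivity)
            push_cast
            nlinarith
  have htend : Tendsto (fun n : ℕ => R * T * (c 0 * (K + 1)) * ((n : ℝ) ^ 1 * (1 / 4 : ℝ) ^ n +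
      (1 / 4 : ℝ) ^ n)) atTop (𝓝 (R * T * (c 0 * (K + 1)) * (0 + 0))) := by
    refine Tendsto.const_mul _ (Tendsto.add ?_ ?_)
    · exact tendsto_pow_const_mul_const_pow_of_abs_lt_one 1 (by rw [abs_of_pos] <;> norm_num)
    · exact tendsto_pow_atTop_nhds_zero_of_lt_one (by norm_num) (by norm_num)
  have hev3 : ∀ᶠ n : ℕ in atTop, R * T * (c 0 * (K + 1)) * ((n : ℝ) ^ 1 * (1 / 4 : ℝ) ^ n +
      (1 / 4 : ℝ) ^ n) < 1 / 2 := by
    refine htend.eventually (gt_mem_nhds ?_)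
    norm_num
  obtain ⟨n, hn⟩ := hev3.exists
  refine ⟨n, 1 / 2, by norm_num, by norm_num, fun t ht => ?_⟩
  have hcn := c_le hR h1 n
  have hc0 := h0 0
  have hb := (h.bd n t ⟨ht.1, ht.2.trans hTT⟩).1
  have hβ : β n t ≤ (n + 1) * (K + 1) * d ^ n := by
    rcases le_total t s with hts | hts
    · refine (hKd n t ⟨ht.1, hts⟩).trans ?_
      apply mul_le_mul_of_nonneg_right _ (by positivity)
      have : 0 ≤ (n : ℝ) * (K + 1) := by positivity
      nlinarith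
    · exact hmain n t ⟨hts, ht.2⟩
  calc R * T * c n * β n t ≤ R * T * (c 0 * R ^ n) * ((n + 1) * (K + 1) * d ^ n) := by
        gcongr
    _ = R * T * (c 0 * (K + 1)) * ((n : ℝ) ^ 1 * (R * d) ^ n + (R * d) ^ n) := by
        rw [mul_pow]; ring
    _ ≤ 1 / 2 := by rw [hRd]; exact hn.le


/-- The solution extended linearly to negative times. -/
noncomputable def bext (c : ℕ → ℝ) (β : ℕ → ℝ → ℝ) (n : ℕ) (t : ℝ) : ℝ :=
  β n (max t 0) + min t 0 * Fd c β n 0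

lemma bext_of_nonneg (c : ℕ → ℝ) (β : ℕ → ℝ → ℝ) (n : ℕ) {t : ℝ} (ht : 0 ≤ t) :
    bext c β n t = β n t := by
  rw [bext, max_eq_left ht, min_eq_right ht]; ring

lemma bext_of_nonpos (c : ℕ → ℝ) (β : ℕ → ℝ → ℝ) (n : ℕ) {t : ℝ} (ht : t ≤ 0) :
    bext c β n t = β n 0 + t * Fd c β n 0 := by
  rw [bext, max_eq_right ht, min_eq_left ht]

lemma Sol.hasDerivAt_bext (h : Sol c T0 β) (n : ℕ) {t : ℝ} (htT : t < T0) (hT0 : 0 < T0) :
    HasDerivAt (bext c β n) (Fd c β n (max t 0)) t := by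
  rcases lt_trichotomy t 0 with ht | ht | ht
  · rw [max_eq_right ht.le]
    have h1 : HasDerivAt (fun s : ℝ => β n 0 + s * Fd c β n 0) (1 * Fd c β n 0) t :=
      ((hasDerivAt_id t).mul_const _).const_add _
    rw [one_mul] at h1
    refine h1.congr_of_eventuallyEq ?_
    filter_upwards [Iio_mem_nhds ht] with s hs
    exact bext_of_nonpos c β n (le_of_lt hs)
  · subst ht
    rw [max_self]
    have hR : HasDerivWithinAt (bext c β n) (Fd c β n 0) (Ici 0) 0 := by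
      have h1 : HasDerivWithinAt (β n) (Fd c β n 0) (Ici 0) 0 :=
        (h.der n 0 ⟨le_rfl, hT0.le⟩).mono_of_mem_nhdsWithin (Icc_mem_nhdsGE hT0)
      exact h1.congr (fun s hs => bext_of_nonneg c β n hs) (bext_of_nonneg c β n le_rfl)
    have hL : HasDerivWithinAt (bext c β n) (Fd c β n 0) (Iic 0) 0 := by
      have h1 : HasDerivAt (fun s : ℝ => β n 0 + s * Fd c β n 0) (1 * Fd c β n 0) 0 :=
        ((hasDerivAt_id 0).mul_const _).const_add _
      rw [one_mul] at h1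
      exact h1.hasDerivWithinAt.congr (fun s hs => bext_of_nonpos c β n hs)
        (bext_of_nonpos c β n le_rfl)
    have := hL.union hR
    rwa [Iic_union_Ici, hasDerivWithinAt_univ] at this
  · rw [max_eq_left ht.le]
    have h1 : HasDerivAt (β n) (Fd c β n t) t :=
      (h.der n t ⟨ht.le, htT.le⟩).hasDerivAt (Icc_mem_nhds ht htT)
    refine h1.congr_of_eventuallyEq ?_
    filter_upwards [Ioi_mem_nhds ht] with s hs
    exact bext_of_nonneg c β n (le_of_lt hs)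

theorem dyadic_core (h : Sol c T0 β) (hT0 : 0 < T0) (h0 : ∀ n, 0 < c n)
    (h1 : ∀ n, c (n + 1) ≤ R * c n)
    (h2 : ∀ n, c n ≤ (3 / 2) * c (n + 1)) (hR : 1 ≤ R) {Tmax : ℝ} (hTm : Tmax < T0)
    (hlife : ∀ T, 0 < T → T ≤ T0 →
      (∀ T' < T, ∃ K : ℝ, ∀ n, ∀ t ∈ Icc 0 T', c n * 2 ^ n * β n t ≤ K) → T ≤ Tmax) :
    ∃ (T : ℝ) (b b' : ℕ → ℝ → ℝ), 0 < T ∧
      (∀ n t, t < T → HasDerivAt (b n) (b' n t) t) ∧
      (∀ n, ContinuousOn (b' n) (Iio T)) ∧
      (∀ n, b n 0 = if n = 0 then 1 else 0) ∧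
      (∀ n, ∀ t ∈ Ico 0 T, b' n t =
        (if n = 0 then 0 else c (n - 1) * b (n - 1) t ^ 2) - c n * b n t * b (n + 1) t) ∧
      (∀ T' < T, ∀ ρ : ℝ, ∃ K : ℝ, ∀ n, ∀ t ∈ Icc (-1) T',
        |b n t| * ρ ^ n ≤ K ∧ |b' n t| * ρ ^ n ≤ K) ∧
      (∀ μ : ℝ → ℝ, (∀ n, ∀ t ∈ Ioo 0 T, c n * |b n t| ≤ μ t) → ¬ IntegrableOn μ (Ioo 0 T)) := by
  obtain ⟨S, hS⟩ : ∃ S : Set ℝ, S = {t | 0 < t ∧ t ≤ T0 ∧ Good c R β t} := ⟨_, rfl⟩
  have hbdd : BddAbove S := ⟨T0, fun t ht => by rw [hS] at ht; exact ht.2.1⟩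
  have hc0 := h0 0
  have ht1 : 0 < min T0 (1 / (2 * R * c 0)) := by positivity
  have hmem : min T0 (1 / (2 * R * c 0)) ∈ S := by
    rw [hS]
    refine ⟨ht1, min_le_left _ _, 0, 1 / 2, by norm_num, by norm_num, fun s hs => ?_⟩
    have hb := h.bd 0 s ⟨hs.1, hs.2.trans (min_le_left _ _)⟩
    have e1 : R * min T0 (1 / (2 * R * c 0)) * c 0 ≤ R * (1 / (2 * R * c 0)) * c 0 := by
      gcongr
      exact min_le_right _ _
    have e2 : R * (1 / (2 * R * c 0)) * c 0 = 1 / 2 := by field_simp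
    calc R * min T0 (1 / (2 * R * c 0)) * c 0 * β 0 s
        ≤ R * min T0 (1 / (2 * R * c 0)) * c 0 * 1 := by
          apply mul_le_mul_of_nonneg_left hb.2 (by positivity)
      _ ≤ 1 / 2 := by linarith
  obtain ⟨T, hT⟩ : ∃ T : ℝ, T = sSup S := ⟨_, rfl⟩
  have hT1 : 0 < T := by rw [hT]; exact ht1.trans_le (le_csSup hbdd hmem)
  have hTT0 : T ≤ T0 := by
    rw [hT]; exact csSup_le ⟨_, hmem⟩ fun t ht => by rw [hS] at ht; exact ht.2.1
  have hex : ∀ T' < T, ∃ t ∈ S, T' < t := by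
    intro T' hT'
    rw [hT] at hT'
    exact exists_lt_of_lt_csSup ⟨_, hmem⟩ hT'
  have hTmax : T ≤ Tmax := by
    refine hlife T hT1 hTT0 fun T' hT' => ?_
    obtain ⟨t, htS, ht'⟩ := hex T' hT'
    rw [hS] at htS
    obtain ⟨K, hK0, hK⟩ := h.decay h0 h1 h2 hR htS.1 htS.2.1 htS.2.2 (2 * R) (by linarith)
    refine ⟨c 0 * K, fun n s hs => ?_⟩
    have hs' : s ∈ Icc 0 t := ⟨hs.1, hs.2.trans ht'.le⟩
    have hb := (h.bd n s ⟨hs.1, hs'.2.trans htS.2.1⟩).1
    calc c n * 2 ^ n * β n s ≤ (c 0 * R ^ n) * 2 ^ n * β n s := by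
          gcongr
          exact c_le hR h1 n
      _ = c 0 * (β n s * (2 * R) ^ n) := by rw [mul_pow]; ring
      _ ≤ c 0 * K := mul_le_mul_of_nonneg_left (hK n s hs') hc0.le
  have hTlt : T < T0 := hTmax.trans_lt hTm
  have hnot : ¬ Good c R β T := by
    intro hg
    obtain ⟨t', ht', ht'0, hg'⟩ := hg.extend h h0 hR hT1 hTlt
    have : t' ≤ T := by
      rw [hT]
      refine le_csSup hbdd ?_
      rw [hS]
      exact ⟨hT1.trans ht', ht'0, hg'⟩
    linarith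
  refine ⟨T, bext c β, fun n t => Fd c β n (max t 0), hT1, ?_, ?_, ?_, ?_, ?_, ?_⟩
  · intro n t ht
    exact h.hasDerivAt_bext n (ht.trans_le hTT0) hT0
  · intro n
    refine (h.contF n).comp (by fun_prop) ?_
    intro t ht
    exact ⟨le_max_right _ _, max_le (le_of_lt (lt_of_lt_of_le ht hTT0)) hT0.le⟩
  · intro n
    rw [bext_of_nonneg c β n le_rfl, h.init]
  · intro n t ht
    simp only [max_eq_left ht.1, bext_of_nonneg c β _ ht.1]
    rfl
  · intro T' hT' ρ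
    obtain ⟨t, htS, ht'⟩ := hex (max T' 0) (max_lt hT' hT1)
    rw [hS] at htS
    have hρ' : 1 ≤ max |ρ| 1 := le_max_right _ _
    obtain ⟨K1, hK10, hK1⟩ := h.decay h0 h1 h2 hR htS.1 htS.2.1 htS.2.2 _ hρ'
    obtain ⟨K2, hK20, hK2⟩ := h.decayF h0 h1 h2 hR htS.1 htS.2.1 htS.2.2 _ hρ'
    refine ⟨K1 + K2, fun n s hs => ?_⟩
    have hρn : ρ ^ n ≤ (max |ρ| 1) ^ n := by
      refine (le_abs_self _).trans ?_
      rw [abs_pow]
      exact pow_le_pow_left₀ (abs_nonneg _) (le_max_left _ _) n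
    have hmx : max s 0 ∈ Icc 0 t := ⟨le_max_right _ _,
      (max_le_max_right 0 hs.2).trans ht'.le⟩
    have hmx0 : (0 : ℝ) ∈ Icc 0 t := ⟨le_rfl, htS.1.le⟩
    have hb := (h.bd n (max s 0) ⟨hmx.1, hmx.2.trans htS.2.1⟩).1
    have hpos : 0 ≤ (max |ρ| 1) ^ n := by positivity
    constructor
    · have hbe : |bext c β n s| ≤ β n (max s 0) + |Fd c β n 0| := by
        rw [bext]
        have hm : |min s 0| ≤ 1 := by
          rw [abs_le]
          refine ⟨le_min hs.1 (by norm_num), (min_le_right _ _).trans zero_le_one⟩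
        calc |β n (max s 0) + min s 0 * Fd c β n 0|
            ≤ |β n (max s 0)| + |min s 0 * Fd c β n 0| := abs_add_le _ _
          _ = β n (max s 0) + |min s 0| * |Fd c β n 0| := by rw [abs_of_nonneg hb, abs_mul]
          _ ≤ β n (max s 0) + 1 * |Fd c β n 0| := by gcongr
          _ = _ := by ring
      calc |bext c β n s| * ρ ^ n ≤ |bext c β n s| * (max |ρ| 1) ^ n := by gcongr
        _ ≤ (β n (max s 0) + |Fd c β n 0|) * (max |ρ| 1) ^ n := by gcongr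
        _ = β n (max s 0) * (max |ρ| 1) ^ n + |Fd c β n 0| * (max |ρ| 1) ^ n := by ring
        _ ≤ K1 + K2 := add_le_add (hK1 n _ hmx) (hK2 n 0 hmx0)
    · calc |Fd c β n (max s 0)| * ρ ^ n ≤ |Fd c β n (max s 0)| * (max |ρ| 1) ^ n := by gcongr
        _ ≤ K2 := hK2 n _ hmx
        _ ≤ K1 + K2 := by linarith
  · intro μ hμ hint
    apply hnot
    refine h.good_of_integrable h0 h1 h2 hR hT1 hTT0 ?_ (fun t => max (μ t) 0)
      (fun t => le_max_right _ _) ?_ hint.pos_part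
    · intro T' hT'0 hT'
      obtain ⟨t, htS, ht'⟩ := hex T' hT'
      rw [hS] at htS
      exact htS.2.2.mono h h0 hR hT'0.le ht'.le htS.2.1
    · intro n t ht
      refine le_trans ?_ (le_max_left _ _)
      refine le_trans ?_ (hμ n t ht)
      rw [bext_of_nonneg c β n ht.1.le]
      exact mul_le_mul_of_nonneg_left (le_abs_self _) (h0 n).le


end Pool.Agent.Work.MP_b0497c_an.Dec
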