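import Mathlib
import Pool.Agent.Work.MP_b0497c_an.Bd.B21

set_option autoImplicit false

/-! Conservation of energy for `C¹` solutions of the restricted Euler equations. -/

namespace Pool.Agent.Work.MP_b0497c_an.Dec

open Set MeasureTheory RealInnerProductSpace Pool.Agent.Work.MP_b0497c_an Filter Topology
open scoped ContDiff

open Uniq

theorem zero_solution (Λ : Set (Fin 3 → ℤ)) (T : ℝ) :
    IsRestrictedSolution Λ T (fun _ _ => 0) := by
  refine ⟨contDiffOn_const, fun t _ => ?_, fun t _ φ _ => ?_⟩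
  · refine ⟨contDiff_const, fun _ _ => rfl, fun x => ?_, fun k _ => ?_, fun k _ => ?_⟩ <;> simp
  · simp

theorem energy_const {Λ : Set (Fin 3 → ℤ)} {T : ℝ}
    {u : ℝ → EuclideanSpace ℝ (Fin 3) → EuclideanSpace ℝ (Fin 3)}
    (hu : IsRestrictedSolution Λ T u) {t : ℝ} (ht : t ∈ Ico 0 T) :
    ∫ x in cube, ‖u t x‖ ^ 2 = ∫ x in cube, ‖u 0 x‖ ^ 2 := by
  rcases ht.1.eq_or_lt with rfl | hpos
  · rfl
  have h1 := ht.2
  obtain ⟨U, hU0, hU⟩ := bound_u hu h1
  have hfin : IsFiniteMeasure (volume.restrict cube) :=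
    ⟨by rw [Measure.restrict_apply_univ]; exact cube_compact.measure_lt_top⟩
  set E : ℝ → ℝ := fun s => ∫ x in cube, ‖u s x‖ ^ 2 with hE
  have cu : ∀ s ∈ Icc 0 t, Continuous (u s) := fun s hs =>
    (hu.modes s (sub_Ico h1 hs)).contDiff.continuous
  have hcont : ContinuousOn E (Icc 0 t) := by
    apply continuousOn_of_dominated (bound := fun _ => U ^ 2)
    · intro s hs
      exact ((cu s hs).norm.pow 2).aestronglyMeasurable
    · intro s hs
      refine ae_of_all _ fun x => ?_
      rw [norm_pow, norm_norm]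
      exact pow_le_pow_left₀ (norm_nonneg _) (hU s hs x) 2
    · exact integrable_const _
    · refine ae_of_all _ fun x => ?_
      have c3 : ContinuousOn (fun s : ℝ => (s, x)) (Icc 0 t) := by fun_prop
      have c4 : ContinuousOn ((fun z : ℝ × E3 => u z.1 z.2) ∘ (fun s : ℝ => (s, x))) (Icc 0 t) :=
        ContinuousOn.comp (cont_u hu h1) c3 (fun s hs => ⟨hs, mem_univ _⟩)
      exact (c4.norm).pow 2
  have hder : ∀ s ∈ Ioo 0 t, HasDerivAt E 0 s := by
    intro s hs
    have h := energy_deriv hu (zero_solution Λ T) hs.1 (hs.2.trans h1) (hs.2.trans h1)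
    simpa using h
  have hdiff : DifferentiableOn ℝ E (interior (Icc 0 t)) := by
    rw [interior_Icc]
    exact fun s hs => (hder s hs).differentiableAt.differentiableWithinAt
  have h2 : AntitoneOn E (Icc 0 t) := by
    apply antitoneOn_of_deriv_nonpos (convex_Icc 0 t) hcont hdiff
    rw [interior_Icc]
    exact fun s hs => (hder s hs).deriv.le
  have h3 : MonotoneOn E (Icc 0 t) := by
    apply monotoneOn_of_deriv_nonneg (convex_Icc 0 t) hcont hdiff
    rw [interior_Icc]
    exact fun s hs => (hder s hs).deriv.ge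
  exact le_antisymm (h2 ⟨le_rfl, ht.1⟩ ⟨ht.1, le_rfl⟩ ht.1) (h3 ⟨le_rfl, ht.1⟩ ⟨ht.1, le_rfl⟩ ht.1)

end Pool.Agent.Work.MP_b0497c_an.Dec
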