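import Pool.Agent.Work.MP_b0497c_an.Dec.SeriesGen
import Pool.Agent.Work.MP_b0497c_an.Dec.Fields

set_option autoImplicit false

/-!
The series of the fields of the chain.
-/

namespace Pool.Agent.Work.MP_b0497c_an.Dec

open Set MeasureTheory RealInnerProductSpace Pool.Agent.Work.MP_b0497c_an Filter Topology
open scoped ContDiff

theorem V_iterBound (m : ℕ) : IterBound (V m) := fun j => V_iter_bound m j

theorem U_contDiffOn {T : ℝ} {a a' : ℕ → ℝ → ℝ} (h : Amp T a a') (m : ℕ) :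
    ContDiffOn ℝ 1 (fun z : ℝ × EuclideanSpace ℝ (Fin 3) => U m a z.1 z.2) (Ico 0 T ×ˢ univ) :=
  fun _ hz => (contDiffAt_gen h (V_contDiff m) (V_iterBound m)
    (lt_of_lt_of_le (by norm_num) hz.1.1) hz.1.2).contDiffWithinAt

theorem U_smooth {T : ℝ} {a a' : ℕ → ℝ → ℝ} (h : Amp T a a') (m : ℕ) {t : ℝ} (ht : t ∈ Ico 0 T) :
    ContDiff ℝ ∞ (U m a t) :=
  contDiff_gen h (V_contDiff m) (V_iterBound m) (le_trans (by norm_num) ht.1) ht.2

theorem U_deriv {T : ℝ} {a a' : ℕ → ℝ → ℝ} (h : Amp T a a') (m : ℕ) {t : ℝ} (ht : t ∈ Ico 0 T)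
    (x : EuclideanSpace ℝ (Fin 3)) :
    derivWithin (fun s => U m a s x) (Ico 0 T) t = ∑' n, a' n t • V m n x :=
  (hasDerivAt_gen h (V_iterBound m) (lt_of_lt_of_le (by norm_num) ht.1) ht.2
    x).hasDerivWithinAt.derivWithin (uniqueDiffOn_Ico 0 T t ht)

theorem U_fderiv {T : ℝ} {a a' : ℕ → ℝ → ℝ} (h : Amp T a a') (m : ℕ) {t : ℝ} (ht : t ∈ Ico 0 T)
    (x : EuclideanSpace ℝ (Fin 3)) :
    fderiv ℝ (U m a t) x = ∑' n, a n t • fderiv ℝ (V m n) x :=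
  (hasFDerivAt_gen h (V_contDiff m) (V_iterBound m) (le_trans (by norm_num) ht.1) ht.2 x).fderiv

end Pool.Agent.Work.MP_b0497c_an.Dec
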