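import Pool.Agent.Work.MP_b0497c_an.Dec.Sums
import Pool.Agent.Work.MP_b0497c_an.Dec.Conv
import Pool.Agent.Work.MP_b0497c_an.Dec.Series

set_option autoImplicit false

/-!
The series of fields: it lives on the modes `L m`, and it solves the restricted Euler equations.
-/

namespace Pool.Agent.Work.MP_b0497c_an.Dec

open Set MeasureTheory RealInnerProductSpace Pool.Agent.Work.MP_b0497c_an Filter Topology
open scoped ContDiff

namespace Momentum

/-- Joint bound for the fields and their first derivatives. -/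
lemma V_bound (m : ℕ) : ∃ C ρ : ℝ, 0 ≤ C ∧ 1 ≤ ρ ∧ ∀ n x, ‖V m n x‖ ≤ C * ρ ^ n ∧
    ‖fderiv ℝ (V m n) x‖ ≤ C * ρ ^ n := by
  obtain ⟨C0, ρ0, h0⟩ := V_iter_bound m 0
  obtain ⟨C1, ρ1, h1⟩ := V_iter_bound m 1
  refine ⟨|C0| + |C1|, |ρ0| + |ρ1| + 1, by positivity, ?_, fun n x => ⟨?_, ?_⟩⟩
  · have := abs_nonneg ρ0
    have := abs_nonneg ρ1
    linarith
  · rw [← norm_iteratedFDeriv_zero (𝕜 := ℝ) (f := V m n)]
    calc ‖iteratedFDeriv ℝ 0 (V m n) x‖ ≤ C0 * ρ0 ^ n := h0 n x
      _ ≤ |C0 * ρ0 ^ n| := le_abs_self _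
      _ = |C0| * |ρ0| ^ n := by rw [abs_mul, abs_pow]
      _ ≤ (|C0| + |C1|) * (|ρ0| + |ρ1| + 1) ^ n := by
          gcongr
          · linarith [abs_nonneg C1]
          · linarith [abs_nonneg ρ1]
  · rw [← norm_iteratedFDeriv_one (𝕜 := ℝ) (f := V m n)]
    calc ‖iteratedFDeriv ℝ 1 (V m n) x‖ ≤ C1 * ρ1 ^ n := h1 n x
      _ ≤ |C1 * ρ1 ^ n| := le_abs_self _
      _ = |C1| * |ρ1| ^ n := by rw [abs_mul, abs_pow]
      _ ≤ (|C0| + |C1|) * (|ρ0| + |ρ1| + 1) ^ n := by
          gcongr
          · linarith [abs_nonneg C0]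
          · linarith [abs_nonneg ρ0]

/-- Rapid decay of a sequence of numbers. -/
def Rapid (α : ℕ → ℝ) : Prop := ∀ ρ : ℝ, ∃ K : ℝ, ∀ n, |α n| * ρ ^ n ≤ K

lemma amp_rapid {T : ℝ} {a a' : ℕ → ℝ → ℝ} (h : Amp T a a') {t : ℝ} (ht : t ∈ Ico 0 T) :
    Rapid (fun n => a n t) ∧ Rapid (fun n => a' n t) := by
  have htt : t ∈ Icc (-1) t := ⟨by linarith [ht.1], le_rfl⟩
  constructor
  · intro ρ
    obtain ⟨K, hK⟩ := h.decay t ht.2 ρ
    exact ⟨K, fun n => (hK n t htt).1⟩
  · intro ρ
    obtain ⟨K, hK⟩ := h.decay t ht.2 ρ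
    exact ⟨K, fun n => (hK n t htt).2⟩

lemma Rapid.summable {α : ℕ → ℝ} (h : Rapid α) (C ρ : ℝ) (hC : 0 ≤ C) (hρ : 1 ≤ ρ) :
    Summable fun n => |α n| * (C * ρ ^ n) := by
  obtain ⟨K, hK⟩ := h (2 * ρ)
  have hg : Summable fun n : ℕ => C * (K * (1 / 2 : ℝ) ^ n) :=
    ((summable_geometric_of_lt_one (by norm_num) (by norm_num)).mul_left K).mul_left C
  refine Summable.of_nonneg_of_le (fun n => by positivity) (fun n => ?_) hg
  have h1 := hK n
  rw [mul_pow] at h1
  have h2 : |α n| * ρ ^ n ≤ K * (1 / 2 : ℝ) ^ n := by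
    have h3 : |α n| * ρ ^ n = |α n| * (2 ^ n * ρ ^ n) * (1 / 2 : ℝ) ^ n := by
      rw [one_div, inv_pow]
      field_simp
    rw [h3]
    exact mul_le_mul_of_nonneg_right h1 (by positivity)
  calc |α n| * (C * ρ ^ n) = C * (|α n| * ρ ^ n) := by ring
    _ ≤ C * (K * (1 / 2 : ℝ) ^ n) := mul_le_mul_of_nonneg_left h2 hC

lemma Rapid.bounded {α : ℕ → ℝ} (h : Rapid α) : ∃ K : ℝ, ∀ n, |α n| ≤ K := by
  obtain ⟨K, hK⟩ := h 1
  exact ⟨K, fun n => by simpa using hK n⟩

lemma Rapid.shift {α : ℕ → ℝ} (h : Rapid α) : Rapid (fun n => α (n + 1)) := by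
  intro ρ
  obtain ⟨K, hK⟩ := h (|ρ| + 1)
  refine ⟨K, fun n => ?_⟩
  have h1 : (1 : ℝ) ≤ |ρ| + 1 := by linarith [abs_nonneg ρ]
  calc |α (n + 1)| * ρ ^ n ≤ |α (n + 1)| * |ρ| ^ n := by
        refine mul_le_mul_of_nonneg_left ?_ (abs_nonneg _)
        rw [← abs_pow]
        exact le_abs_self _
    _ ≤ |α (n + 1)| * (|ρ| + 1) ^ (n + 1) := by
        refine mul_le_mul_of_nonneg_left ?_ (abs_nonneg _)
        calc |ρ| ^ n ≤ (|ρ| + 1) ^ n := by
              gcongr
              linarith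
          _ ≤ (|ρ| + 1) ^ (n + 1) := pow_le_pow_right₀ h1 (Nat.le_succ n)
    _ ≤ K := hK (n + 1)

section fields

variable {F : Type*} [NormedAddCommGroup F] [NormedSpace ℝ F]

/-- A rapidly decaying combination of fields with geometric bounds: interchange of the sum with
an integral over the cube. -/
lemma hasSum_cube {α : ℕ → ℝ} (h : Rapid α) (f : ℕ → EuclideanSpace ℝ (Fin 3) → F)
    (hf : ∀ n, Continuous (f n)) (C ρ : ℝ) (hC : 0 ≤ C) (hρ : 1 ≤ ρ)
    (hb : ∀ n, ∀ x ∈ cube, ‖f n x‖ ≤ C * ρ ^ n) :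
    HasSum (fun n => α n • ∫ x in cube, f n x) (∫ x in cube, ∑' n, α n • f n x) := by
  have hμ : (volume : Measure (EuclideanSpace ℝ (Fin 3))) cube ≠ ⊤ := cube_compact.measure_ne_top
  have hmeas : MeasurableSet (cube : Set (EuclideanSpace ℝ (Fin 3))) := cube_compact.measurableSet
  have hint : ∀ n, IntegrableOn (fun x => α n • f n x) cube := fun n =>
    ((hf n).const_smul (α n)).continuousOn.integrableOn_compact cube_compact
  have hs : Summable fun n => ∫ x in cube, ‖α n • f n x‖ := by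
    refine Summable.of_nonneg_of_le (fun n => integral_nonneg fun x => norm_nonneg _)
      (fun n => ?_) ((h.summable C ρ hC hρ).mul_right (volume.real cube))
    calc ∫ x in cube, ‖α n • f n x‖ ≤ ∫ x in cube, |α n| * (C * ρ ^ n) := by
          refine setIntegral_mono_on (hint n).norm ?_ hmeas fun x hx => ?_
          · exact integrableOn_const hμ
          · rw [norm_smul, Real.norm_eq_abs]
            exact mul_le_mul_of_nonneg_left (hb n x hx) (abs_nonneg _)
      _ = |α n| * (C * ρ ^ n) * volume.real cube := by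
          rw [setIntegral_const, smul_eq_mul, mul_comm]
  have := hasSum_integral_of_summable_integral_norm hint hs
  simpa only [integral_smul] using this

lemma summable_pt [CompleteSpace F] {α : ℕ → ℝ} (h : Rapid α) (f : ℕ → F) (C ρ : ℝ) (hC : 0 ≤ C) (hρ : 1 ≤ ρ)
    (hb : ∀ n, ‖f n‖ ≤ C * ρ ^ n) : Summable fun n => α n • f n := by
  refine Summable.of_norm_bounded (h.summable C ρ hC hρ) fun n => ?_
  rw [norm_smul, Real.norm_eq_abs]
  exact mul_le_mul_of_nonneg_left (hb n) (abs_nonneg _)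

end fields

/-- The trace as a continuous linear functional. -/
noncomputable def trL : (EuclideanSpace ℝ (Fin 3) →L[ℝ] EuclideanSpace ℝ (Fin 3)) →L[ℝ] ℝ :=
  LinearMap.toContinuousLinearMap
    ((LinearMap.trace ℝ (EuclideanSpace ℝ (Fin 3))).comp (ContinuousLinearMap.coeLM ℝ))

lemma trL_apply (A : EuclideanSpace ℝ (Fin 3) →L[ℝ] EuclideanSpace ℝ (Fin 3)) :
    trL A = LinearMap.trace ℝ (EuclideanSpace ℝ (Fin 3)) A := rfl

lemma sub_L (m : ℕ) {k : Fin 3 → ℤ} (hk : k ∉ L m) : k ∉ X m := fun h => hk (Or.inr (Or.inl h))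

lemma phase_continuous (k : Fin 3 → ℤ) : Continuous (phase k) := by
  unfold phase
  fun_prop

end Momentum

open Momentum

theorem InModes.mono {Λ Λ' : Set (Fin 3 → ℤ)} (h : Λ ⊆ Λ')
    {v : EuclideanSpace ℝ (Fin 3) → EuclideanSpace ℝ (Fin 3)} (hv : InModes Λ v) :
    InModes Λ' v :=
  ⟨hv.contDiff, hv.periodic, hv.div_free, fun k hk => hv.cos_coeff k fun h' => hk (h h'),
    fun k hk => hv.sin_coeff k fun h' => hk (h h')⟩

theorem U_inModes_X {T : ℝ} {a a' : ℕ → ℝ → ℝ} (h : Amp T a a') (m : ℕ) {t : ℝ}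
    (ht : t ∈ Ico 0 T) : InModes (X m) (U m a t) := by
  obtain ⟨C, ρ, hC, hρ, hb⟩ := V_bound m
  have hr := (amp_rapid h ht).1
  have hcV : ∀ n, Continuous (V m n) := fun n => (V_contDiff m n).continuous
  refine ⟨(U_smooth h m ht).of_le (by norm_cast), ?_, ?_, ?_, ?_⟩
  · intro i x
    unfold U
    congr 1
    funext n
    rw [V_periodic m n i x]
  · intro x
    rw [← trL_apply, U_fderiv h m ht x, trL.map_tsum
      (summable_pt hr _ C ρ hC hρ fun n => (hb n x).2)]
    refine (tsum_congr fun n => ?_).trans tsum_zero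
    rw [map_smul, trL_apply, V_div m n x, smul_zero]
  · intro k hk
    have hs := hasSum_cube hr (fun n x => Real.cos (phase k x) • V m n x)
      (fun n => (Real.continuous_cos.comp (phase_continuous k)).smul (hcV n)) C ρ hC hρ
      (fun n x _ => by
        rw [norm_smul]
        calc ‖Real.cos (phase k x)‖ * ‖V m n x‖ ≤ 1 * (C * ρ ^ n) :=
              mul_le_mul (Real.abs_cos_le_one _) (hb n x).1 (norm_nonneg _) zero_le_one
          _ = C * ρ ^ n := one_mul _)
    have e : ∀ x, Real.cos (phase k x) • U m a t x =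
        ∑' n, a n t • Real.cos (phase k x) • V m n x := by
      intro x
      unfold U
      rw [← tsum_const_smul'' (Real.cos (phase k x))]
      exact tsum_congr fun n => smul_comm _ _ _
    simp_rw [e]
    rw [← hs.tsum_eq]
    refine (tsum_congr fun n => ?_).trans tsum_zero
    rw [V_cos_coeff, smul_zero]
  · intro k hk
    have hs := hasSum_cube hr (fun n x => Real.sin (phase k x) • V m n x)
      (fun n => (Real.continuous_sin.comp (phase_continuous k)).smul (hcV n)) C ρ hC hρ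
      (fun n x _ => by
        rw [norm_smul]
        calc ‖Real.sin (phase k x)‖ * ‖V m n x‖ ≤ 1 * (C * ρ ^ n) :=
              mul_le_mul (Real.abs_sin_le_one _) (hb n x).1 (norm_nonneg _) zero_le_one
          _ = C * ρ ^ n := one_mul _)
    have e : ∀ x, Real.sin (phase k x) • U m a t x =
        ∑' n, a n t • Real.sin (phase k x) • V m n x := by
      intro x
      unfold U
      rw [← tsum_const_smul'' (Real.sin (phase k x))]
      exact tsum_congr fun n => smul_comm _ _ _
    simp_rw [e]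
    rw [← hs.tsum_eq]
    refine (tsum_congr fun n => ?_).trans tsum_zero
    rw [V_sin_coeff m n k hk, smul_zero]

theorem U_inModes {T : ℝ} {a a' : ℕ → ℝ → ℝ} (h : Amp T a a') (m : ℕ) {t : ℝ}
    (ht : t ∈ Ico 0 T) : InModes (L m) (U m a t) :=
  InModes.mono (fun _ hk => Or.inr (Or.inl hk)) (U_inModes_X h m ht)

/-- `Q` grows at most geometrically. -/
lemma Momentum.Q_bound (m n : ℕ) : |(Q m n : ℝ)| ≤ (12160 * 16 ^ m) * 16 ^ n := by
  have h1 : |((qq n : ℤ) : ℝ)| ≤ 12160 := by
    have : |qq n| ≤ 12160 := by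
      unfold qq
      split <;> norm_num
    calc |((qq n : ℤ) : ℝ)| = ((|qq n| : ℤ) : ℝ) := by push_cast; rfl
      _ ≤ 12160 := by exact_mod_cast this
  unfold Q
  push_cast
  rw [abs_mul, abs_of_nonneg (by positivity : (0 : ℝ) ≤ 16 ^ (m + n / 5))]
  calc (16 : ℝ) ^ (m + n / 5) * |(qq n : ℝ)| ≤ 16 ^ (m + n) * 12160 := by
        gcongr
        · norm_num
        · exact Nat.div_le_self n 5
    _ = (12160 * 16 ^ m) * 16 ^ n := by rw [pow_add]; ring

lemma Momentum.eps_pos (n : ℕ) : (1 : ℝ) ≤ (eps n : ℝ) := by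
  have : (1 : ℤ) ≤ eps n := by
    unfold eps
    split <;> norm_num
  exact_mod_cast this

/-- The telescoping sum. -/
lemma Momentum.telescope {f : ℕ → ℝ} (hf : Tendsto f atTop (𝓝 0)) {s : ℝ}
    (hs : HasSum (fun n => f n - f (n + 1)) s) : s = f 0 := by
  have h1 := hs.tendsto_sum_nat
  have h2 : (fun n => ∑ i ∈ Finset.range n, (f i - f (i + 1))) = fun n => f 0 - f n := by
    funext n
    exact Finset.sum_range_sub' f n
  rw [h2] at h1
  have h3 : Tendsto (fun n => f 0 - f n) atTop (𝓝 (f 0 - 0)) := tendsto_const_nhds.sub hf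
  rw [sub_zero] at h3
  exact tendsto_nhds_unique h1 h3

theorem U_momentum {T : ℝ} {a a' : ℕ → ℝ → ℝ} (h : Amp T a a') (m : ℕ) {t : ℝ}
    (ht : t ∈ Ico 0 T)
    (hode : ∀ n, a' n t = (if n = 0 then 0 else (Q m (n - 1) : ℝ) / eps n * a (n - 1) t ^ 2)
      - (Q m n : ℝ) / eps n * a n t * a (n + 1) t)
    (φ : EuclideanSpace ℝ (Fin 3) → EuclideanSpace ℝ (Fin 3)) (hφ : InModes (L m) φ) :
    ∫ x in cube, ⟪derivWithin (fun s => U m a s x) (Ico 0 T) t
      + fderiv ℝ (U m a t) x (U m a t x), φ x⟫ = 0 := by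
  obtain ⟨C, ρ, hC, hρ, hb⟩ := V_bound m
  obtain ⟨hr, hr'⟩ := amp_rapid h ht
  have hcV : ∀ n, Continuous (V m n) := fun n => (V_contDiff m n).continuous
  have hcdV : ∀ n, Continuous (fderiv ℝ (V m n)) := fun n =>
    (V_contDiff m n).continuous_fderiv (by simp)
  have hcφ : Continuous φ := hφ.contDiff.continuous
  have hcU : Continuous (U m a t) := (U_smooth h m ht).continuous
  have hcdU : Continuous (fderiv ℝ (U m a t)) := (U_smooth h m ht).continuous_fderiv (by simp)
  have hμ : (volume : Measure (EuclideanSpace ℝ (Fin 3))) cube ≠ ⊤ := cube_compact.measure_ne_top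
  have hmeas : MeasurableSet (cube : Set (EuclideanSpace ℝ (Fin 3))) := cube_compact.measurableSet
  obtain ⟨B0, hB0⟩ := cube_compact.exists_bound_of_continuousOn hcφ.continuousOn
  obtain ⟨B1, hB1⟩ := cube_compact.exists_bound_of_continuousOn hcdU.continuousOn
  set B : ℝ := |B0| with hBdef
  have hB : ∀ x ∈ cube, ‖φ x‖ ≤ B := fun x hx => (hB0 x hx).trans (le_abs_self _)
  set D : ℝ := |B1| with hDdef
  have hD : ∀ x ∈ cube, ‖fderiv ℝ (U m a t) x‖ ≤ D := fun x hx => (hB1 x hx).trans (le_abs_self _)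
  have hBn : 0 ≤ B := abs_nonneg _
  have hDn : 0 ≤ D := abs_nonneg _
  set S : (Fin 3 → ℤ) → EuclideanSpace ℝ (Fin 3) :=
    fun k => ∫ x in cube, Real.sin (phase k x) • φ x with hS
  have hS0 : S 0 = 0 := by
    have : ∀ x, phase 0 x = 0 := fun x => by simp [phase]
    simp [hS, this]
  have hS1 : ∀ k, ⟪vec k, S k⟫ = 0 :=
    fun k => sin_coeff_orth hφ.contDiff hφ.periodic hφ.div_free k
  have hS2 : ∀ k ∉ L m, S k = 0 := fun k hk => hφ.sin_coeff k hk
  -- bound of the pairing
  have hw : ∀ n, |w m n S| ≤ (C * B * volume.real cube) * ρ ^ n := by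
    intro n
    rw [← V_pair m n φ hcφ, ← Real.norm_eq_abs]
    calc ‖∫ x in cube, ⟪V m n x, φ x⟫‖ ≤ (C * ρ ^ n * B) * volume.real cube := by
          refine norm_setIntegral_le_of_norm_le_const hμ.lt_top fun x hx => ?_
          calc ‖⟪V m n x, φ x⟫‖ ≤ ‖V m n x‖ * ‖φ x‖ := norm_inner_le_norm _ _
            _ ≤ C * ρ ^ n * B := mul_le_mul (hb n x).1 (hB x hx) (norm_nonneg _) (by positivity)
      _ = (C * B * volume.real cube) * ρ ^ n := by ring
  -- first part
  have hfirst : HasSum (fun n => a' n t * w m n S)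
      (∫ x in cube, ⟪derivWithin (fun s => U m a s x) (Ico 0 T) t, φ x⟫) := by
    have hs := hasSum_cube hr' (fun n x => ⟪V m n x, φ x⟫) (fun n => (hcV n).inner hcφ)
      (C * B) ρ (by positivity) hρ (fun n x hx => by
        calc ‖⟪V m n x, φ x⟫‖ ≤ ‖V m n x‖ * ‖φ x‖ := norm_inner_le_norm _ _
          _ ≤ C * ρ ^ n * B := mul_le_mul (hb n x).1 (hB x hx) (norm_nonneg _) (by positivity)
          _ = C * B * ρ ^ n := by ring)
    have e1 : ∀ x, ⟪derivWithin (fun s => U m a s x) (Ico 0 T) t, φ x⟫ =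
        ∑' n, a' n t • ⟪V m n x, φ x⟫ := by
      intro x
      rw [U_deriv h m ht x, real_inner_comm]
      have hsum := summable_pt hr' (fun n => V m n x) C ρ hC hρ fun n => (hb n x).1
      rw [← innerSL_apply_apply ℝ, (innerSL ℝ (φ x)).map_tsum hsum]
      refine tsum_congr fun n => ?_
      rw [map_smul, innerSL_apply_apply, real_inner_comm]
    have e2 : ∀ n, a' n t • ∫ x in cube, ⟪V m n x, φ x⟫ = a' n t * w m n S := fun n => by
      rw [V_pair m n φ hcφ, smul_eq_mul]
    simp_rw [e1]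
    simp_rw [e2] at hs
    exact hs
  -- the inner sums of the second part
  have hinner : ∀ n, ∫ x in cube, ⟪fderiv ℝ (U m a t) x (V m n x), φ x⟫ =
      a n t * (-((Q m n : ℝ) / (eps (n + 1) : ℝ)) * w m (n + 1) S) +
        a (n + 1) t * (((Q m n : ℝ) / (eps n : ℝ)) * w m n S) := by
    intro n
    have hs := hasSum_cube hr (fun n' x => ⟪fderiv ℝ (V m n') x (V m n x), φ x⟫)
      (fun n' => ((hcdV n').clm_apply (hcV n)).inner hcφ)
      (C * (C * ρ ^ n) * B) ρ (by positivity) hρ (fun n' x hx => by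
        calc ‖⟪fderiv ℝ (V m n') x (V m n x), φ x⟫‖
            ≤ ‖fderiv ℝ (V m n') x (V m n x)‖ * ‖φ x‖ := norm_inner_le_norm _ _
          _ ≤ (‖fderiv ℝ (V m n') x‖ * ‖V m n x‖) * ‖φ x‖ := by
              gcongr
              exact ContinuousLinearMap.le_opNorm _ _
          _ ≤ (C * ρ ^ n' * (C * ρ ^ n)) * B := by
              have h1 := (hb n' x).2
              have h2 := (hb n x).1
              have h3 := hB x hx
              gcongr
          _ = C * (C * ρ ^ n) * B * ρ ^ n' := by ring)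
    have e1 : ∀ x, ⟪fderiv ℝ (U m a t) x (V m n x), φ x⟫ =
        ∑' n', a n' t • ⟪fderiv ℝ (V m n') x (V m n x), φ x⟫ := by
      intro x
      have hsum := summable_pt hr (fun n' => fderiv ℝ (V m n') x) C ρ hC hρ fun n' => (hb n' x).2
      rw [U_fderiv h m ht x]
      have h1 : (∑' n', a n' t • fderiv ℝ (V m n') x) (V m n x) =
          ∑' n', a n' t • fderiv ℝ (V m n') x (V m n x) := by
        have := ((ContinuousLinearMap.apply ℝ (EuclideanSpace ℝ (Fin 3)) (V m n x))).map_tsum hsum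
        simpa using this
      have hsum2 : Summable fun n' => a n' t • fderiv ℝ (V m n') x (V m n x) := by
        have := ((ContinuousLinearMap.apply ℝ (EuclideanSpace ℝ (Fin 3)) (V m n x))).summable hsum
        simpa using this
      rw [h1, real_inner_comm, ← innerSL_apply_apply ℝ, (innerSL ℝ (φ x)).map_tsum hsum2]
      refine tsum_congr fun n' => ?_
      rw [map_smul, innerSL_apply_apply, real_inner_comm]
    have e2 : ∀ n', a n' t • ∫ x in cube, ⟪fderiv ℝ (V m n') x (V m n x), φ x⟫ =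
        a n' t * Tt m n n' S := fun n' => by
      rw [V_conv m n n' φ hcφ, smul_eq_mul]
    simp_rw [e1]
    simp_rw [e2] at hs
    refine hs.unique ?_
    have h2 : HasSum (fun n' => a n' t * Tt m n n' S)
        (∑ n' ∈ {n, n + 1}, a n' t * Tt m n n' S) := by
      refine hasSum_sum_of_ne_finset_zero fun n' hn' => ?_
      simp only [Finset.mem_insert, Finset.mem_singleton, not_or] at hn'
      rw [Tt_eq m n n' S hS0 hS1 hS2, if_neg hn'.1, if_neg hn'.2, mul_zero]
    rw [Finset.sum_pair (by omega)] at h2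
    rw [Tt_eq m n n S hS0 hS1 hS2, if_pos rfl, Tt_eq m n (n + 1) S hS0 hS1 hS2,
      if_neg (by omega), if_pos rfl] at h2
    exact h2
  -- second part
  have hsecond : HasSum (fun n => a n t * (a n t * (-((Q m n : ℝ) / (eps (n + 1) : ℝ)) *
        w m (n + 1) S) + a (n + 1) t * (((Q m n : ℝ) / (eps n : ℝ)) * w m n S)))
      (∫ x in cube, ⟪fderiv ℝ (U m a t) x (U m a t x), φ x⟫) := by
    have hs := hasSum_cube hr (fun n x => ⟪fderiv ℝ (U m a t) x (V m n x), φ x⟫)
      (fun n => (hcdU.clm_apply (hcV n)).inner hcφ)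
      (D * C * B) ρ (by positivity) hρ (fun n x hx => by
        calc ‖⟪fderiv ℝ (U m a t) x (V m n x), φ x⟫‖
            ≤ ‖fderiv ℝ (U m a t) x (V m n x)‖ * ‖φ x‖ := norm_inner_le_norm _ _
          _ ≤ (‖fderiv ℝ (U m a t) x‖ * ‖V m n x‖) * ‖φ x‖ := by
              gcongr
              exact ContinuousLinearMap.le_opNorm _ _
          _ ≤ (D * (C * ρ ^ n)) * B := by
              have h1 := hD x hx
              have h2 := (hb n x).1
              have h3 := hB x hx
              gcongr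
          _ = D * C * B * ρ ^ n := by ring)
    have e1 : ∀ x, ⟪fderiv ℝ (U m a t) x (U m a t x), φ x⟫ =
        ∑' n, a n t • ⟪fderiv ℝ (U m a t) x (V m n x), φ x⟫ := by
      intro x
      have hsum := summable_pt hr (fun n => V m n x) C ρ hC hρ fun n => (hb n x).1
      have h1 : fderiv ℝ (U m a t) x (U m a t x) =
          ∑' n, a n t • fderiv ℝ (U m a t) x (V m n x) := by
        have h0 : U m a t x = ∑' n, a n t • V m n x := rfl
        rw [h0, (fderiv ℝ (U m a t) x).map_tsum hsum]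
        exact tsum_congr fun n => map_smul _ _ _
      have hsum2 : Summable fun n => a n t • fderiv ℝ (U m a t) x (V m n x) := by
        have := (fderiv ℝ (U m a t) x).summable hsum
        simpa using this
      rw [h1, real_inner_comm, ← innerSL_apply_apply ℝ, (innerSL ℝ (φ x)).map_tsum hsum2]
      refine tsum_congr fun n => ?_
      rw [map_smul, innerSL_apply_apply, real_inner_comm]
    simp_rw [e1]
    simp_rw [hinner, smul_eq_mul] at hs
    exact hs
  -- the total
  set f : ℕ → ℝ := fun n => if n = 0 then 0 else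
    (Q m (n - 1) : ℝ) / eps n * a (n - 1) t ^ 2 * w m n S with hf
  have htot : HasSum (fun n => f n - f (n + 1))
      ((∫ x in cube, ⟪derivWithin (fun s => U m a s x) (Ico 0 T) t, φ x⟫) +
        ∫ x in cube, ⟪fderiv ℝ (U m a t) x (U m a t x), φ x⟫) := by
    have e : (fun n => f n - f (n + 1)) = fun n => a' n t * w m n S +
        a n t * (a n t * (-((Q m n : ℝ) / (eps (n + 1) : ℝ)) * w m (n + 1) S) +
          a (n + 1) t * (((Q m n : ℝ) / (eps n : ℝ)) * w m n S)) := by
      funext n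
      have h2 : f (n + 1) = (Q m n : ℝ) / eps (n + 1) * a n t ^ 2 * w m (n + 1) S := by
        simp [hf]
      rw [h2, hode n]
      by_cases hn : n = 0
      · subst hn
        simp only [hf, if_pos]
        ring
      · simp only [hf, if_neg hn]
        ring
    rw [e]
    exact hfirst.add hsecond
  have hlim : Tendsto f atTop (𝓝 0) := by
    rw [← tendsto_add_atTop_iff_nat 1]
    obtain ⟨K, hK⟩ := hr.bounded
    have hK0 : 0 ≤ K := (abs_nonneg _).trans (hK 0)
    set C1 : ℝ := (12160 * 16 ^ m) * K * ((C * B * volume.real cube) * ρ) with hC1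
    have hvol : 0 ≤ volume.real (cube : Set (EuclideanSpace ℝ (Fin 3))) := measureReal_nonneg
    have hC1n : 0 ≤ C1 := by positivity
    have hsum := hr.summable C1 (16 * ρ) hC1n (by linarith)
    refine squeeze_zero_norm (fun n => ?_) hsum.tendsto_atTop_zero
    have h2 : f (n + 1) = (Q m n : ℝ) / eps (n + 1) * a n t ^ 2 * w m (n + 1) S := by
      simp [hf]
    rw [h2, Real.norm_eq_abs, abs_mul, abs_mul, abs_div]
    have h3 : |(Q m n : ℝ)| / |(eps (n + 1) : ℝ)| ≤ (12160 * 16 ^ m) * 16 ^ n := by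
      refine (div_le_self (abs_nonneg _) ?_).trans (Q_bound m n)
      exact (eps_pos (n + 1)).trans (le_abs_self _)
    have h4 : |a n t ^ 2| ≤ K * |a n t| := by
      rw [abs_pow, sq]
      exact mul_le_mul_of_nonneg_right (hK n) (abs_nonneg _)
    have h5 := hw (n + 1)
    calc |(Q m n : ℝ)| / |(eps (n + 1) : ℝ)| * |a n t ^ 2| * |w m (n + 1) S|
        ≤ ((12160 * 16 ^ m) * 16 ^ n) * (K * |a n t|) *
          ((C * B * volume.real cube) * ρ ^ (n + 1)) := by gcongr
      _ = |a n t| * (C1 * (16 * ρ) ^ n) := by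
          rw [hC1, mul_pow, pow_succ]
          ring
  have hz := telescope hlim htot
  have hf0 : f 0 = 0 := by simp [hf]
  rw [hf0] at hz
  refine Eq.trans ?_ hz
  rw [← integral_add]
  · simp only [inner_add_left]
  · have hc : Continuous fun x => ∑' n, a' n t • V m n x := by
      refine continuous_tsum (fun n => (hcV n).const_smul (a' n t))
        (hr'.summable C ρ hC hρ) fun n x => ?_
      rw [norm_smul, Real.norm_eq_abs]
      exact mul_le_mul_of_nonneg_left (hb n x).1 (abs_nonneg _)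
    have e : (fun x => ⟪derivWithin (fun s => U m a s x) (Ico 0 T) t, φ x⟫) =
        fun x => ⟪∑' n, a' n t • V m n x, φ x⟫ := by
      funext x
      rw [U_deriv h m ht x]
    rw [e]
    exact (hc.inner hcφ).continuousOn.integrableOn_compact cube_compact
  · exact ((hcdU.clm_apply hcU).inner hcφ).continuousOn.integrableOn_compact cube_compact

end Pool.Agent.Work.MP_b0497c_an.Dec
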