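import Mathlib
import Pool.Agent.Work.MP_b0497c_an.Dec.CubeInt
import Pool.Agent.Work.MP_b0497c_an.Dec.Triad

set_option autoImplicit false

/-!
The vorticity of the fields `V m n` and its Fourier coefficients.
-/

namespace Pool.Agent.Work.MP_b0497c_an.Dec

open Set MeasureTheory RealInnerProductSpace Pool.Agent.Work.MP_b0497c_an

namespace Vort

/-- The integer cross product. -/
def crs (k v : Fin 3 → ℤ) : Fin 3 → ℤ :=
  ![k 1 * v 2 - k 2 * v 1, k 2 * v 0 - k 0 * v 2, k 0 * v 1 - k 1 * v 0]

/-- The phase as a continuous linear map. -/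
noncomputable def phaseL (k : Fin 3 → ℤ) : EuclideanSpace ℝ (Fin 3) →L[ℝ] ℝ :=
  (k 0 : ℝ) • EuclideanSpace.proj 0 + (k 1 : ℝ) • EuclideanSpace.proj 1
    + (k 2 : ℝ) • EuclideanSpace.proj 2

theorem phaseL_apply (k : Fin 3 → ℤ) (x : EuclideanSpace ℝ (Fin 3)) :
    phaseL k x = phase k x := by
  simp [phaseL, phase]

theorem phaseL_coe (k : Fin 3 → ℤ) : ⇑(phaseL k) = phase k := funext (phaseL_apply k)

theorem continuous_phase (k : Fin 3 → ℤ) : Continuous (phase k) := by
  rw [← phaseL_coe]
  exact (phaseL k).continuous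

theorem phase_add (k p : Fin 3 → ℤ) (x : EuclideanSpace ℝ (Fin 3)) :
    phase (k + p) x = phase k x + phase p x := by
  simp only [phase, Pi.add_apply]
  push_cast
  ring

theorem phase_sub (k p : Fin 3 → ℤ) (x : EuclideanSpace ℝ (Fin 3)) :
    phase (k - p) x = phase k x - phase p x := by
  simp only [phase, Pi.sub_apply]
  push_cast
  ring

theorem hasFDerivAt_mode (k : Fin 3 → ℤ) (a x : EuclideanSpace ℝ (Fin 3)) :
    HasFDerivAt (fun x => Real.sin (phase k x) • a)
      ((Real.cos (phase k x) • phaseL k).smulRight a) x := by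
  have h1 : HasFDerivAt (phase k) (phaseL k) x := by
    rw [← phaseL_coe]
    exact (phaseL k).hasFDerivAt
  exact h1.sin.smul_const a

theorem fderiv_V (m n : ℕ) (x : EuclideanSpace ℝ (Fin 3)) :
    fderiv ℝ (V m n) x = ∑ g : Sgn, (Real.cos (phase (act g (kk m n)) x) •
      phaseL (act g (kk m n))).smulRight (vec (act g (ev n))) := by
  have h : HasFDerivAt (fun x => ∑ g : Sgn, Real.sin (phase (act g (kk m n)) x) •
      vec (act g (ev n))) (∑ g : Sgn, (Real.cos (phase (act g (kk m n)) x) •
      phaseL (act g (kk m n))).smulRight (vec (act g (ev n)))) x :=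
    HasFDerivAt.fun_sum (fun g _ => hasFDerivAt_mode _ _ x)
  exact h.fderiv

/-- `axial` as a linear map. -/
noncomputable def axialLin : (EuclideanSpace ℝ (Fin 3) →L[ℝ] EuclideanSpace ℝ (Fin 3)) →ₗ[ℝ]
    EuclideanSpace ℝ (Fin 3) where
  toFun := axial
  map_add' A B := by
    ext i
    fin_cases i <;> simp [axial] <;> ring
  map_smul' c A := by
    ext i
    fin_cases i <;> simp [axial] <;> ring

theorem axial_mode (c : ℝ) (k v : Fin 3 → ℤ) :
    axial ((c • phaseL k).smulRight (vec v)) = c • vec (crs k v) := by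
  have h0 : phaseL k (e 0) = k 0 := by simp [phaseL, e]
  have h1 : phaseL k (e 1) = k 1 := by simp [phaseL, e]
  have h2 : phaseL k (e 2) = k 2 := by simp [phaseL, e]
  ext i
  fin_cases i <;> simp [axial, vec, crs, h0, h1, h2] <;> ring

theorem curl_V (m n : ℕ) (x : EuclideanSpace ℝ (Fin 3)) :
    curl (V m n) x = ∑ g : Sgn, Real.cos (phase (act g (kk m n)) x) •
      vec (crs (act g (kk m n)) (act g (ev n))) := by
  rw [curl, fderiv_V]
  change axialLin _ = _
  rw [map_sum]
  exact Finset.sum_congr rfl (fun g _ => axial_mode _ _ _)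

theorem integral_cos_cos (p q : Fin 3 → ℤ) :
    ∫ x in cube, Real.cos (phase p x) * Real.cos (phase q x)
      = ((if p = q then (2 * Real.pi) ^ 3 else 0) + (if p = -q then (2 * Real.pi) ^ 3 else 0)) / 2
    := by
  have h1 : ∀ x, Real.cos (phase p x) * Real.cos (phase q x)
      = (Real.cos (phase (p - q) x) + Real.cos (phase (p + q) x)) / 2 := by
    intro x
    rw [phase_sub, phase_add, Real.cos_sub, Real.cos_add]
    ring
  simp only [h1]
  have hi : ∀ k : Fin 3 → ℤ, IntegrableOn (fun x => Real.cos (phase k x)) cube := fun k =>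
    (Real.continuous_cos.comp (continuous_phase k)).continuousOn.integrableOn_compact cube_compact
  rw [integral_div, integral_add (hi _) (hi _), integral_cos, integral_cos]
  simp only [sub_eq_zero, add_eq_zero_iff_eq_neg]

theorem coeff_eq (m n n' : ℕ) :
    ∫ x in cube, Real.cos (phase (kk m n) x) • curl (V m n') x
      = ∑ g : Sgn, (((if kk m n = act g (kk m n') then (2 * Real.pi) ^ 3 else 0) +
        (if kk m n = -act g (kk m n') then (2 * Real.pi) ^ 3 else 0)) / 2 : ℝ) •
        vec (crs (act g (kk m n')) (act g (ev n'))) := by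
  have h1 : ∀ x, Real.cos (phase (kk m n) x) • curl (V m n') x
      = ∑ g : Sgn, (Real.cos (phase (kk m n) x) * Real.cos (phase (act g (kk m n')) x)) •
        vec (crs (act g (kk m n')) (act g (ev n'))) := by
    intro x
    rw [curl_V, Finset.smul_sum]
    exact Finset.sum_congr rfl (fun g _ => by rw [smul_smul])
  simp only [h1]
  rw [integral_finset_sum]
  · refine Finset.sum_congr rfl (fun g _ => ?_)
    rw [integral_smul_const, integral_cos_cos]
  · intro g _
    have hc : Continuous (fun x : EuclideanSpace ℝ (Fin 3) =>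
        (Real.cos (phase (kk m n) x) * Real.cos (phase (act g (kk m n')) x)) •
        vec (crs (act g (kk m n')) (act g (ev n')))) :=
      ((Real.continuous_cos.comp (continuous_phase _)).mul
        (Real.continuous_cos.comp (continuous_phase _))).smul continuous_const
    exact hc.continuousOn.integrableOn_compact cube_compact

/-- The negative of a signed permutation. -/
def neg (g : Sgn) : Sgn := (g.1, fun i => - g.2 i)

theorem act_neg (g : Sgn) (v : Fin 3 → ℤ) : act (neg g) v = - act g v := by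
  funext i
  simp [act, neg]

theorem act_one (v : Fin 3 → ℤ) : act (1, 1) v = v := by
  funext i
  simp [act]

theorem act_smul (g : Sgn) (c : ℤ) (v : Fin 3 → ℤ) :
    act g (fun i => c * v i) = fun i => c * act g v i := by
  funext i
  simp only [act]
  ring

theorem crs_smul (c : ℤ) (k v : Fin 3 → ℤ) : crs (fun i => c * k i) v = fun i => c * crs k v i := by
  funext i
  fin_cases i <;> simp [crs] <;> ring

theorem kap_mod (n : ℕ) : kap n = kap (n % 5) := by simp [kap]

theorem ev_mod (n : ℕ) : ev n = ev (n % 5) := by simp [ev]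

theorem crs_fix_aux : ∀ r : Fin 5, ∀ g : Sgn, (act g (kap r) = kap r ∨ act g (kap r) = - kap r) →
    crs (act g (kap r)) (act g (ev r)) = crs (kap r) (ev r) := by
  decide +kernel

theorem crs_fix (n : ℕ) (g : Sgn) (h : act g (kap n) = kap n ∨ act g (kap n) = - kap n) :
    crs (act g (kap n)) (act g (ev n)) = crs (kap n) (ev n) := by
  have h1 := crs_fix_aux ⟨n % 5, Nat.mod_lt _ (by norm_num)⟩ g
  simp only at h1
  rw [← kap_mod, ← ev_mod] at h1
  exact h1 h

theorem kk_fix (m n : ℕ) (g : Sgn) (h : kk m n = act g (kk m n) ∨ kk m n = - act g (kk m n)) :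
    crs (act g (kk m n)) (act g (ev n)) = crs (kk m n) (ev n) := by
  have hc : (16 : ℤ) ^ (m + n / 5) ≠ 0 := by positivity
  have hk : kk m n = fun i => 16 ^ (m + n / 5) * kap n i := rfl
  rw [hk, act_smul] at h
  rw [hk, act_smul, crs_smul, crs_smul, crs_fix n g]
  rcases h with h | h
  · left
    funext i
    have := congrFun h i
    exact (mul_left_cancel₀ hc this).symm
  · right
    funext i
    have := congrFun h i
    simp only [Pi.neg_apply] at this ⊢
    have h2 : (16 : ℤ) ^ (m + n / 5) * act g (kap n) i = 16 ^ (m + n / 5) * (- kap n i) := by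
      linarith
    exact mul_left_cancel₀ hc h2

theorem crs_ge_aux : ∀ r : Fin 5, ∃ i : Fin 3, 1 ≤ |crs (kap r) (ev r) i| := by
  decide +kernel

theorem crs_ge (m n : ℕ) : (16 : ℝ) ^ (m + n / 5) ≤ ‖vec (crs (kk m n) (ev n))‖ := by
  obtain ⟨i, hi⟩ := crs_ge_aux ⟨n % 5, Nat.mod_lt _ (by norm_num)⟩
  simp only at hi
  rw [← kap_mod, ← ev_mod] at hi
  have h1 : ‖vec (crs (kk m n) (ev n)) i‖ ≤ ‖vec (crs (kk m n) (ev n))‖ :=
    PiLp.norm_apply_le _ i
  refine le_trans ?_ h1
  have hk : kk m n = fun i => 16 ^ (m + n / 5) * kap n i := rfl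
  have h2 : vec (crs (kk m n) (ev n)) i = ((16 ^ (m + n / 5) * crs (kap n) (ev n) i : ℤ) : ℝ) := by
    rw [hk, crs_smul]
    fin_cases i <;> simp [vec]
  rw [h2, Real.norm_eq_abs, ← Int.cast_abs, abs_mul, abs_of_nonneg (by positivity)]
  have h3 : (16 : ℤ) ^ (m + n / 5) ≤ 16 ^ (m + n / 5) * |crs (kap n) (ev n) i| :=
    le_mul_of_one_le_right (by positivity) hi
  exact_mod_cast h3

end Vort

open Vort

theorem curl_coeff (m n : ℕ) :
    (∀ n', n' ≠ n → ∫ x in cube, Real.cos (phase (kk m n) x) • curl (V m n') x = 0) ∧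
    16 ^ (m + n / 5) * (2 * Real.pi) ^ 3
      ≤ ‖∫ x in cube, Real.cos (phase (kk m n) x) • curl (V m n) x‖ := by
  constructor
  · intro n' hn
    rw [coeff_eq]
    refine Finset.sum_eq_zero (fun g _ => ?_)
    have h1 : kk m n ≠ act g (kk m n') := by
      intro h
      exact hn (kk_inj m n n' (1, 1) g (by rw [act_one]; exact h)).symm
    have h2 : kk m n ≠ - act g (kk m n') := by
      intro h
      exact hn (kk_inj m n n' (1, 1) (neg g) (by rw [act_one, act_neg]; exact h)).symm
    rw [if_neg h1, if_neg h2]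
    simp
  · rw [coeff_eq]
    have h1 : ∀ g : Sgn, (((if kk m n = act g (kk m n) then (2 * Real.pi) ^ 3 else 0) +
        (if kk m n = -act g (kk m n) then (2 * Real.pi) ^ 3 else 0)) / 2 : ℝ) •
        vec (crs (act g (kk m n)) (act g (ev n)))
        = (((if kk m n = act g (kk m n) then (2 * Real.pi) ^ 3 else 0) +
        (if kk m n = -act g (kk m n) then (2 * Real.pi) ^ 3 else 0)) / 2 : ℝ) •
        vec (crs (kk m n) (ev n)) := by
      intro g
      by_cases ha : kk m n = act g (kk m n) ∨ kk m n = -act g (kk m n)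
      · rw [kk_fix m n g ha]
      · rw [not_or] at ha
        rw [if_neg ha.1, if_neg ha.2]
        simp
    rw [Finset.sum_congr rfl (fun g _ => h1 g), ← Finset.sum_smul, norm_smul]
    set f : Sgn → ℝ := fun g => (((if kk m n = act g (kk m n) then (2 * Real.pi) ^ 3 else 0) +
        (if kk m n = -act g (kk m n) then (2 * Real.pi) ^ 3 else 0)) / 2 : ℝ) with hf
    have hpi : 0 < (2 * Real.pi) ^ 3 := by positivity
    have hf0 : ∀ g, 0 ≤ f g := by
      intro g
      simp only [hf]
      split_ifs <;> positivity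
    have hf1 : (2 * Real.pi) ^ 3 / 2 ≤ f (1, 1) := by
      simp only [hf]
      rw [if_pos (act_one _).symm]
      have : 0 ≤ (if kk m n = -act (1, 1) (kk m n) then (2 * Real.pi) ^ 3 else 0) := by
        split_ifs <;> positivity
      linarith
    have hf2 : (2 * Real.pi) ^ 3 / 2 ≤ f (neg (1, 1)) := by
      simp only [hf]
      have h3 : kk m n = -act (neg (1, 1)) (kk m n) := by rw [act_neg, act_one, neg_neg]
      rw [if_pos h3]
      have : 0 ≤ (if kk m n = act (neg (1, 1)) (kk m n) then (2 * Real.pi) ^ 3 else 0) := by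
        split_ifs <;> positivity
      linarith
    have hne : ((1, 1) : Sgn) ≠ neg (1, 1) := by
      intro h
      have h4 := congrArg (fun g : Sgn => (g.2 0 : ℤ)) h
      simp [neg] at h4
    have hsum : (2 * Real.pi) ^ 3 ≤ ∑ g : Sgn, f g := by
      have h5 : ∑ g ∈ ({(1, 1), neg (1, 1)} : Finset Sgn), f g ≤ ∑ g : Sgn, f g :=
        Finset.sum_le_univ_sum_of_nonneg hf0
      rw [Finset.sum_pair hne] at h5
      linarith
    rw [Real.norm_of_nonneg (hpi.le.trans hsum)]
    calc (16 : ℝ) ^ (m + n / 5) * (2 * Real.pi) ^ 3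
        = (2 * Real.pi) ^ 3 * 16 ^ (m + n / 5) := by ring
      _ ≤ _ := mul_le_mul hsum (crs_ge m n) (by positivity) (hpi.le.trans hsum)

end Pool.Agent.Work.MP_b0497c_an.Dec
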