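import Pool.Agent.Work.MP_b0497c_an.MaxPrinciple
import Pool.Agent.Work.MP_b0497c_an.Dec.Series
import Pool.Agent.Work.MP_b0497c_an.Dec.Vort

set_option autoImplicit false

/-!
The enstrophy bounds every amplitude.
-/

namespace Pool.Agent.Work.MP_b0497c_an.Dec

open Set MeasureTheory RealInnerProductSpace Pool.Agent.Work.MP_b0497c_an Filter Topology
open scoped ContDiff

/-- The axial vector as a continuous linear map. -/
noncomputable def axialL : (E3 →L[ℝ] E3) →L[ℝ] E3 where
  toFun := axial
  map_add' A B := by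
    ext i
    fin_cases i <;> simp [axial] <;> ring
  map_smul' c A := by
    ext i
    fin_cases i <;> simp [axial] <;> ring
  cont := continuous_axial

theorem axialL_apply (A : E3 →L[ℝ] E3) : axialL A = axial A := rfl

theorem cube_sq_le {f : E3 → ℝ} (hf : Continuous f) :
    (∫ x in cube, f x) ^ 2 ≤ (2 * Real.pi) ^ 3 * ∫ x in cube, f x ^ 2 := by
  set v : ℝ := (2 * Real.pi) ^ 3 with hv
  have hv0 : 0 < v := by positivity
  set M : ℝ := ∫ x in cube, f x with hM
  have hi : ∀ g : E3 → ℝ, Continuous g → IntegrableOn g cube := fun g hg =>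
    hg.continuousOn.integrableOn_compact cube_compact
  have h1 : 0 ≤ ∫ x in cube, (f x - M / v) ^ 2 :=
    integral_nonneg fun x => sq_nonneg _
  have h2 : ∫ x in cube, (f x - M / v) ^ 2 =
      (∫ x in cube, f x ^ 2) - (2 * (M / v)) * M + (M / v) ^ 2 * v := by
    have h3 : ∀ x, (f x - M / v) ^ 2 = f x ^ 2 - (2 * (M / v)) * f x + (M / v) ^ 2 := by
      intro x; ring
    simp_rw [h3]
    rw [integral_add, integral_sub, integral_const_mul, setIntegral_const, volume_cube,
      smul_eq_mul, mul_comm v]
    · exact hi _ (hf.pow 2)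
    · exact hi _ (continuous_const.mul hf)
    · exact hi _ ((hf.pow 2).sub (continuous_const.mul hf))
    · exact hi _ continuous_const
  rw [h2] at h1
  have h4 : (∫ x in cube, f x ^ 2) - (2 * (M / v)) * M + (M / v) ^ 2 * v =
      (∫ x in cube, f x ^ 2) - M ^ 2 / v := by
    field_simp
    ring
  rw [h4, sub_nonneg, div_le_iff₀ hv0] at h1
  linarith

theorem U_curl {T : ℝ} {a a' : ℕ → ℝ → ℝ} (h : Amp T a a') (m : ℕ) {t : ℝ} (ht : t ∈ Ico 0 T)
    (n : ℕ) : 16 ^ (m + n / 5) * |a n t| ≤ Real.sqrt (∫ x in cube, ‖curl (U m a t) x‖ ^ 2) := by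
  have h0 : (-1 : ℝ) ≤ t := le_trans (by norm_num) ht.1
  have hB : IterBound (V m) := fun j => V_iter_bound m j
  obtain ⟨B, hBs, hB'⟩ := bound_one h hB ht.2
  have hcurlV : ∀ n', Continuous (curl (V m n')) := fun n' =>
    continuous_axial.comp ((V_contDiff m n').continuous_fderiv (by simp))
  have hcurlU : Continuous (curl (U m a t)) :=
    continuous_axial.comp ((U_smooth h m ht).continuous_fderiv (by simp))
  have hcos : Continuous fun x : E3 => Real.cos (phase (kk m n) x) := by
    unfold phase
    fun_prop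
  have hcurl : ∀ x, curl (U m a t) x = ∑' n', a n' t • curl (V m n') x := by
    intro x
    have hs := summable_gen_fderiv h hB h0 ht.2 x
    unfold curl
    rw [U_fderiv h m ht x, ← axialL_apply, axialL.map_tsum hs]
    simp only [map_smul, axialL_apply]
  set F : ℕ → E3 → E3 := fun n' x =>
    a n' t • (Real.cos (phase (kk m n) x) • curl (V m n') x) with hF
  have hFc : ∀ n', Continuous (F n') := fun n' => (hcos.smul (hcurlV n')).const_smul (a n' t)
  have hFint : ∀ n', Integrable (F n') (volume.restrict cube) := fun n' =>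
    (hFc n').continuousOn.integrableOn_compact cube_compact
  have hFb : ∀ n' x, ‖F n' x‖ ≤ ‖axialL‖ * B n' := by
    intro n' x
    rw [hF]
    simp only [norm_smul, Real.norm_eq_abs]
    have h1 : ‖curl (V m n') x‖ ≤ ‖axialL‖ * ‖fderiv ℝ (V m n') x‖ := axialL.le_opNorm _
    have h2 := (hB' n' t ⟨h0, le_rfl⟩ x).1
    calc |a n' t| * (|Real.cos (phase (kk m n) x)| * ‖curl (V m n') x‖)
        ≤ |a n' t| * (1 * (‖axialL‖ * ‖fderiv ℝ (V m n') x‖)) := by
          gcongr
          exact Real.abs_cos_le_one _
      _ = ‖axialL‖ * (|a n' t| * ‖fderiv ℝ (V m n') x‖) := by ring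
      _ ≤ ‖axialL‖ * B n' := mul_le_mul_of_nonneg_left h2 axialL.opNorm_nonneg
  have hFsum : Summable fun n' => ∫ x in cube, ‖F n' x‖ := by
    refine Summable.of_nonneg_of_le (fun n' => integral_nonneg fun x => norm_nonneg _)
      (fun n' => ?_) ((hBs.mul_left ‖axialL‖).mul_left ((2 * Real.pi) ^ 3))
    calc ∫ x in cube, ‖F n' x‖ ≤ ∫ x in cube, ‖axialL‖ * B n' := by
          refine integral_mono (hFint n').norm ?_ (hFb n')
          exact continuousOn_const.integrableOn_compact cube_compact
      _ = (2 * Real.pi) ^ 3 * (‖axialL‖ * B n') := by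
          rw [setIntegral_const, volume_cube, smul_eq_mul]
  have hkey : ∫ x in cube, Real.cos (phase (kk m n) x) • curl (U m a t) x =
      a n t • ∫ x in cube, Real.cos (phase (kk m n) x) • curl (V m n) x := by
    have h1 := (hasSum_integral_of_summable_integral_norm hFint hFsum).tsum_eq
    have h2 : ∀ x, ∑' n', F n' x = Real.cos (phase (kk m n) x) • curl (U m a t) x := by
      intro x
      rw [hcurl x]
      have hs : Summable fun n' => a n' t • curl (V m n') x := by
        have := (summable_gen_fderiv h hB h0 ht.2 x).map axialL axialL.continuous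
        simpa [Function.comp_def, axialL_apply, curl] using this
      rw [← hs.tsum_const_smul]
      refine tsum_congr fun n' => ?_
      rw [hF]
      simp only
      rw [smul_comm]
    simp_rw [h2] at h1
    rw [← h1, tsum_eq_single n]
    · rw [hF]
      simp only
      rw [integral_smul]
    · intro n' hn'
      rw [hF]
      simp only
      rw [integral_smul, (curl_coeff m n).1 n' hn', smul_zero]
  have h1 : 16 ^ (m + n / 5) * (2 * Real.pi) ^ 3 * |a n t| ≤ ∫ x in cube, ‖curl (U m a t) x‖ := by
    calc 16 ^ (m + n / 5) * (2 * Real.pi) ^ 3 * |a n t|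
        ≤ ‖∫ x in cube, Real.cos (phase (kk m n) x) • curl (V m n) x‖ * |a n t| :=
          mul_le_mul_of_nonneg_right (curl_coeff m n).2 (abs_nonneg _)
      _ = ‖∫ x in cube, Real.cos (phase (kk m n) x) • curl (U m a t) x‖ := by
          rw [hkey, norm_smul, Real.norm_eq_abs, mul_comm]
      _ ≤ ∫ x in cube, ‖Real.cos (phase (kk m n) x) • curl (U m a t) x‖ :=
          norm_integral_le_integral_norm _
      _ ≤ ∫ x in cube, ‖curl (U m a t) x‖ := by
          refine integral_mono ?_ ?_ fun x => ?_
          · exact ((hcos.smul hcurlU).norm).continuousOn.integrableOn_compact cube_compact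
          · exact hcurlU.norm.continuousOn.integrableOn_compact cube_compact
          · simp only [norm_smul, Real.norm_eq_abs]
            exact mul_le_of_le_one_left (norm_nonneg _) (Real.abs_cos_le_one _)
  have h2 := cube_sq_le hcurlU.norm
  apply Real.le_sqrt_of_sq_le
  set v : ℝ := (2 * Real.pi) ^ 3 with hv
  have hv1 : 1 ≤ v := one_le_pow₀ (by linarith [Real.pi_gt_three])
  have hv0 : 0 < v := by linarith
  set S : ℝ := ∫ x in cube, ‖curl (U m a t) x‖ ^ 2 with hS
  have hS0 : 0 ≤ S := integral_nonneg fun x => sq_nonneg _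
  set I : ℝ := ∫ x in cube, ‖curl (U m a t) x‖ with hI
  set P : ℝ := 16 ^ (m + n / 5) * |a n t| with hP
  have hP0 : 0 ≤ P := by positivity
  have h3 : P * v ≤ I := by
    rw [hP]
    linarith
  have h4 : (P * v) ^ 2 ≤ v * S := (pow_le_pow_left₀ (by positivity) h3 2).trans h2
  have h5 : P ^ 2 * v ≤ S := by
    have : P ^ 2 * v * v ≤ S * v := by nlinarith
    exact le_of_mul_le_mul_right this hv0
  nlinarith [sq_nonneg P]

end Pool.Agent.Work.MP_b0497c_an.Dec
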