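import Mathlib
import Pool.Agent.Work.MP_b0497c_an.Dec.Coeff
import Pool.Agent.Work.MP_b0497c_an.Bd.B25
import Pool.Agent.Work.MP_b0497c_an.Dec.Dyadic
import Pool.Agent.Work.MP_b0497c_an.Dec.Momentum
import Pool.Agent.Work.MP_b0497c_an.Dec.UCurl
import Pool.Agent.Work.MP_b0497c_an.Dec.EnergyCons
import Pool.Agent.Work.MP_b0497c_an.Bd.B21

set_option autoImplicit false

/-! Assembly: blow-up of the restricted Euler equations. -/

namespace Pool.Agent.Work.MP_b0497c_an.Dec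

open Set MeasureTheory RealInnerProductSpace Pool.Agent.Work.MP_b0497c_an Filter Topology
open scoped ContDiff

/-- Amplitudes from the normalised dyadic model. -/
theorem amp_of_dyadic {T : ℝ} {b b' : ℕ → ℝ → ℝ}
    (h1 : ∀ n t, t < T → HasDerivAt (b n) (b' n t) t)
    (h2 : ∀ n, ContinuousOn (b' n) (Iio T))
    (h3 : ∀ T' < T, ∀ ρ : ℝ, ∃ K : ℝ, ∀ n, ∀ t ∈ Icc (-1) T',
        |b n t| * ρ ^ n ≤ K ∧ |b' n t| * ρ ^ n ≤ K) :
    Amp T (fun n t => b n t / Real.sqrt (eps n : ℝ)) (fun n t => b' n t / Real.sqrt (eps n : ℝ)) := by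
  refine ⟨fun n t ht => (h1 n t ht).div_const _, fun n => (h2 n).div_const _, ?_⟩
  intro T' hT' ρ
  obtain ⟨K, hK⟩ := h3 T' hT' |ρ|
  refine ⟨K, fun n t ht => ?_⟩
  have hs := one_le_sqrt_eps n
  have hs0 : (0 : ℝ) < Real.sqrt (eps n : ℝ) := by linarith
  have key : ∀ x : ℝ, |x / Real.sqrt (eps n : ℝ)| * ρ ^ n ≤ |x| * |ρ| ^ n := by
    intro x
    rw [abs_div, abs_of_pos hs0]
    have e1 : |x| / Real.sqrt (eps n : ℝ) ≤ |x| := div_le_self (abs_nonneg x) hs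
    have e2 : ρ ^ n ≤ |ρ| ^ n := by
      rw [← abs_pow]
      exact le_abs_self _
    calc |x| / Real.sqrt (eps n : ℝ) * ρ ^ n ≤ |x| / Real.sqrt (eps n : ℝ) * |ρ| ^ n :=
          mul_le_mul_of_nonneg_left e2 (by positivity)
      _ ≤ |x| * |ρ| ^ n := mul_le_mul_of_nonneg_right e1 (by positivity)
  exact ⟨(key _).trans (hK n t ht).1, (key _).trans (hK n t ht).2⟩

theorem ode_of_dyadic {m : ℕ} {b b' : ℕ → ℝ → ℝ} {t : ℝ}
    (h : ∀ n, b' n t = (if n = 0 then 0 else cc m (n - 1) * b (n - 1) t ^ 2)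
      - cc m n * b n t * b (n + 1) t) (n : ℕ) :
    b' n t / Real.sqrt (eps n : ℝ) = (if n = 0 then 0 else (Q m (n - 1) : ℝ) / eps n *
        (b (n - 1) t / Real.sqrt (eps (n - 1) : ℝ)) ^ 2)
      - (Q m n : ℝ) / eps n * (b n t / Real.sqrt (eps n : ℝ))
        * (b (n + 1) t / Real.sqrt (eps (n + 1) : ℝ)) := by
  rw [h n, sub_div]
  have hs : ∀ k, 0 < Real.sqrt (eps k : ℝ) := fun k => by
    have := one_le_sqrt_eps k
    linarith
  have hsq : ∀ k, Real.sqrt (eps k : ℝ) ^ 2 = (eps k : ℝ) := fun k =>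
    Real.sq_sqrt (eps_pos k).le
  congr 1
  · rcases Nat.eq_zero_or_pos n with rfl | hn
    · simp
    · obtain ⟨k, rfl⟩ : ∃ k, n = k + 1 := ⟨n - 1, by omega⟩
      simp only [Nat.add_eq_zero_iff, one_ne_zero, and_false, if_false, Nat.add_sub_cancel]
      unfold cc
      rw [div_pow, hsq k]
      have h1 := hs (k + 1)
      have h2 := eps_pos k
      have h3 := hsq (k + 1)
      clear hs hsq h
      generalize Real.sqrt (eps (k + 1) : ℝ) = s at h1 h3 ⊢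
      rw [← h3]
      field_simp
  · unfold cc
    have h1 := hs n
    have h2 := hs (n + 1)
    have h3 := eps_pos n
    field_simp

/-- The datum is a finite sum of sines. -/
theorem datum (m : ℕ) (c : ℝ) : ∃ (s : Finset (Fin 3 → ℤ))
    (A : (Fin 3 → ℤ) → EuclideanSpace ℝ (Fin 3)), ∀ x,
      c • V m 0 x = ∑ k ∈ s, Real.sin (phase k x) • A k := by
  classical
  refine ⟨Finset.univ.image (fun g : Sgn => act g (kk m 0)),
    fun k => ∑ g : Sgn with act g (kk m 0) = k, c • vec (act g (ev 0)), fun x => ?_⟩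
  unfold V
  rw [Finset.smul_sum]
  rw [← Finset.sum_fiberwise_of_maps_to (s := (Finset.univ : Finset Sgn))
    (t := Finset.univ.image (fun g : Sgn => act g (kk m 0)))
    (g := fun g : Sgn => act g (kk m 0)) (fun g hg => Finset.mem_image_of_mem _ hg)]
  refine Finset.sum_congr rfl fun k _ => ?_
  rw [Finset.smul_sum]
  refine Finset.sum_congr rfl fun g hg => ?_
  have : act g (kk m 0) = k := (Finset.mem_filter.mp hg).2
  rw [this, smul_comm]

/-- On a compact time interval, the vorticity of a `C¹` field is bounded in `L²`. -/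
theorem curl_bound {T' T : ℝ} {u : ℝ → EuclideanSpace ℝ (Fin 3) → EuclideanSpace ℝ (Fin 3)}
    (h : ContDiffOn ℝ 1 (fun z : ℝ × EuclideanSpace ℝ (Fin 3) => u z.1 z.2) (Ico 0 T' ×ˢ univ))
    (hT : T < T') : ∃ K : ℝ, ∀ t ∈ Icc 0 T, Real.sqrt (∫ x in cube, ‖curl (u t) x‖ ^ 2) ≤ K := by
  have hax : Continuous axial := by
    unfold axial
    fun_prop
  have h1 : ContinuousOn (fun z : ℝ × E3 => curl (u z.1) z.2) (Icc 0 T ×ˢ cube) := by
    have hsub : (Icc 0 T ×ˢ cube : Set (ℝ × E3)) ⊆ Ico 0 T' ×ˢ univ := by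
      rintro ⟨t, x⟩ ⟨ht, _⟩
      exact ⟨⟨ht.1, ht.2.trans_lt hT⟩, mem_univ _⟩
    have h2 := (continuousOn_fderiv h).mono hsub
    exact hax.comp_continuousOn h2
  obtain ⟨C, hC⟩ := (isCompact_Icc.prod cube_compact).exists_bound_of_continuousOn h1
  refine ⟨Real.sqrt (C ^ 2 * volume.real cube), fun t ht => ?_⟩
  apply Real.sqrt_le_sqrt
  have h3 : ‖∫ x in cube, ‖curl (u t) x‖ ^ 2‖ ≤ C ^ 2 * volume.real cube := by
    apply norm_setIntegral_le_of_norm_le_const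
    · exact cube_compact.measure_lt_top
    · intro x hx
      have := hC (t, x) ⟨ht, hx⟩
      have h0 : 0 ≤ ‖curl (u t) x‖ := norm_nonneg _
      rw [Real.norm_eq_abs, abs_of_nonneg (by positivity)]
      exact pow_le_pow_left₀ h0 this 2
  exact (le_abs_self _).trans h3

/-! ### The chain of modes -/

theorem X_subset_L (m : ℕ) : X m ⊆ L m := fun _ hk => Or.inr (Or.inl hk)

theorem act_mem_X_iff (m : ℕ) (g : Sgn) (k : Fin 3 → ℤ) : act g k ∈ X m ↔ k ∈ X m := by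
  refine ⟨fun h => ?_, fun h => act_mem_X m g h⟩
  have h1 := act_mem_X m (inv' g) h
  rwa [act_inv] at h1

theorem card_X (m N : ℕ) :
    {k : Fin 3 → ℤ | k ∈ X m ∧ ∀ i, |k i| ≤ (N : ℤ)}.ncard ≤ 240 * (Nat.log 16 N + 1) := by
  classical
  set l := 5 * (Nat.log 16 N + 1) with hl
  let f : Fin l × Sgn → (Fin 3 → ℤ) := fun z => act z.2 (kk m z.1)
  have hsub : {k : Fin 3 → ℤ | k ∈ X m ∧ ∀ i, |k i| ≤ (N : ℤ)} ⊆
      ((Finset.univ.image f : Finset (Fin 3 → ℤ)) : Set (Fin 3 → ℤ)) := by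
    rintro k ⟨⟨n, g, rfl⟩, hb⟩
    obtain ⟨i, hi⟩ := exists_act_kk_ge m n g
    have h2 := hb i
    have h3 : (16 : ℤ) ^ (m + n / 5) ≤ |act g (kk m n) i| := by
      have : (0 : ℤ) < 16 ^ (m + n / 5) := by positivity
      linarith
    rw [Finset.coe_image]
    exact ⟨(⟨n, level_le h3 h2⟩, g), Finset.mem_coe.mpr (Finset.mem_univ _), rfl⟩
  calc {k : Fin 3 → ℤ | k ∈ X m ∧ ∀ i, |k i| ≤ (N : ℤ)}.ncard
      ≤ ((Finset.univ.image f : Finset (Fin 3 → ℤ)) : Set (Fin 3 → ℤ)).ncard :=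
        Set.ncard_le_ncard hsub (Finset.finite_toSet _)
    _ = (Finset.univ.image f : Finset (Fin 3 → ℤ)).card := Set.ncard_coe_finset _
    _ ≤ Fintype.card (Fin l × Sgn) := Finset.card_image_le
    _ = 240 * (Nat.log 16 N + 1) := by
        rw [Fintype.card_prod, Fintype.card_fin, card_sgn, hl]
        ring

/-- Blow-up of the Euler equations restricted to any set of modes between the chain `X` and the
set `L`, which misses only `O(log² N)` modes of size at most `N`. -/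
theorem main (M : ℕ) : ∃ X L : Set (Fin 3 → ℤ), X ⊆ L ∧
    (∀ k : Fin 3 → ℤ, (∀ i, |k i| ≤ (M : ℤ)) → k ∈ L) ∧
    (∀ N : ℕ, {k : Fin 3 → ℤ | k ∈ X ∧ ∀ i, |k i| ≤ (N : ℤ)}.ncard
      ≤ 240 * (Nat.log 16 N + 1)) ∧
    (∀ N : ℕ, {k : Fin 3 → ℤ | k ∉ L ∧ ∀ i, |k i| ≤ (N : ℤ)}.ncard
      ≤ 57600 * (Nat.log 16 N + 1) ^ 2) ∧
    (∀ (σ : Equiv.Perm (Fin 3)) (s : Fin 3 → ℤˣ) (k : Fin 3 → ℤ),
      ((fun i => (s i : ℤ) * k (σ i)) ∈ X ↔ k ∈ X) ∧
      ((fun i => (s i : ℤ) * k (σ i)) ∈ L ↔ k ∈ L)) ∧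
    ∃ (T : ℝ) (u : ℝ → EuclideanSpace ℝ (Fin 3) → EuclideanSpace ℝ (Fin 3)), 0 < T ∧
      (∃ (s : Finset (Fin 3 → ℤ)) (A : (Fin 3 → ℤ) → EuclideanSpace ℝ (Fin 3)),
        ∀ x, u 0 x = ∑ k ∈ s, Real.sin (phase k x) • A k) ∧
      (∀ t ∈ Ico 0 T, ContDiff ℝ ∞ (u t)) ∧
      (∀ t ∈ Ico 0 T, ∫ x in cube, ‖u t x‖ ^ 2 = ∫ x in cube, ‖u 0 x‖ ^ 2) ∧
      ¬ IntegrableOn (fun t => Real.sqrt (∫ x in cube, ‖curl (u t) x‖ ^ 2)) (Ioo 0 T) ∧
      ∀ Λ : Set (Fin 3 → ℤ), X ⊆ Λ → Λ ⊆ L → IsRestrictedSolution Λ T u ∧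
        ∀ (T' : ℝ) (u' : ℝ → EuclideanSpace ℝ (Fin 3) → EuclideanSpace ℝ (Fin 3)),
          IsRestrictedSolution Λ T' u' → u' 0 = u 0 →
            T' ≤ T ∧ ∀ t ∈ Ico 0 T', u' t = u t := by
  refine ⟨X M, L M, X_subset_L M, ?_, card_X M, card_compl_L M,
    fun σ s k => ⟨act_mem_X_iff M (σ, s) k, act_mem_L M (σ, s) k⟩, ?_⟩
  · intro k hk
    apply mem_L_of_small
    intro i
    have h1 := hk i
    have h2 : (M : ℤ) < 16 ^ M := by
      exact_mod_cast Nat.lt_pow_self (by norm_num)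
    omega
  obtain ⟨T, b, b', hT, hd, hc, hb0, hode, hdec, hblow⟩ :=
    dyadic (cc M) 5 (cc_pos M) (cc_h1 M) (cc_h2 M) (cc_h3 M)
  set a : ℕ → ℝ → ℝ := fun n t => b n t / Real.sqrt (eps n : ℝ) with ha
  set a' : ℕ → ℝ → ℝ := fun n t => b' n t / Real.sqrt (eps n : ℝ) with ha'
  have hamp : Amp T a a' := amp_of_dyadic hd hc hdec
  have hcurl : ∀ n, ∀ t ∈ Ico 0 T, cc M n * |b n t|
      ≤ 12160 * Real.sqrt (∫ x in cube, ‖curl (U M a t) x‖ ^ 2) := by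
    intro n t ht
    refine (cc_mul_le M n (b n t)).trans ?_
    exact mul_le_mul_of_nonneg_left (U_curl hamp M ht n) (by norm_num)
  have hsol : ∀ Λ : Set (Fin 3 → ℤ), X M ⊆ Λ → Λ ⊆ L M → IsRestrictedSolution Λ T (U M a) := by
    intro Λ h1 h2
    refine ⟨U_contDiffOn hamp M, fun t ht => (U_inModes_X hamp M ht).mono h1, fun t ht φ hφ => ?_⟩
    exact U_momentum hamp M ht (fun n => ode_of_dyadic (fun n => hode n t ht) n) φ (hφ.mono h2)
  refine ⟨T, U M a, hT, ?_, fun t ht => U_smooth hamp M ht,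
    fun t ht => energy_const (hsol (L M) (X_subset_L M) (Subset.refl _)) ht, ?_, ?_⟩
  · obtain ⟨s, A, h⟩ := datum M (1 / Real.sqrt (eps 0 : ℝ))
    refine ⟨s, A, fun x => ?_⟩
    rw [← h x]
    unfold U
    rw [tsum_eq_single 0]
    · simp [ha, hb0]
    · intro n hn
      simp [ha, hb0, hn]
  · intro hint
    refine hblow (fun t => 12160 * Real.sqrt (∫ x in cube, ‖curl (U M a t) x‖ ^ 2)) ?_
      (hint.const_mul _)
    intro n t ht
    exact hcurl n t ⟨ht.1.le, ht.2⟩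
  · intro Λ hXΛ hΛL
    refine ⟨hsol Λ hXΛ hΛL, fun T' u' hu' h0 => ?_⟩
    suffices hle : T' ≤ T from
      ⟨hle, fun t ht => unique hu' (hsol Λ hXΛ hΛL) h0 ht.1 ht.2 (ht.2.trans_le hle)⟩
    by_contra hlt
    push Not at hlt
    obtain ⟨K, hK⟩ := curl_bound hu'.contDiff_u hlt
    refine hblow (fun _ => 12160 * K) ?_ ?_
    · intro n t ht
      refine (hcurl n t ⟨ht.1.le, ht.2⟩).trans ?_
      have huu : u' t = U M a t :=
        unique hu' (hsol Λ hXΛ hΛL) h0 ht.1.le (ht.2.trans hlt) ht.2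
      have := hK t ⟨ht.1.le, ht.2.le⟩
      rw [huu] at this
      linarith
    · exact integrableOn_const (by simp)

end Pool.Agent.Work.MP_b0497c_an.Dec
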