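import Pool.Agent.Work.MP_b0497c_an.Dec.Defs

set_option autoImplicit false
set_option linter.unusedSectionVars false

/-!
Series of smooth fields with rapidly decaying amplitudes, general version.
-/

namespace Pool.Agent.Work.MP_b0497c_an.Dec

open Set MeasureTheory RealInnerProductSpace Pool.Agent.Work.MP_b0497c_an Filter Topology
open scoped ContDiff

section

variable {E F : Type*} [NormedAddCommGroup E] [NormedSpace ℝ E]
  [NormedAddCommGroup F] [NormedSpace ℝ F] [CompleteSpace F]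

/-- The bounds for all derivatives of a sequence of fields. -/
def IterBound (W : ℕ → E → F) : Prop :=
  ∀ j : ℕ, ∃ C ρ : ℝ, ∀ n x, ‖iteratedFDeriv ℝ j (W n) x‖ ≤ C * ρ ^ n

variable {W : ℕ → E → F} {T : ℝ} {a a' : ℕ → ℝ → ℝ}

theorem exists_summable_bound (h : Amp T a a') (hB : IterBound W) {T' : ℝ} (hT' : T' < T)
    (j : ℕ) : ∃ B : ℕ → ℝ, Summable B ∧ ∀ n, ∀ t ∈ Icc (-1) T', ∀ x,
      |a n t| * ‖iteratedFDeriv ℝ j (W n) x‖ ≤ B n ∧
      |a' n t| * ‖iteratedFDeriv ℝ j (W n) x‖ ≤ B n := by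
  obtain ⟨C, ρ, hC⟩ := hB j
  obtain ⟨K, hK⟩ := h.decay T' hT' (2 * |ρ|)
  refine ⟨fun n => |C| * (K * (1 / 2) ^ n), ?_, fun n t ht x => ?_⟩
  · exact ((summable_geometric_of_lt_one (by norm_num) (by norm_num)).mul_left K).mul_left |C|
  · have h1 : ‖iteratedFDeriv ℝ j (W n) x‖ ≤ |C| * |ρ| ^ n := by
      refine (hC n x).trans ((le_abs_self _).trans ?_)
      rw [abs_mul, abs_pow]
    have h2 : ∀ s : ℝ, |s| * (2 * |ρ|) ^ n ≤ K → |s| * (|C| * |ρ| ^ n) ≤
        |C| * (K * (1 / 2) ^ n) := by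
      intro s hs
      have h3 : |s| * |ρ| ^ n ≤ K * (1 / 2) ^ n := by
        rw [mul_pow] at hs
        have h4 : |s| * |ρ| ^ n = (|s| * (2 ^ n * |ρ| ^ n)) * (1 / 2) ^ n := by
          rw [one_div, inv_pow]
          field_simp
        rw [h4]
        exact mul_le_mul_of_nonneg_right hs (by positivity)
      calc |s| * (|C| * |ρ| ^ n) = |C| * (|s| * |ρ| ^ n) := by ring
        _ ≤ |C| * (K * (1 / 2) ^ n) := mul_le_mul_of_nonneg_left h3 (abs_nonneg _)
    exact ⟨(mul_le_mul_of_nonneg_left h1 (abs_nonneg _)).trans (h2 _ (hK n t ht).1),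
      (mul_le_mul_of_nonneg_left h1 (abs_nonneg _)).trans (h2 _ (hK n t ht).2)⟩

theorem bound_zero (h : Amp T a a') (hB : IterBound W) {T' : ℝ} (hT' : T' < T) :
    ∃ B : ℕ → ℝ, Summable B ∧ ∀ n, ∀ t ∈ Icc (-1) T', ∀ x,
      |a n t| * ‖W n x‖ ≤ B n ∧ |a' n t| * ‖W n x‖ ≤ B n := by
  simpa only [norm_iteratedFDeriv_zero] using exists_summable_bound h hB hT' 0

theorem bound_one (h : Amp T a a') (hB : IterBound W) {T' : ℝ} (hT' : T' < T) :
    ∃ B : ℕ → ℝ, Summable B ∧ ∀ n, ∀ t ∈ Icc (-1) T', ∀ x,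
      |a n t| * ‖fderiv ℝ (W n) x‖ ≤ B n ∧ |a' n t| * ‖fderiv ℝ (W n) x‖ ≤ B n := by
  simpa only [norm_iteratedFDeriv_one] using exists_summable_bound h hB hT' 1

theorem summable_gen (h : Amp T a a') (hB : IterBound W) {t : ℝ} (h0 : -1 ≤ t) (hT : t < T)
    (x : E) : Summable fun n => a n t • W n x := by
  obtain ⟨B, hBs, hB'⟩ := bound_zero h hB hT
  refine Summable.of_norm_bounded hBs fun n => ?_
  rw [norm_smul, Real.norm_eq_abs]
  exact (hB' n t ⟨h0, le_rfl⟩ x).1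

theorem summable_gen' (h : Amp T a a') (hB : IterBound W) {t : ℝ} (h0 : -1 ≤ t) (hT : t < T)
    (x : E) : Summable fun n => a' n t • W n x := by
  obtain ⟨B, hBs, hB'⟩ := bound_zero h hB hT
  refine Summable.of_norm_bounded hBs fun n => ?_
  rw [norm_smul, Real.norm_eq_abs]
  exact (hB' n t ⟨h0, le_rfl⟩ x).2

theorem summable_gen_fderiv (h : Amp T a a') (hB : IterBound W) {t : ℝ} (h0 : -1 ≤ t)
    (hT : t < T) (x : E) : Summable fun n => a n t • fderiv ℝ (W n) x := by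
  obtain ⟨B, hBs, hB'⟩ := bound_one h hB hT
  refine Summable.of_norm_bounded hBs fun n => ?_
  rw [norm_smul, Real.norm_eq_abs]
  exact (hB' n t ⟨h0, le_rfl⟩ x).1

theorem hasFDerivAt_term (h : Amp T a a') (hV : ∀ n, ContDiff ℝ ∞ (W n)) (n : ℕ) {z : ℝ × E}
    (hz : z.1 < T) : HasFDerivAt (fun z : ℝ × E => a n z.1 • W n z.2)
      (a n z.1 • (fderiv ℝ (W n) z.2).comp (ContinuousLinearMap.snd ℝ ℝ E) +
        ((a' n z.1) • ContinuousLinearMap.fst ℝ ℝ E).smulRight (W n z.2)) z := by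
  have h1 : HasFDerivAt (fun z : ℝ × E => a n z.1)
      ((a' n z.1) • ContinuousLinearMap.fst ℝ ℝ E) z :=
    (h.deriv n z.1 hz).comp_hasFDerivAt z hasFDerivAt_fst
  have h2 : HasFDerivAt (fun z : ℝ × E => W n z.2)
      ((fderiv ℝ (W n) z.2).comp (ContinuousLinearMap.snd ℝ ℝ E)) z :=
    (((hV n).differentiable (by simp)) z.2).hasFDerivAt.comp z hasFDerivAt_snd
  exact h1.smul h2

theorem contDiffAt_gen (h : Amp T a a') (hV : ∀ n, ContDiff ℝ ∞ (W n)) (hB : IterBound W)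
    {z : ℝ × E} (h0 : -1 < z.1) (hT : z.1 < T) :
    ContDiffAt ℝ 1 (fun z : ℝ × E => ∑' n, a n z.1 • W n z.2) z := by
  obtain ⟨T', hT1, hT2⟩ := exists_between hT
  obtain ⟨B0, hB0s, hB0⟩ := bound_zero h hB hT2
  obtain ⟨B1, hB1s, hB1⟩ := bound_one h hB hT2
  set f' : ℕ → ℝ × E → (ℝ × E) →L[ℝ] F := fun n z =>
    a n z.1 • (fderiv ℝ (W n) z.2).comp (ContinuousLinearMap.snd ℝ ℝ E) +
      ((a' n z.1) • ContinuousLinearMap.fst ℝ ℝ E).smulRight (W n z.2) with hf'
  have hopen : IsOpen (Ioo (-1) T' ×ˢ (univ : Set E)) := isOpen_Ioo.prod isOpen_univ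
  have hconv : Convex ℝ (Ioo (-1) T' ×ˢ (univ : Set E)) := (convex_Ioo _ _).prod convex_univ
  have hbd : ∀ n, ∀ z ∈ Ioo (-1) T' ×ˢ (univ : Set E), ‖f' n z‖ ≤ B1 n + B0 n := by
    intro n z hz
    have hz' : z.1 ∈ Icc (-1) T' := Ioo_subset_Icc_self hz.1
    refine (norm_add_le _ _).trans (add_le_add ?_ ?_)
    · rw [norm_smul, Real.norm_eq_abs]
      refine le_trans (mul_le_mul_of_nonneg_left ?_ (abs_nonneg _)) (hB1 n z.1 hz' z.2).1
      refine (ContinuousLinearMap.opNorm_comp_le _ _).trans ?_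
      exact (mul_le_mul_of_nonneg_left (ContinuousLinearMap.norm_snd_le ℝ ℝ E)
        (norm_nonneg _)).trans_eq (mul_one _)
    · rw [ContinuousLinearMap.norm_smulRight_apply, norm_smul, Real.norm_eq_abs]
      refine le_trans (mul_le_mul_of_nonneg_right ?_ (norm_nonneg _)) (hB0 n z.1 hz' z.2).2
      exact (mul_le_mul_of_nonneg_left (ContinuousLinearMap.norm_fst_le ℝ ℝ E)
        (abs_nonneg _)).trans_eq (mul_one _)
  have hzmem : z ∈ Ioo (-1) T' ×ˢ (univ : Set E) := ⟨⟨h0, hT1⟩, mem_univ _⟩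
  rw [contDiffAt_one_iff]
  refine ⟨fun z => ∑' n, f' n z, Ioo (-1) T' ×ˢ univ, hopen.mem_nhds hzmem, ?_, ?_⟩
  · refine continuousOn_tsum (fun n => ?_) (hB1s.add hB0s) hbd
    have hmaps1 : MapsTo (Prod.fst : ℝ × E → ℝ) (Ioo (-1) T' ×ˢ (univ : Set E)) (Iio T) :=
      fun z hz => lt_trans hz.1.2 hT2
    have ha : ContinuousOn (fun z : ℝ × E => a n z.1) (Ioo (-1) T' ×ˢ (univ : Set E)) := by
      intro z hz
      exact ((h.deriv n z.1 (hmaps1 hz)).continuousAt.comp continuousAt_fst).continuousWithinAt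
    have ha' : ContinuousOn (fun z : ℝ × E => a' n z.1) (Ioo (-1) T' ×ˢ (univ : Set E)) :=
      (h.cont n).comp continuousOn_fst hmaps1
    have hW : Continuous fun z : ℝ × E => W n z.2 := (hV n).continuous.comp continuous_snd
    have hW' : Continuous fun z : ℝ × E => fderiv ℝ (W n) z.2 :=
      ((hV n).continuous_fderiv (by simp)).comp continuous_snd
    have h1 : ContinuousOn (fun z : ℝ × E =>
        (fderiv ℝ (W n) z.2).comp (ContinuousLinearMap.snd ℝ ℝ E))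
        (Ioo (-1) T' ×ˢ (univ : Set E)) := (hW'.clm_comp continuous_const).continuousOn
    have h2 : ContinuousOn (fun z : ℝ × E =>
        ((a' n z.1) • ContinuousLinearMap.fst ℝ ℝ E).smulRight (W n z.2))
        (Ioo (-1) T' ×ˢ (univ : Set E)) := by
      have h3 : ContinuousOn (fun z : ℝ × E => (a' n z.1) • ContinuousLinearMap.fst ℝ ℝ E)
          (Ioo (-1) T' ×ˢ (univ : Set E)) := ha'.smul continuousOn_const
      exact (((ContinuousLinearMap.smulRightL ℝ (ℝ × E) F).continuous.comp_continuousOn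
        h3).clm_apply hW.continuousOn)
    exact (ha.smul h1).add h2
  · intro z' hz'
    refine hasFDerivAt_tsum_of_isPreconnected (hB1s.add hB0s) hopen hconv.isPreconnected
      (fun n y hy => hasFDerivAt_term h hV n (lt_trans hy.1.2 hT2)) hbd hzmem ?_ hz'
    exact summable_gen h hB h0.le hT _

theorem contDiff_gen (h : Amp T a a') (hV : ∀ n, ContDiff ℝ ∞ (W n)) (hB : IterBound W)
    {t : ℝ} (h0 : -1 ≤ t) (hT : t < T) :
    ContDiff ℝ ∞ fun x : E => ∑' n, a n t • W n x := by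
  choose B hBs hB' using fun j => exists_summable_bound h hB hT j
  refine contDiff_tsum (fun n => (hV n).const_smul (a n t)) (v := B) (fun k _ => hBs k) ?_
  intro k n x _
  rw [iteratedFDeriv_const_smul_apply' (((hV n).of_le (by exact_mod_cast le_top)).contDiffAt),
    norm_smul, Real.norm_eq_abs]
  exact (hB' k n t ⟨h0, le_rfl⟩ x).1

theorem hasDerivAt_gen (h : Amp T a a') (hB : IterBound W)
    {t : ℝ} (h0 : -1 < t) (hT : t < T) (x : E) :
    HasDerivAt (fun s => ∑' n, a n s • W n x) (∑' n, a' n t • W n x) t := by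
  obtain ⟨T', hT1, hT2⟩ := exists_between hT
  obtain ⟨B0, hB0s, hB0⟩ := bound_zero h hB hT2
  have hmem : t ∈ Ioo (-1) T' := ⟨h0, hT1⟩
  refine hasDerivAt_tsum_of_isPreconnected (g := fun n s => a n s • W n x)
    (g' := fun n s => a' n s • W n x) (t := Ioo (-1) T') hB0s isOpen_Ioo isPreconnected_Ioo
    (fun n y hy => (h.deriv n y (lt_trans hy.2 hT2)).smul_const _) (fun n y hy => ?_) hmem
    (summable_gen h hB h0.le hT x) hmem
  rw [norm_smul, Real.norm_eq_abs]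
  exact (hB0 n y (Ioo_subset_Icc_self hy) x).2

theorem hasFDerivAt_gen (h : Amp T a a') (hV : ∀ n, ContDiff ℝ ∞ (W n)) (hB : IterBound W)
    {t : ℝ} (h0 : -1 ≤ t) (hT : t < T) (x : E) :
    HasFDerivAt (fun x => ∑' n, a n t • W n x) (∑' n, a n t • fderiv ℝ (W n) x) x := by
  obtain ⟨B1, hB1s, hB1⟩ := bound_one h hB hT
  refine hasFDerivAt_tsum (f := fun n x => a n t • W n x)
    (f' := fun n x => a n t • fderiv ℝ (W n) x) hB1s
    (fun n x => (((hV n).differentiable (by simp)) x).hasFDerivAt.const_smul (a n t))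
    (fun n x => ?_) (summable_gen h hB h0 hT x) x
  rw [norm_smul, Real.norm_eq_abs]
  exact (hB1 n t ⟨h0, le_rfl⟩ x).1

end

end Pool.Agent.Work.MP_b0497c_an.Dec
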